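import Pool.Agent.Q121.HC.M2
import Pool.Agent.W571.DU.BC
import Pool.Agent.W335.DU.HN

/-!
# Left ideals attached to subgroups, base change
-/

set_option autoImplicit false

namespace Pool.Agent.Q121.HC

open Pool.Agent.W326.DU Pool.Agent.Y66.HC

section

variable {G : Type} [Group G]

/-- coefficients on the cosets -/
noncomputable def lam (K : Subgroup G) : ZG G →+ ((G ⧸ K) →₀ ℤ) where
  toFun x := x.coeff.mapDomain (QuotientGroup.mk : G → G ⧸ K)
  map_zero' := by simp
  map_add' x y := by rw [MonoidAlgebra.coeff_add, Finsupp.mapDomain_add]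

theorem lam_single (K : Subgroup G) (g : G) (r : ℤ) :
    lam K (MonoidAlgebra.single g r) = Finsupp.single (QuotientGroup.mk g) r := by
  change (MonoidAlgebra.single g r : ZG G).coeff.mapDomain _ = _
  rw [MonoidAlgebra.coeff_single, Finsupp.mapDomain_single]

theorem lam_mul (K : Subgroup G) (k : G) (hk : k ∈ K) (a : ZG G) :
    lam K (a * (MonoidAlgebra.of ℤ G k - 1)) = 0 := by
  have key : (lam K).comp (AddMonoidHom.mulRight (MonoidAlgebra.of ℤ G k - 1)) = 0 := by
    refine MonoidAlgebra.addMonoidHom_ext fun g r => ?_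
    change lam K (MonoidAlgebra.single g r * (MonoidAlgebra.of ℤ G k - 1)) = 0
    rw [mul_sub, mul_one, MonoidAlgebra.of_apply, MonoidAlgebra.single_mul_single, mul_one,
      map_sub, lam_single, lam_single]
    have : (QuotientGroup.mk (g * k) : G ⧸ K) = QuotientGroup.mk g :=
      (QuotientGroup.eq.2 (by simpa using hk)).symm
    rw [this, sub_self]
  exact DFunLike.congr_fun key a

theorem lam_of_mem (K : Subgroup G) (x : ZG G) (hx : x ∈ IL ℤ (K : Set G)) : lam K x = 0 := by
  have key : ∀ (y : ZG G), y ∈ IL ℤ (K : Set G) → ∀ a : ZG G, lam K (a * y) = 0 := by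
    intro y hy
    unfold IL at hy
    induction hy using Submodule.span_induction with
    | mem y hy =>
      obtain ⟨k, hk, rfl⟩ := hy
      intro a
      exact lam_mul K k hk a
    | zero => intro a; rw [mul_zero, map_zero]
    | add u v _ _ hu hv => intro a; rw [mul_add, map_add, hu a, hv a, add_zero]
    | smul r u _ hu =>
      intro a
      rw [smul_eq_mul, ← mul_assoc]
      exact hu (a * r)
  have := key x hx 1
  rwa [one_mul] at this

/-- the section -/
noncomputable def sec (K : Subgroup G) : ((G ⧸ K) →₀ ℤ) →+ ZG G :=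
  Finsupp.liftAddHom (fun q => MonoidAlgebra.singleAddHom q.out)

theorem sub_sec_mem (K : Subgroup G) (x : ZG G) : x - sec K (lam K x) ∈ IL ℤ (K : Set G) := by
  have key : ∀ g r, (MonoidAlgebra.single g r : ZG G) - sec K (lam K (MonoidAlgebra.single g r)) ∈
      IL ℤ (K : Set G) := by
    intro g r
    rw [lam_single]
    have h1 : sec K (Finsupp.single (QuotientGroup.mk g : G ⧸ K) r) =
        MonoidAlgebra.single (QuotientGroup.mk g : G ⧸ K).out r := by
      unfold sec
      rw [Finsupp.liftAddHom_apply_single]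
      rfl
    rw [h1]
    obtain ⟨k, hk⟩ := QuotientGroup.mk_out_eq_mul K g
    rw [hk]
    have h2 : (MonoidAlgebra.single g r : ZG G) - MonoidAlgebra.single (g * k) r =
        (- MonoidAlgebra.single g r) * (MonoidAlgebra.of ℤ G k - 1) := by
      rw [neg_mul, mul_sub, mul_one, MonoidAlgebra.of_apply, MonoidAlgebra.single_mul_single,
        mul_one]
      abel
    rw [h2]
    exact Submodule.smul_mem _ _ (Submodule.subset_span ⟨k, k.2, rfl⟩)
  have h3 : ∀ y : ZG G, y ∈ AddSubgroup.comap
      ((AddMonoidHom.id (ZG G)) - (sec K).comp (lam K)) (IL ℤ (K : Set G)).toAddSubgroup := by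
    intro y
    have h4 : y = y.coeff.sum (fun g r => MonoidAlgebra.single g r) := by
      classical
      apply MonoidAlgebra.ext
      ext a
      simp only [Finsupp.sum, MonoidAlgebra.coeff_sum, MonoidAlgebra.coeff_single,
        Finsupp.finsetSum_apply]
      by_cases ha : y.coeff a = 0
      · rw [ha]
        symm
        refine Finset.sum_eq_zero fun c _ => ?_
        by_cases hc : c = a
        · rw [hc, ha]; simp
        · rw [Finsupp.single_apply, if_neg hc]
      · rw [Finset.sum_eq_single a]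
        · simp
        · intro c _ hc
          rw [Finsupp.single_apply, if_neg hc]
        · intro h
          exact absurd (Finsupp.mem_support_iff.2 ha) h
    rw [h4]
    refine AddSubgroup.sum_mem _ fun g _ => ?_
    exact key g _
  exact h3 x

theorem mem_IL_iff (K : Subgroup G) (x : ZG G) : x ∈ IL ℤ (K : Set G) ↔ lam K x = 0 := by
  constructor
  · exact lam_of_mem K x
  · intro h
    have := sub_sec_mem K x
    rwa [h, map_zero, sub_zero] at this

theorem of_sub_one_mem (K : Subgroup G) (g : G) (h : MonoidAlgebra.of ℤ G g - 1 ∈ IL ℤ (K : Set G)) :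
    g ∈ K := by
  rw [mem_IL_iff, map_sub, MonoidAlgebra.of_apply, MonoidAlgebra.one_def, lam_single, lam_single,
    sub_eq_zero] at h
  have h2 := (Finsupp.single_left_inj (one_ne_zero : (1 : ℤ) ≠ 0)).1 h
  have h3 := QuotientGroup.eq.1 h2
  simpa using h3

theorem comap_mem {P : Type} [Group P] (p : P →* G) (C : Subgroup G) (c : ZG P)
    (h : MonoidAlgebra.mapDomainRingHom ℤ p c ∈ IL ℤ (C : Set G)) :
    c ∈ IL ℤ ((C.comap p : Subgroup P) : Set P) := by
  rw [mem_IL_iff] at h ⊢
  let j : (P ⧸ C.comap p) → (G ⧸ C) :=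
    Quotient.map' p (by
      intro a b hab
      rw [QuotientGroup.leftRel_apply] at hab ⊢
      have : p (a⁻¹ * b) ∈ C := hab
      rwa [map_mul, map_inv] at this)
  have hj : Function.Injective j := by
    intro a b hab
    induction a using QuotientGroup.induction_on with
    | H a =>
      induction b using QuotientGroup.induction_on with
      | H b =>
        have h1 : (QuotientGroup.mk (p a) : G ⧸ C) = QuotientGroup.mk (p b) := hab
        rw [QuotientGroup.eq] at h1 ⊢
        change p (a⁻¹ * b) ∈ C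
        rw [map_mul, map_inv]
        exact h1
  apply Finsupp.mapDomain_injective hj
  rw [Finsupp.mapDomain_zero]
  have h2 : ∀ y : ZG P, Finsupp.mapDomain j (lam (C.comap p) y) =
      lam C (MonoidAlgebra.mapDomainRingHom ℤ p y) := by
    intro y
    change Finsupp.mapDomain j (Finsupp.mapDomain _ y.coeff) = Finsupp.mapDomain _ _
    rw [MonoidAlgebra.mapDomainRingHom_apply, MonoidAlgebra.coeff_mapDomain,
      ← Finsupp.mapDomain_comp, ← Finsupp.mapDomain_comp]
    rfl
  rw [h2, h]

theorem mapDomain_mem {P : Type} [Group P] (p : P →* G) (L : Set P) (y : ZG P) (hy : y ∈ IL ℤ L) :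
    MonoidAlgebra.mapDomainRingHom ℤ p y ∈ IL ℤ (p '' L) :=
  Pool.Agent.W571.DU.BC.map_mem ℤ p L y hy

theorem mapDomain_of {P : Type} [Group P] (p : P →* G) (g : P) :
    MonoidAlgebra.mapDomainRingHom ℤ p (MonoidAlgebra.of ℤ P g) = MonoidAlgebra.of ℤ G (p g) := by
  simp [MonoidAlgebra.of_apply]

theorem of_sub_mem_IL {X : Set G} {g : G} (hg : g ∈ Subgroup.closure X) :
    MonoidAlgebra.of ℤ G g - 1 ∈ IL ℤ X := by
  refine Subgroup.closure_induction (p := fun g _ => MonoidAlgebra.of ℤ G g - 1 ∈ IL ℤ X)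
    ?_ ?_ ?_ ?_ hg
  · intro x hx
    exact Submodule.subset_span ⟨x, hx, rfl⟩
  · rw [map_one, sub_self]
    exact Submodule.zero_mem _
  · intro x y _ _ hx hy
    have : MonoidAlgebra.of ℤ G (x * y) - 1
        = MonoidAlgebra.of ℤ G x • (MonoidAlgebra.of ℤ G y - 1)
          + (MonoidAlgebra.of ℤ G x - 1) := by
      rw [map_mul, smul_eq_mul]; noncomm_ring
    rw [this]
    exact Submodule.add_mem _ (Submodule.smul_mem _ _ hy) hx
  · intro x _ hx
    have h1 : MonoidAlgebra.of ℤ G x⁻¹ * MonoidAlgebra.of ℤ G x = 1 := by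
      rw [← map_mul, inv_mul_cancel, map_one]
    have : MonoidAlgebra.of ℤ G x⁻¹ - 1
        = (- MonoidAlgebra.of ℤ G x⁻¹) • (MonoidAlgebra.of ℤ G x - 1) := by
      rw [smul_eq_mul, neg_mul, mul_sub, h1, mul_one]; abel
    rw [this]
    exact Submodule.smul_mem _ _ hx

theorem IL_le {X Y : Set G} (h : X ⊆ Subgroup.closure Y) : IL ℤ X ≤ IL ℤ Y := by
  refine Submodule.span_le.2 ?_
  rintro _ ⟨x, hx, rfl⟩
  exact of_sub_mem_IL (h hx)

theorem IL_mono {X Y : Set G} (h : X ⊆ Y) : IL ℤ X ≤ IL ℤ Y :=
  IL_le (h.trans Subgroup.subset_closure)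

theorem range_fox {ι : Type} [Fintype ι] (x : ι → G) :
    LinearMap.range (fox x) = IL ℤ (Set.range x) := by
  classical
  apply le_antisymm
  · rintro _ ⟨c, rfl⟩
    change ∑ i, c i * (MonoidAlgebra.of ℤ G (x i) - 1) ∈ _
    exact Submodule.sum_mem _ fun i _ =>
      Submodule.smul_mem _ _ (Submodule.subset_span ⟨x i, ⟨i, rfl⟩, rfl⟩)
  · refine Submodule.span_le.2 ?_
    rintro _ ⟨_, ⟨i, rfl⟩, rfl⟩
    refine ⟨Pi.single i 1, ?_⟩
    change ∑ j, (Pi.single i (1 : ZG G) : ι → ZG G) j * (MonoidAlgebra.of ℤ G (x j) - 1) = _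
    rw [Finset.sum_eq_single i]
    · simp
    · intro j _ hj
      rw [Pi.single_eq_of_ne hj, zero_mul]
    · simp

end

/-! ### Base change of relation modules -/

section bc

open Pool.Agent.W571.DU.BC

variable {H G κ : Type} [Group H] [Group G] [Fintype κ] (ι : H →* G)
  (hι : Function.Injective ι)

theorem decomp' (x : ZG G) (T : Finset (G ⧸ ι.range))
    (hT : ∀ a, x.coeff a ≠ 0 → (QuotientGroup.mk a : G ⧸ ι.range) ∈ T) :
    x = ∑ q ∈ T, MonoidAlgebra.of ℤ G q.out *
        MonoidAlgebra.mapDomainRingHom ℤ ι (pi ℤ ι hι q.out x) := by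
  classical
  apply MonoidAlgebra.ext
  ext a
  rw [MonoidAlgebra.coeff_sum, Finsupp.finsetSum_apply]
  simp only [coeff_term]
  have key : ∀ q : G ⧸ ι.range, q.out⁻¹ * a ∈ ι.range ↔ q = (a : G ⧸ ι.range) := by
    intro q
    rw [← QuotientGroup.eq, QuotientGroup.out_eq']
  by_cases ha : x.coeff a = 0
  · rw [ha]
    simp
  · rw [Finset.sum_eq_single (a : G ⧸ ι.range)]
    · rw [if_pos ((key _).2 rfl)]
    · intro q _ hq
      rw [if_neg]
      intro h
      exact hq ((key q).1 h)
    · intro h
      exact absurd (hT a ha) h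

/-- the base change of a vector -/
noncomputable def push (a : κ → ZG H) : κ → ZG G :=
  fun j => MonoidAlgebra.mapDomainRingHom ℤ ι (a j)

include hι in
theorem base_change (y : κ → H) (a : κ → ZG G) (ha : a ∈ RM (fun j => ι (y j))) :
    a ∈ Submodule.span (ZG G) (push ι '' (RM y : Set (κ → ZG H))) := by
  classical
  have h0 : ∑ j, a j * (MonoidAlgebra.of ℤ G (ι (y j)) - 1) = 0 := ha
  have h1 : ∀ g : G, (fun j => pi ℤ ι hι g (a j)) ∈ RM y := by
    intro g
    change ∑ j, pi ℤ ι hι g (a j) * (MonoidAlgebra.of ℤ H (y j) - 1) = 0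
    have := congrArg (pi ℤ ι hι g) h0
    rw [map_sum, map_zero] at this
    simpa only [pi_mul_sub] using this
  let T : Finset (G ⧸ ι.range) :=
    Finset.univ.biUnion fun j => (a j).coeff.support.image
      (fun b : G => (QuotientGroup.mk b : G ⧸ ι.range))
  have h2 : a = ∑ q ∈ T, MonoidAlgebra.of ℤ G q.out • push ι (fun j => pi ℤ ι hι q.out (a j)) := by
    ext1 j
    rw [Finset.sum_apply]
    refine decomp' ι hι (a j) T fun b hb => ?_
    exact Finset.mem_biUnion.2 ⟨j, Finset.mem_univ _, Finset.mem_image.2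
      ⟨b, Finsupp.mem_support_iff.2 hb, rfl⟩⟩
  rw [h2]
  exact Submodule.sum_mem _ fun q _ =>
    Submodule.smul_mem _ _ (Submodule.subset_span ⟨_, h1 q.out, rfl⟩)

omit [Fintype κ] in
theorem push_add (a b : κ → ZG H) : push ι (a + b) = push ι a + push ι b := by
  ext1 j
  exact map_add (MonoidAlgebra.mapDomainRingHom ℤ ι) _ _

omit [Fintype κ] in
theorem push_smul (r : ZG H) (a : κ → ZG H) :
    push ι (r • a) = MonoidAlgebra.mapDomainRingHom ℤ ι r • push ι a := by
  ext1 j
  exact map_mul (MonoidAlgebra.mapDomainRingHom ℤ ι) _ _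

include hι in
theorem base_change_fg (y : κ → H) (h : (RM y).FG) :
    (RM (fun j => ι (y j))).FG := by
  classical
  obtain ⟨s, hs⟩ := h
  refine ⟨s.image (push ι), ?_⟩
  apply le_antisymm
  · refine Submodule.span_le.2 ?_
    intro z hz
    rw [Finset.coe_image] at hz
    obtain ⟨a, ha, rfl⟩ := hz
    have ha' : a ∈ RM y := by rw [← hs]; exact Submodule.subset_span ha
    have ha'' : ∑ j, a j * (MonoidAlgebra.of ℤ H (y j) - 1) = 0 := ha'
    change ∑ j, MonoidAlgebra.mapDomainRingHom ℤ ι (a j) *
      (MonoidAlgebra.of ℤ G (ι (y j)) - 1) = 0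
    have := congrArg (MonoidAlgebra.mapDomainRingHom ℤ ι) ha''
    rw [map_sum, map_zero] at this
    simpa only [map_mul, map_sub, map_one, mapDomain_of] using this
  · intro a ha
    have h1 := base_change ι hι y a ha
    refine Submodule.span_le.2 ?_ h1
    rintro _ ⟨b, hb, rfl⟩
    have hb' : b ∈ Submodule.span (ZG H) (s : Set (κ → ZG H)) := by rw [hs]; exact hb
    clear hb
    induction hb' using Submodule.span_induction with
    | mem b hb =>
      refine Submodule.subset_span ?_
      rw [Finset.coe_image]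
      exact ⟨b, hb, rfl⟩
    | zero =>
      have : push ι (0 : κ → ZG H) = 0 := by
        ext1 j
        exact map_zero (MonoidAlgebra.mapDomainRingHom ℤ ι)
      rw [this]
      exact Submodule.zero_mem _
    | add b c hb' hc' hb hc =>
      rw [push_add]
      exact Submodule.add_mem _ hb hc
    | smul r b hb' hb =>
      rw [push_smul]
      exact Submodule.smul_mem _ _ hb

end bc

end Pool.Agent.Q121.HC
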