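import Mathlib

/-!
# Data: an acyclic flag complex with 21 vertices and non-trivial fundamental group

The barycentric subdivision of the 2-complex with five vertices, ten edges and six pentagons.
-/

set_option autoImplicit false
set_option maxRecDepth 100000

namespace Pool.Agent.Q121.HC

/-- formal linear combinations -/
abbrev LC : Type := List (ℤ × ℕ)

/-- neighbours, as bit masks -/
def gMask : List ℕ := [2064864, 2068000, 2077248, 2086016, 2091264, 229379, 851973, 1441801, 1605649, 1343494, 1638410, 917522, 688140, 1245204, 360472, 21311, 25727, 14527, 19167, 7519, 10143]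

/-- the sorted edges -/
def gE : List (ℕ × ℕ) := [(0, 5), (0, 6), (0, 7), (0, 8), (0, 15), (0, 16), (0, 17), (0, 18), (0, 19), (0, 20), (1, 5), (1, 9), (1, 10), (1, 11), (1, 15), (1, 16), (1, 17), (1, 18), (1, 19), (1, 20), (2, 6), (2, 9), (2, 12), (2, 13), (2, 15), (2, 16), (2, 17), (2, 18), (2, 19), (2, 20), (3, 7), (3, 10), (3, 12), (3, 14), (3, 15), (3, 16), (3, 17), (3, 18), (3, 19), (3, 20), (4, 8), (4, 11), (4, 13), (4, 14), (4, 15), (4, 16), (4, 17), (4, 18), (4, 19), (4, 20), (5, 15), (5, 16), (5, 17), (6, 16), (6, 18), (6, 19), (7, 17), (7, 18), (7, 20), (8, 15), (8, 19), (8, 20), (9, 15), (9, 18), (9, 20), (10, 16), (10, 19), (10, 20), (11, 17), (11, 18), (11, 19), (12, 15), (12, 17), (12, 19), (13, 16), (13, 17), (13, 20), (14, 15), (14, 16), (14, 18)]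

/-- the sorted triangles -/
def gT : List (ℕ × ℕ × ℕ) := [(0, 5, 15), (0, 5, 16), (0, 5, 17), (0, 6, 16), (0, 6, 18), (0, 6, 19), (0, 7, 17), (0, 7, 18), (0, 7, 20), (0, 8, 15), (0, 8, 19), (0, 8, 20), (1, 5, 15), (1, 5, 16), (1, 5, 17), (1, 9, 15), (1, 9, 18), (1, 9, 20), (1, 10, 16), (1, 10, 19), (1, 10, 20), (1, 11, 17), (1, 11, 18), (1, 11, 19), (2, 6, 16), (2, 6, 18), (2, 6, 19), (2, 9, 15), (2, 9, 18), (2, 9, 20), (2, 12, 15), (2, 12, 17), (2, 12, 19), (2, 13, 16), (2, 13, 17), (2, 13, 20), (3, 7, 17), (3, 7, 18), (3, 7, 20), (3, 10, 16), (3, 10, 19), (3, 10, 20), (3, 12, 15), (3, 12, 17), (3, 12, 19), (3, 14, 15), (3, 14, 16), (3, 14, 18), (4, 8, 15), (4, 8, 19), (4, 8, 20), (4, 11, 17), (4, 11, 18), (4, 11, 19), (4, 13, 16), (4, 13, 17), (4, 13, 20), (4, 14, 15), (4, 14, 16), (4, 14, 18)]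

/-- index of an edge -/
def gEi : List (List ℕ) := [[0, 0, 0, 0, 0, 0, 1, 2, 3, 0, 0, 0, 0, 0, 0, 4, 5, 6, 7, 8, 9],
  [0, 0, 0, 0, 0, 10, 0, 0, 0, 11, 12, 13, 0, 0, 0, 14, 15, 16, 17, 18, 19],
  [0, 0, 0, 0, 0, 0, 20, 0, 0, 21, 0, 0, 22, 23, 0, 24, 25, 26, 27, 28, 29],
  [0, 0, 0, 0, 0, 0, 0, 30, 0, 0, 31, 0, 32, 0, 33, 34, 35, 36, 37, 38, 39],
  [0, 0, 0, 0, 0, 0, 0, 0, 40, 0, 0, 41, 0, 42, 43, 44, 45, 46, 47, 48, 49],
  [0, 0, 0, 0, 0, 0, 0, 0, 0, 0, 0, 0, 0, 0, 0, 50, 51, 52, 0, 0, 0],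
  [0, 0, 0, 0, 0, 0, 0, 0, 0, 0, 0, 0, 0, 0, 0, 0, 53, 0, 54, 55, 0],
  [0, 0, 0, 0, 0, 0, 0, 0, 0, 0, 0, 0, 0, 0, 0, 0, 0, 56, 57, 0, 58],
  [0, 0, 0, 0, 0, 0, 0, 0, 0, 0, 0, 0, 0, 0, 0, 59, 0, 0, 0, 60, 61],
  [0, 0, 0, 0, 0, 0, 0, 0, 0, 0, 0, 0, 0, 0, 0, 62, 0, 0, 63, 0, 64],
  [0, 0, 0, 0, 0, 0, 0, 0, 0, 0, 0, 0, 0, 0, 0, 0, 65, 0, 0, 66, 67],
  [0, 0, 0, 0, 0, 0, 0, 0, 0, 0, 0, 0, 0, 0, 0, 0, 0, 68, 69, 70, 0],
  [0, 0, 0, 0, 0, 0, 0, 0, 0, 0, 0, 0, 0, 0, 0, 71, 0, 72, 0, 73, 0],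
  [0, 0, 0, 0, 0, 0, 0, 0, 0, 0, 0, 0, 0, 0, 0, 0, 74, 75, 0, 0, 76],
  [0, 0, 0, 0, 0, 0, 0, 0, 0, 0, 0, 0, 0, 0, 0, 77, 78, 0, 79, 0, 0],
  [0, 0, 0, 0, 0, 0, 0, 0, 0, 0, 0, 0, 0, 0, 0, 0, 0, 0, 0, 0, 0],
  [0, 0, 0, 0, 0, 0, 0, 0, 0, 0, 0, 0, 0, 0, 0, 0, 0, 0, 0, 0, 0],
  [0, 0, 0, 0, 0, 0, 0, 0, 0, 0, 0, 0, 0, 0, 0, 0, 0, 0, 0, 0, 0],
  [0, 0, 0, 0, 0, 0, 0, 0, 0, 0, 0, 0, 0, 0, 0, 0, 0, 0, 0, 0, 0],
  [0, 0, 0, 0, 0, 0, 0, 0, 0, 0, 0, 0, 0, 0, 0, 0, 0, 0, 0, 0, 0],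
  [0, 0, 0, 0, 0, 0, 0, 0, 0, 0, 0, 0, 0, 0, 0, 0, 0, 0, 0, 0, 0]]

/-- the contraction in degree 2 -/
def gTab0 : List LC := [[(1, 14), (1, 19), (1, 22), (1, 24), (1, 26), (1, 29), (-1, 31), (-1, 33), (-1, 35), (-1, 38), (-1, 42), (-1, 43), (-1, 45), (1, 50), (1, 62), (1, 64), (1, 67), (-1, 73), (1, 75), (1, 76), (1, 77), (1, 79)],
  [(1, 12), (1, 15), (1, 18), (-1, 22), (-1, 26), (1, 31), (1, 33), (1, 34), (1, 35), (1, 38), (-1, 41), (-1, 46), (-1, 47), (1, 51), (-1, 67), (1, 70), (1, 71), (1, 73), (-1, 75), (-1, 79)],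
  [(1, 11), (1, 13), (1, 16), (1, 17), (-1, 24), (-1, 29), (-1, 34), (1, 41), (1, 42), (1, 43), (1, 45), (1, 46), (1, 47), (1, 52), (-1, 62), (-1, 64), (-1, 70), (-1, 71), (-1, 76), (-1, 77)],
  [],
  [],
  [],
  [],
  [(-1, 18), (1, 22), (1, 23), (1, 25), (1, 26), (-1, 34), (-1, 38), (1, 41), (1, 42), (1, 43), (1, 45), (1, 46), (1, 47), (1, 53), (-1, 66), (-1, 70), (-1, 71), (-1, 73), (-1, 76), (-1, 77)],
  [],
  [(1, 11), (1, 17), (1, 18), (1, 19), (1, 21), (1, 27), (1, 29), (-1, 31), (-1, 33), (-1, 35), (-1, 41), (-1, 42), (-1, 43), (-1, 45), (-1, 46), (1, 54), (-1, 62), (1, 66), (1, 67), (1, 69), (1, 70), (1, 76), (1, 77), (1, 79)],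
  [(-1, 11), (-1, 17), (-1, 19), (1, 24), (1, 28), (1, 31), (1, 33), (1, 34), (1, 35), (1, 38), (-1, 47), (1, 55), (1, 62), (-1, 67), (-1, 69), (1, 71), (1, 73), (-1, 79)],
  [],
  [],
  [],
  [(-1, 11), (-1, 17), (1, 22), (1, 24), (1, 26), (1, 29), (1, 32), (1, 34), (1, 36), (-1, 42), (-1, 43), (-1, 45), (-1, 47), (1, 56), (1, 62), (1, 64), (-1, 69), (-1, 73), (1, 75), (1, 76), (1, 77)],
  [(-1, 18), (-1, 19), (-1, 29), (1, 31), (1, 33), (1, 35), (1, 37), (1, 41), (1, 42), (1, 43), (1, 45), (1, 46), (1, 47), (1, 57), (-1, 64), (-1, 66), (-1, 67), (-1, 70), (-1, 76), (-1, 77)],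
  [],
  [(1, 11), (1, 17), (1, 18), (1, 19), (-1, 22), (-1, 24), (-1, 26), (1, 38), (1, 39), (-1, 41), (-1, 46), (1, 58), (-1, 62), (1, 66), (1, 67), (1, 69), (1, 70), (1, 73), (-1, 75)],
  [(-1, 19), (-1, 22), (-1, 26), (-1, 29), (1, 31), (1, 33), (1, 34), (1, 35), (1, 38), (1, 42), (1, 43), (1, 44), (1, 45), (1, 59), (-1, 64), (-1, 67), (1, 71), (1, 73), (-1, 75), (-1, 76), (-1, 79)],
  []]

/-- the contraction in degree 2 -/
def gTab1 : List LC := [[],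
  [],
  [(1, 11), (1, 17), (1, 18), (1, 19), (-1, 24), (-1, 31), (-1, 33), (-1, 34), (-1, 35), (1, 47), (1, 48), (1, 60), (-1, 62), (1, 66), (1, 67), (1, 69), (1, 70), (-1, 71), (1, 79)],
  [(-1, 11), (-1, 17), (-1, 18), (1, 22), (1, 24), (1, 26), (1, 29), (-1, 38), (1, 41), (1, 46), (1, 49), (1, 61), (1, 62), (1, 64), (-1, 66), (-1, 69), (-1, 70), (-1, 73), (1, 75), (1, 76)],
  [],
  [],
  [],
  [],
  [],
  [],
  [],
  [],
  [],
  [],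
  [],
  [],
  [],
  [],
  [],
  []]

/-- the contraction in degree 2 -/
def gTab2 : List LC := [[],
  [],
  [],
  [],
  [],
  [],
  [],
  [],
  [],
  [],
  [],
  [],
  [],
  [],
  [],
  [],
  [],
  [],
  [],
  []]

/-- the contraction in degree 2 -/
def gTab3 : List LC := [[(-1, 14), (-1, 19), (-1, 22), (-1, 24), (-1, 26), (-1, 29), (1, 31), (1, 33), (1, 35), (1, 38), (1, 42), (1, 43), (1, 45), (-1, 62), (-1, 64), (-1, 67), (1, 73), (-1, 75), (-1, 76), (-1, 77), (-1, 79)],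
  [(-1, 12), (-1, 15), (-1, 18), (1, 22), (1, 26), (-1, 31), (-1, 33), (-1, 34), (-1, 35), (-1, 38), (1, 41), (1, 46), (1, 47), (1, 67), (-1, 70), (-1, 71), (-1, 73), (1, 75), (1, 79)],
  [(-1, 11), (-1, 13), (-1, 16), (-1, 17), (1, 24), (1, 29), (1, 34), (-1, 41), (-1, 42), (-1, 43), (-1, 45), (-1, 46), (-1, 47), (1, 62), (1, 64), (1, 70), (1, 71), (1, 76), (1, 77)],
  [],
  [],
  [],
  [],
  [],
  [],
  [],
  [],
  [],
  [],
  [],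
  [],
  [],
  [],
  [],
  [],
  []]

/-- the contraction in degree 2 -/
def gTab4 : List LC := [[],
  [],
  [],
  [],
  [(1, 19), (1, 22), (1, 24), (1, 26), (1, 29), (-1, 31), (-1, 33), (-1, 35), (-1, 38), (-1, 42), (-1, 43), (-1, 45), (1, 62), (1, 64), (1, 67), (-1, 73), (1, 75), (1, 76), (1, 77), (1, 79)],
  [],
  [],
  [(-1, 17), (-1, 18), (-1, 19), (-1, 29), (1, 31), (1, 33), (1, 35), (1, 41), (1, 42), (1, 43), (1, 45), (1, 46), (-1, 64), (-1, 66), (-1, 67), (-1, 69), (-1, 70), (-1, 76), (-1, 77), (-1, 79)],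
  [],
  [(1, 11), (1, 17), (1, 18), (-1, 22), (-1, 24), (-1, 26), (1, 38), (-1, 41), (-1, 46), (-1, 62), (1, 66), (1, 69), (1, 70), (1, 73), (-1, 75)],
  [],
  [(1, 12), (1, 18), (-1, 22), (-1, 26), (1, 31), (1, 33), (1, 34), (1, 35), (1, 38), (-1, 41), (-1, 46), (-1, 47), (-1, 67), (1, 70), (1, 71), (1, 73), (-1, 75), (-1, 79)],
  [],
  [],
  [(1, 11), (1, 17), (1, 19), (-1, 24), (-1, 31), (-1, 33), (-1, 34), (-1, 35), (1, 47), (-1, 62), (1, 66), (1, 67), (1, 69), (-1, 71), (1, 79)],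
  [(-1, 11), (-1, 17), (-1, 18), (-1, 19), (1, 22), (1, 24), (1, 26), (-1, 38), (1, 41), (1, 46), (1, 62), (-1, 66), (-1, 69), (-1, 70), (-1, 73), (1, 75)],
  [],
  [],
  [(1, 11), (1, 13), (1, 17), (-1, 24), (-1, 29), (-1, 34), (1, 41), (1, 42), (1, 43), (1, 45), (1, 46), (1, 47), (-1, 62), (-1, 64), (-1, 70), (-1, 71), (-1, 76), (-1, 77)],
  [(1, 18), (1, 19), (1, 29), (-1, 31), (-1, 33), (-1, 35), (-1, 41), (-1, 42), (-1, 43), (-1, 45), (-1, 46), (1, 64), (1, 66), (1, 67), (1, 69), (1, 70), (1, 76), (1, 77), (1, 79)]]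

/-- the contraction in degree 2 -/
def gTab5 : List LC := [[(-1, 11), (-1, 17), (-1, 18), (-1, 19), (1, 24), (1, 31), (1, 33), (1, 34), (1, 35), (-1, 47), (1, 62), (-1, 66), (-1, 67), (-1, 69), (1, 71), (-1, 79)],
  [],
  [],
  [],
  [],
  [],
  [],
  [],
  [],
  [],
  [],
  [],
  [],
  [],
  [],
  [],
  [],
  [],
  [],
  []]

/-- the contraction in degree 2 -/
def gTab6 : List LC := [[],
  [],
  [],
  [],
  [],
  [],
  [],
  [(1, 18), (-1, 22), (-1, 23), (-1, 25), (-1, 26), (1, 34), (1, 38), (-1, 41), (-1, 42), (-1, 43), (-1, 45), (-1, 46), (-1, 47), (1, 66), (1, 70), (1, 71), (1, 73), (1, 76), (1, 77)],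
  [],
  [(-1, 11), (-1, 17), (-1, 18), (-1, 19), (-1, 21), (-1, 27), (-1, 29), (1, 31), (1, 33), (1, 35), (1, 41), (1, 42), (1, 43), (1, 45), (1, 46), (1, 62), (-1, 66), (-1, 67), (-1, 69), (-1, 70), (-1, 76), (-1, 77), (-1, 79)],
  [(1, 11), (1, 17), (1, 19), (-1, 24), (-1, 28), (-1, 31), (-1, 33), (-1, 34), (-1, 35), (-1, 38), (1, 47), (-1, 62), (1, 67), (1, 69), (-1, 71), (-1, 73), (1, 79)],
  [],
  [],
  [],
  [],
  [],
  [],
  [],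
  [],
  []]

/-- the contraction in degree 2 -/
def gTab7 : List LC := [[],
  [],
  [],
  [],
  [(-1, 19), (-1, 22), (-1, 24), (-1, 26), (-1, 29), (1, 31), (1, 33), (1, 35), (1, 38), (1, 42), (1, 43), (1, 45), (-1, 64), (-1, 67), (1, 73), (-1, 75), (-1, 76), (-1, 77), (-1, 79)],
  [],
  [],
  [(1, 11), (1, 17), (1, 18), (1, 19), (1, 21), (1, 29), (-1, 31), (-1, 33), (-1, 35), (-1, 41), (-1, 42), (-1, 43), (-1, 45), (-1, 46), (-1, 62), (1, 66), (1, 67), (1, 69), (1, 70), (1, 76), (1, 77), (1, 79)],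
  [],
  [(-1, 11), (-1, 17), (-1, 18), (1, 22), (1, 24), (1, 26), (-1, 38), (1, 41), (1, 46), (1, 62), (1, 64), (-1, 66), (-1, 69), (-1, 70), (-1, 73), (1, 75)],
  [],
  [],
  [],
  [],
  [],
  [],
  [],
  [],
  [],
  []]

/-- the contraction in degree 2 -/
def gTab8 : List LC := [[],
  [],
  [(1, 19), (1, 22), (1, 26), (1, 29), (-1, 31), (-1, 33), (-1, 35), (-1, 38), (-1, 42), (-1, 43), (-1, 45), (1, 64), (1, 67), (-1, 73), (1, 75), (1, 76), (1, 77), (1, 79)],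
  [],
  [(1, 11), (1, 17), (-1, 24), (-1, 26), (-1, 29), (-1, 34), (1, 42), (1, 43), (1, 45), (1, 47), (-1, 62), (-1, 64), (1, 69), (-1, 71), (-1, 75), (-1, 76), (-1, 77)],
  [],
  [(-1, 11), (-1, 17), (-1, 19), (1, 24), (1, 31), (1, 33), (1, 34), (1, 35), (1, 38), (-1, 47), (1, 62), (-1, 67), (-1, 69), (1, 71), (1, 73), (-1, 79)],
  [],
  [],
  [(-1, 18), (1, 22), (1, 23), (1, 26), (-1, 34), (-1, 38), (1, 41), (1, 42), (1, 43), (1, 45), (1, 46), (1, 47), (-1, 66), (-1, 70), (-1, 71), (-1, 73), (-1, 76), (-1, 77)],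
  [(-1, 11), (-1, 17), (1, 24), (1, 29), (1, 34), (-1, 42), (-1, 43), (-1, 45), (-1, 47), (1, 62), (1, 64), (-1, 69), (1, 71), (1, 75), (1, 76), (1, 77)],
  [],
  [],
  [(1, 11), (1, 17), (1, 18), (-1, 22), (-1, 24), (-1, 26), (-1, 29), (1, 38), (-1, 41), (-1, 46), (-1, 62), (-1, 64), (1, 66), (1, 69), (1, 70), (1, 73), (-1, 75)],
  [],
  [],
  [],
  [],
  [],
  []]

/-- the contraction in degree 2 -/
def gTab9 : List LC := [[],
  [],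
  [],
  [],
  [],
  [],
  [],
  [],
  [],
  [],
  [],
  [],
  [],
  [],
  [(1, 11), (1, 17), (-1, 22), (-1, 24), (-1, 26), (-1, 29), (-1, 32), (-1, 34), (-1, 36), (1, 42), (1, 43), (1, 45), (1, 47), (-1, 62), (-1, 64), (1, 69), (1, 73), (-1, 75), (-1, 76), (-1, 77)],
  [(1, 18), (1, 19), (1, 29), (-1, 31), (-1, 33), (-1, 35), (-1, 37), (-1, 41), (-1, 42), (-1, 43), (-1, 45), (-1, 46), (-1, 47), (1, 64), (1, 66), (1, 67), (1, 70), (1, 76), (1, 77)],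
  [],
  [(-1, 11), (-1, 17), (-1, 18), (-1, 19), (1, 22), (1, 24), (1, 26), (-1, 38), (-1, 39), (1, 41), (1, 46), (1, 62), (-1, 66), (-1, 67), (-1, 69), (-1, 70), (-1, 73), (1, 75)],
  [],
  []]

/-- the contraction in degree 2 -/
def gTab10 : List LC := [[],
  [],
  [],
  [],
  [],
  [],
  [],
  [],
  [],
  [],
  [],
  [(-1, 18), (1, 22), (1, 26), (-1, 33), (-1, 34), (-1, 35), (-1, 38), (1, 41), (1, 46), (1, 47), (-1, 66), (-1, 70), (-1, 71), (-1, 73), (1, 75), (1, 79)],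
  [],
  [],
  [(-1, 11), (-1, 17), (-1, 19), (1, 24), (1, 31), (1, 33), (1, 34), (1, 35), (-1, 47), (1, 62), (-1, 67), (-1, 69), (1, 71), (-1, 79)],
  [(1, 11), (1, 17), (1, 18), (1, 19), (-1, 22), (-1, 24), (-1, 26), (1, 38), (-1, 41), (-1, 46), (-1, 62), (1, 66), (1, 67), (1, 69), (1, 70), (1, 73), (-1, 75)],
  [],
  [],
  [],
  []]

/-- the contraction in degree 2 -/
def gTab11 : List LC := [[],
  [],
  [(-1, 19), (-1, 22), (-1, 26), (-1, 29), (1, 31), (1, 33), (1, 35), (1, 38), (1, 42), (1, 43), (1, 45), (-1, 64), (-1, 67), (1, 71), (1, 73), (-1, 75), (-1, 76), (-1, 77), (-1, 79)],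
  [],
  [(-1, 11), (-1, 17), (1, 22), (1, 24), (1, 26), (1, 29), (1, 32), (1, 34), (-1, 42), (-1, 43), (-1, 45), (-1, 47), (1, 62), (1, 64), (-1, 69), (-1, 73), (1, 75), (1, 76), (1, 77)],
  [],
  [(1, 11), (1, 17), (1, 19), (-1, 24), (-1, 31), (-1, 33), (-1, 34), (-1, 35), (-1, 38), (1, 47), (-1, 62), (1, 67), (1, 69), (-1, 71), (1, 79)],
  [],
  [],
  [],
  [],
  [],
  [],
  [],
  [(1, 19), (1, 22), (1, 26), (1, 29), (-1, 31), (-1, 33), (-1, 34), (-1, 35), (-1, 38), (-1, 42), (-1, 43), (-1, 45), (1, 64), (1, 67), (-1, 71), (-1, 73), (1, 75), (1, 76), (1, 77), (1, 79)],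
  [(1, 18), (-1, 22), (-1, 26), (1, 33), (1, 34), (1, 38), (-1, 41), (-1, 46), (-1, 47), (1, 66), (1, 70), (1, 71), (1, 73), (-1, 75), (-1, 79)],
  [],
  [(-1, 18), (-1, 19), (-1, 29), (1, 31), (1, 33), (1, 35), (1, 41), (1, 42), (1, 43), (1, 45), (1, 46), (1, 47), (-1, 64), (-1, 66), (-1, 67), (-1, 70), (-1, 76), (-1, 77)],
  [],
  []]

/-- the contraction in degree 2 -/
def gTab12 : List LC := [[],
  [],
  [],
  [],
  [],
  [],
  [],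
  [],
  [],
  [],
  [],
  [],
  [],
  [],
  [],
  [],
  [],
  [],
  [(1, 19), (1, 22), (1, 26), (1, 29), (-1, 31), (-1, 33), (-1, 34), (-1, 35), (-1, 38), (-1, 42), (-1, 43), (-1, 44), (-1, 45), (1, 64), (1, 67), (-1, 71), (-1, 73), (1, 75), (1, 76), (1, 79)],
  []]

/-- the contraction in degree 2 -/
def gTab13 : List LC := [[],
  [],
  [(-1, 11), (-1, 17), (-1, 18), (-1, 19), (1, 24), (1, 31), (1, 33), (1, 34), (1, 35), (-1, 47), (-1, 48), (1, 62), (-1, 66), (-1, 67), (-1, 69), (-1, 70), (1, 71), (-1, 79)],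
  [(1, 11), (1, 17), (1, 18), (-1, 22), (-1, 24), (-1, 26), (-1, 29), (1, 38), (-1, 41), (-1, 46), (-1, 49), (-1, 62), (-1, 64), (1, 66), (1, 69), (1, 70), (1, 73), (-1, 75), (-1, 76)],
  [],
  [],
  [],
  [],
  [],
  [],
  [],
  [],
  [],
  [],
  [],
  [],
  [],
  [],
  [(-1, 11), (-1, 17), (1, 24), (1, 29), (1, 34), (-1, 42), (-1, 43), (-1, 45), (-1, 46), (-1, 47), (1, 62), (1, 64), (-1, 69), (1, 71), (1, 76), (1, 77)],
  [(-1, 18), (-1, 19), (-1, 29), (1, 31), (1, 33), (1, 35), (1, 41), (1, 42), (1, 43), (1, 45), (1, 46), (-1, 64), (-1, 66), (-1, 67), (-1, 70), (-1, 76), (-1, 77), (-1, 79)]]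

/-- the contraction in degree 2 -/
def gTab14 : List LC := [[(1, 11), (1, 17), (1, 18), (1, 19), (-1, 24), (-1, 31), (-1, 33), (-1, 34), (-1, 35), (1, 47), (-1, 62), (1, 66), (1, 67), (1, 69), (1, 70), (-1, 71), (1, 79)],
  [],
  [],
  [],
  [],
  [],
  [],
  [],
  [],
  [(1, 18), (-1, 22), (-1, 26), (1, 34), (1, 38), (-1, 41), (-1, 43), (-1, 45), (-1, 46), (-1, 47), (1, 66), (1, 70), (1, 71), (1, 73), (-1, 75), (1, 77)],
  [(1, 11), (1, 17), (-1, 24), (-1, 29), (-1, 34), (1, 42), (1, 43), (1, 45), (1, 47), (-1, 62), (-1, 64), (1, 69), (-1, 71), (-1, 76), (-1, 77)],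
  [],
  [],
  [(-1, 11), (-1, 17), (-1, 18), (1, 22), (1, 24), (1, 26), (1, 29), (-1, 38), (1, 41), (1, 46), (1, 62), (1, 64), (-1, 66), (-1, 69), (-1, 70), (-1, 73), (1, 75), (1, 76)],
  [(-1, 19), (-1, 22), (-1, 26), (-1, 29), (1, 31), (1, 33), (1, 34), (1, 35), (1, 38), (1, 42), (1, 43), (1, 45), (-1, 64), (-1, 67), (1, 71), (1, 73), (-1, 75), (-1, 76), (-1, 79)],
  [(-1, 18), (1, 22), (1, 26), (-1, 34), (-1, 38), (1, 41), (1, 43), (1, 46), (1, 47), (-1, 66), (-1, 70), (-1, 71), (-1, 73), (1, 75), (-1, 77)],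
  [],
  [(1, 18), (1, 19), (1, 29), (-1, 31), (-1, 33), (-1, 35), (-1, 41), (-1, 42), (-1, 43), (-1, 45), (-1, 46), (-1, 47), (1, 64), (1, 66), (1, 67), (1, 70), (1, 76), (1, 77), (1, 79)],
  [],
  []]

/-- the contraction in degree 2 -/
def gTab : List LC := gTab0 ++ gTab1 ++ gTab2 ++ gTab3 ++ gTab4 ++ gTab5 ++ gTab6 ++ gTab7 ++ gTab8 ++ gTab9 ++ gTab10 ++ gTab11 ++ gTab12 ++ gTab13 ++ gTab14

/-- the indices of the triangles -/
def gIdx0 : List LC := [[(1, 0)],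
  [(1, 1)],
  [(1, 2)],
  [],
  [],
  [],
  [],
  [(1, 3)],
  [],
  [(1, 4)],
  [(1, 5)],
  [],
  [],
  [],
  [(1, 6)],
  [(1, 7)],
  [],
  [(1, 8)],
  [(1, 9)],
  []]

/-- the indices of the triangles -/
def gIdx1 : List LC := [[],
  [],
  [(1, 10)],
  [(1, 11)],
  [],
  [],
  [],
  [],
  [],
  [],
  [],
  [],
  [],
  [],
  [],
  [],
  [],
  [],
  [],
  []]

/-- the indices of the triangles -/
def gIdx2 : List LC := [[],
  [],
  [],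
  [],
  [],
  [],
  [],
  [],
  [],
  [],
  [],
  [],
  [],
  [],
  [],
  [],
  [],
  [],
  [],
  []]

/-- the indices of the triangles -/
def gIdx3 : List LC := [[(1, 12)],
  [(1, 13)],
  [(1, 14)],
  [],
  [],
  [],
  [],
  [],
  [],
  [],
  [],
  [],
  [],
  [],
  [],
  [],
  [],
  [],
  [],
  []]

/-- the indices of the triangles -/
def gIdx4 : List LC := [[],
  [],
  [],
  [],
  [(1, 15)],
  [],
  [],
  [(1, 16)],
  [],
  [(1, 17)],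
  [],
  [(1, 18)],
  [],
  [],
  [(1, 19)],
  [(1, 20)],
  [],
  [],
  [(1, 21)],
  [(1, 22)]]

/-- the indices of the triangles -/
def gIdx5 : List LC := [[(1, 23)],
  [],
  [],
  [],
  [],
  [],
  [],
  [],
  [],
  [],
  [],
  [],
  [],
  [],
  [],
  [],
  [],
  [],
  [],
  []]

/-- the indices of the triangles -/
def gIdx6 : List LC := [[],
  [],
  [],
  [],
  [],
  [],
  [],
  [(1, 24)],
  [],
  [(1, 25)],
  [(1, 26)],
  [],
  [],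
  [],
  [],
  [],
  [],
  [],
  [],
  []]

/-- the indices of the triangles -/
def gIdx7 : List LC := [[],
  [],
  [],
  [],
  [(1, 27)],
  [],
  [],
  [(1, 28)],
  [],
  [(1, 29)],
  [],
  [],
  [],
  [],
  [],
  [],
  [],
  [],
  [],
  []]

/-- the indices of the triangles -/
def gIdx8 : List LC := [[],
  [],
  [(1, 30)],
  [],
  [(1, 31)],
  [],
  [(1, 32)],
  [],
  [],
  [(1, 33)],
  [(1, 34)],
  [],
  [],
  [(1, 35)],
  [],
  [],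
  [],
  [],
  [],
  []]

/-- the indices of the triangles -/
def gIdx9 : List LC := [[],
  [],
  [],
  [],
  [],
  [],
  [],
  [],
  [],
  [],
  [],
  [],
  [],
  [],
  [(1, 36)],
  [(1, 37)],
  [],
  [(1, 38)],
  [],
  []]

/-- the indices of the triangles -/
def gIdx10 : List LC := [[],
  [],
  [],
  [],
  [],
  [],
  [],
  [],
  [],
  [],
  [],
  [(1, 39)],
  [],
  [],
  [(1, 40)],
  [(1, 41)],
  [],
  [],
  [],
  []]

/-- the indices of the triangles -/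
def gIdx11 : List LC := [[],
  [],
  [(1, 42)],
  [],
  [(1, 43)],
  [],
  [(1, 44)],
  [],
  [],
  [],
  [],
  [],
  [],
  [],
  [(1, 45)],
  [(1, 46)],
  [],
  [(1, 47)],
  [],
  []]

/-- the indices of the triangles -/
def gIdx12 : List LC := [[],
  [],
  [],
  [],
  [],
  [],
  [],
  [],
  [],
  [],
  [],
  [],
  [],
  [],
  [],
  [],
  [],
  [],
  [(1, 48)],
  []]

/-- the indices of the triangles -/
def gIdx13 : List LC := [[],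
  [],
  [(1, 49)],
  [(1, 50)],
  [],
  [],
  [],
  [],
  [],
  [],
  [],
  [],
  [],
  [],
  [],
  [],
  [],
  [],
  [(1, 51)],
  [(1, 52)]]

/-- the indices of the triangles -/
def gIdx14 : List LC := [[(1, 53)],
  [],
  [],
  [],
  [],
  [],
  [],
  [],
  [],
  [(1, 54)],
  [(1, 55)],
  [],
  [],
  [(1, 56)],
  [(1, 57)],
  [(1, 58)],
  [],
  [(1, 59)],
  [],
  []]

/-- the indices of the triangles -/
def gIdx : List LC := gIdx0 ++ gIdx1 ++ gIdx2 ++ gIdx3 ++ gIdx4 ++ gIdx5 ++ gIdx6 ++ gIdx7 ++ gIdx8 ++ gIdx9 ++ gIdx10 ++ gIdx11 ++ gIdx12 ++ gIdx13 ++ gIdx14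

/-- the boundary in degree 2 -/
def gD20 : List LC := [[(1, 0), (1, 1), (1, 2)],
  [(1, 3), (1, 4), (1, 5)],
  [(1, 6), (1, 7), (1, 8)],
  [(1, 9), (1, 10), (1, 11)],
  [(-1, 0), (-1, 9)],
  [(-1, 1), (-1, 3)],
  [(-1, 2), (-1, 6)],
  [(-1, 4), (-1, 7)],
  [(-1, 5), (-1, 10)],
  [(-1, 8), (-1, 11)],
  [(1, 12), (1, 13), (1, 14)],
  [(1, 15), (1, 16), (1, 17)],
  [(1, 18), (1, 19), (1, 20)],
  [(1, 21), (1, 22), (1, 23)],
  [(-1, 12), (-1, 15)],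
  [(-1, 13), (-1, 18)],
  [(-1, 14), (-1, 21)],
  [(-1, 16), (-1, 22)],
  [(-1, 19), (-1, 23)],
  [(-1, 17), (-1, 20)]]

/-- the boundary in degree 2 -/
def gD21 : List LC := [[(1, 24), (1, 25), (1, 26)],
  [(1, 27), (1, 28), (1, 29)],
  [(1, 30), (1, 31), (1, 32)],
  [(1, 33), (1, 34), (1, 35)],
  [(-1, 27), (-1, 30)],
  [(-1, 24), (-1, 33)],
  [(-1, 31), (-1, 34)],
  [(-1, 25), (-1, 28)],
  [(-1, 26), (-1, 32)],
  [(-1, 29), (-1, 35)],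
  [(1, 36), (1, 37), (1, 38)],
  [(1, 39), (1, 40), (1, 41)],
  [(1, 42), (1, 43), (1, 44)],
  [(1, 45), (1, 46), (1, 47)],
  [(-1, 42), (-1, 45)],
  [(-1, 39), (-1, 46)],
  [(-1, 36), (-1, 43)],
  [(-1, 37), (-1, 47)],
  [(-1, 40), (-1, 44)],
  [(-1, 38), (-1, 41)]]

/-- the boundary in degree 2 -/
def gD22 : List LC := [[(1, 48), (1, 49), (1, 50)],
  [(1, 51), (1, 52), (1, 53)],
  [(1, 54), (1, 55), (1, 56)],
  [(1, 57), (1, 58), (1, 59)],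
  [(-1, 48), (-1, 57)],
  [(-1, 54), (-1, 58)],
  [(-1, 51), (-1, 55)],
  [(-1, 52), (-1, 59)],
  [(-1, 49), (-1, 53)],
  [(-1, 50), (-1, 56)],
  [(1, 0), (1, 12)],
  [(1, 1), (1, 13)],
  [(1, 2), (1, 14)],
  [(1, 3), (1, 24)],
  [(1, 4), (1, 25)],
  [(1, 5), (1, 26)],
  [(1, 6), (1, 36)],
  [(1, 7), (1, 37)],
  [(1, 8), (1, 38)],
  [(1, 9), (1, 48)]]

/-- the boundary in degree 2 -/
def gD23 : List LC := [[(1, 10), (1, 49)],
  [(1, 11), (1, 50)],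
  [(1, 15), (1, 27)],
  [(1, 16), (1, 28)],
  [(1, 17), (1, 29)],
  [(1, 18), (1, 39)],
  [(1, 19), (1, 40)],
  [(1, 20), (1, 41)],
  [(1, 21), (1, 51)],
  [(1, 22), (1, 52)],
  [(1, 23), (1, 53)],
  [(1, 30), (1, 42)],
  [(1, 31), (1, 43)],
  [(1, 32), (1, 44)],
  [(1, 33), (1, 54)],
  [(1, 34), (1, 55)],
  [(1, 35), (1, 56)],
  [(1, 45), (1, 57)],
  [(1, 46), (1, 58)],
  [(1, 47), (1, 59)]]

/-- the boundary in degree 2 -/
def gD2 : List LC := gD20 ++ gD21 ++ gD22 ++ gD23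

/-- the boundary in degree 1 -/
def gD10 : List LC := [[(-1, 0), (-1, 1), (-1, 2), (-1, 3), (-1, 4), (-1, 5), (-1, 6), (-1, 7), (-1, 8), (-1, 9)],
  [(-1, 10), (-1, 11), (-1, 12), (-1, 13), (-1, 14), (-1, 15), (-1, 16), (-1, 17), (-1, 18), (-1, 19)],
  [(-1, 20), (-1, 21), (-1, 22), (-1, 23), (-1, 24), (-1, 25), (-1, 26), (-1, 27), (-1, 28), (-1, 29)],
  [(-1, 30), (-1, 31), (-1, 32), (-1, 33), (-1, 34), (-1, 35), (-1, 36), (-1, 37), (-1, 38), (-1, 39)],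
  [(-1, 40), (-1, 41), (-1, 42), (-1, 43), (-1, 44), (-1, 45), (-1, 46), (-1, 47), (-1, 48), (-1, 49)],
  [(1, 0), (1, 10), (-1, 50), (-1, 51), (-1, 52)],
  [(1, 1), (1, 20), (-1, 53), (-1, 54), (-1, 55)],
  [(1, 2), (1, 30), (-1, 56), (-1, 57), (-1, 58)],
  [(1, 3), (1, 40), (-1, 59), (-1, 60), (-1, 61)],
  [(1, 11), (1, 21), (-1, 62), (-1, 63), (-1, 64)],
  [(1, 12), (1, 31), (-1, 65), (-1, 66), (-1, 67)],
  [(1, 13), (1, 41), (-1, 68), (-1, 69), (-1, 70)],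
  [(1, 22), (1, 32), (-1, 71), (-1, 72), (-1, 73)],
  [(1, 23), (1, 42), (-1, 74), (-1, 75), (-1, 76)],
  [(1, 33), (1, 43), (-1, 77), (-1, 78), (-1, 79)],
  [(1, 4), (1, 14), (1, 24), (1, 34), (1, 44), (1, 50), (1, 59), (1, 62), (1, 71), (1, 77)],
  [(1, 5), (1, 15), (1, 25), (1, 35), (1, 45), (1, 51), (1, 53), (1, 65), (1, 74), (1, 78)],
  [(1, 6), (1, 16), (1, 26), (1, 36), (1, 46), (1, 52), (1, 56), (1, 68), (1, 72), (1, 75)],
  [(1, 7), (1, 17), (1, 27), (1, 37), (1, 47), (1, 54), (1, 57), (1, 63), (1, 69), (1, 79)],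
  [(1, 8), (1, 18), (1, 28), (1, 38), (1, 48), (1, 55), (1, 60), (1, 66), (1, 70), (1, 73)]]

/-- the boundary in degree 1 -/
def gD11 : List LC := [[(1, 9), (1, 19), (1, 29), (1, 39), (1, 49), (1, 58), (1, 61), (1, 64), (1, 67), (1, 76)]]

/-- the boundary in degree 1 -/
def gD1 : List LC := gD10 ++ gD11

/-- the contraction in degree 1 -/
def gH10 : List LC := [[(1, 1), (1, 5)],
  [(1, 2), (1, 6)],
  [(1, 3), (1, 7)],
  [(1, 4), (1, 8)],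
  [(1, 15)],
  [(1, 10), (1, 13), (1, 14), (1, 16)],
  [(1, 11), (1, 12), (1, 17)],
  [(1, 9), (1, 18)],
  [(1, 19)],
  [(1, 20)],
  [(-1, 1)],
  [],
  [],
  [],
  [],
  [],
  [],
  [],
  [],
  []]

/-- the contraction in degree 1 -/
def gH11 : List LC := [[(-1, 2)],
  [],
  [],
  [],
  [],
  [],
  [],
  [],
  [],
  [],
  [(-1, 3)],
  [],
  [],
  [],
  [],
  [],
  [],
  [],
  [],
  []]

/-- the contraction in degree 1 -/
def gH12 : List LC := [[(-1, 4)],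
  [],
  [],
  [],
  [],
  [],
  [],
  [],
  [],
  [],
  [],
  [],
  [],
  [],
  [],
  [],
  [],
  [],
  [],
  []]

/-- the contraction in degree 1 -/
def gH13 : List LC := [[],
  [],
  [],
  [(-1, 9)],
  [],
  [(-1, 10)],
  [],
  [],
  [(-1, 11)],
  [],
  [],
  [],
  [(-1, 12)],
  [],
  [(-1, 13)],
  [],
  [],
  [],
  [(-1, 14)],
  []]

/-- the contraction in degree 1 -/
def gH1 : List LC := gH10 ++ gH11 ++ gH12 ++ gH13

/-- the holonomy, encoded -/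
def gG : List (List ℕ) := [[18056, 0, 0, 0, 0, 18056, 18056, 18056, 18056, 0, 0, 0, 0, 0, 0, 18056, 18056, 18056, 18056, 18056, 18056],
  [0, 18056, 0, 0, 0, 18056, 0, 0, 0, 18056, 18056, 18056, 0, 0, 0, 18056, 18056, 18056, 2257, 5148, 13058],
  [0, 0, 18056, 0, 0, 0, 18056, 0, 0, 13380, 0, 0, 18056, 18056, 0, 13380, 18056, 6163, 18056, 18056, 8417],
  [0, 0, 0, 18056, 0, 0, 0, 18056, 0, 0, 10265, 0, 12386, 0, 18056, 787, 10265, 18056, 18056, 12386, 18056],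
  [0, 0, 0, 0, 18056, 0, 0, 0, 18056, 0, 0, 738, 0, 5379, 8284, 18056, 5379, 738, 8284, 18056, 18056],
  [18056, 18056, 0, 0, 0, 18056, 0, 0, 0, 0, 0, 0, 0, 0, 0, 18056, 18056, 18056, 0, 0, 0],
  [18056, 0, 18056, 0, 0, 0, 18056, 0, 0, 0, 0, 0, 0, 0, 0, 0, 18056, 0, 18056, 18056, 0],
  [18056, 0, 0, 18056, 0, 0, 0, 18056, 0, 0, 0, 0, 0, 0, 0, 0, 0, 18056, 18056, 0, 18056],
  [18056, 0, 0, 0, 18056, 0, 0, 0, 18056, 0, 0, 0, 0, 0, 0, 18056, 0, 0, 0, 18056, 18056],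
  [0, 18056, 2257, 0, 0, 0, 0, 0, 0, 18056, 0, 0, 0, 0, 0, 18056, 0, 0, 2257, 0, 13058],
  [0, 18056, 0, 13058, 0, 0, 0, 0, 0, 0, 18056, 0, 0, 0, 0, 0, 18056, 0, 0, 5148, 13058],
  [0, 18056, 0, 0, 5148, 0, 0, 0, 0, 0, 0, 18056, 0, 0, 0, 0, 0, 18056, 2257, 5148, 0],
  [0, 0, 18056, 6163, 0, 0, 0, 0, 0, 0, 0, 0, 18056, 0, 0, 13380, 0, 6163, 0, 18056, 0],
  [0, 0, 18056, 0, 8417, 0, 0, 0, 0, 0, 0, 0, 0, 18056, 0, 0, 18056, 6163, 0, 0, 8417],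
  [0, 0, 0, 18056, 787, 0, 0, 0, 0, 0, 0, 0, 0, 0, 18056, 787, 10265, 0, 18056, 0, 0],
  [18056, 18056, 2257, 8284, 18056, 18056, 0, 0, 18056, 18056, 0, 0, 2257, 0, 8284, 18056, 0, 0, 0, 0, 0],
  [18056, 18056, 18056, 13058, 8417, 18056, 18056, 0, 0, 0, 18056, 0, 0, 18056, 13058, 0, 18056, 0, 0, 0, 0],
  [18056, 18056, 12386, 18056, 5148, 18056, 0, 18056, 0, 0, 0, 18056, 12386, 12386, 0, 0, 0, 18056, 0, 0, 0],
  [18056, 13380, 18056, 18056, 787, 0, 18056, 18056, 0, 13380, 0, 13380, 0, 0, 18056, 0, 0, 0, 18056, 0, 0],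
  [18056, 738, 18056, 6163, 18056, 0, 18056, 0, 18056, 0, 738, 738, 18056, 0, 0, 0, 0, 0, 0, 18056, 0],
  [18056, 10265, 5379, 18056, 18056, 0, 0, 18056, 18056, 10265, 10265, 0, 0, 5379, 0, 0, 0, 0, 0, 0, 18056]]

end Pool.Agent.Q121.HC
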