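import Pool.Agent.Q121.HC.Coset
import Pool.Agent.W304.DU.RG

/-!
# Relation modules of extensions by stable letters
-/

set_option autoImplicit false

namespace Pool.Agent.Q121.HC

open Pool.Agent.W326.DU Pool.Agent.Y66.HC

section

variable {H G κ μ : Type} [Group H] [Group G] [Fintype κ] [Fintype μ]

/-- the generating family of the extension -/
def gens (ι : H →* G) (y : κ → H) (t : μ → G) : κ ⊕ μ → G := Sum.elim (fun j => ι (y j)) t

theorem ext_fg (ι : H →* G) (hι : Function.Injective ι) (y : κ → H)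
    (t : μ → G) (C : μ → Finset G)
    (star : ∀ c : μ → ZG G, ∑ k, c k * (MonoidAlgebra.of ℤ G (t k) - 1) ∈
      IL ℤ (Set.range (fun j => ι (y j))) → ∀ k, c k ∈ IL ℤ (C k : Set G))
    (hC : ∀ k, ∀ h ∈ C k, (MonoidAlgebra.of ℤ G h - 1) * (MonoidAlgebra.of ℤ G (t k) - 1) ∈
      IL ℤ (Set.range (fun j => ι (y j))))
    (h : (RM y).FG) : (RM (gens ι y t)).FG := by
  classical
  -- lifts of the relations
  have hlift : ∀ k, ∀ h : G, h ∈ C k → ∃ a : κ → ZG G,
      fox (fun j => ι (y j)) a =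
        (MonoidAlgebra.of ℤ G h - 1) * (MonoidAlgebra.of ℤ G (t k) - 1) := by
    intro k h hh
    have := hC k h hh
    rw [← range_fox] at this
    exact this
  choose! a ha using hlift
  let r : μ → G → (κ ⊕ μ → ZG G) := fun k h =>
    Sum.elim (fun j => - a k h j) (Pi.single k (MonoidAlgebra.of ℤ G h - 1))
  have hfox : ∀ c : κ ⊕ μ → ZG G, fox (gens ι y t) c =
      fox (fun j => ι (y j)) (fun j => c (Sum.inl j)) +
        ∑ k, c (Sum.inr k) * (MonoidAlgebra.of ℤ G (t k) - 1) := by
    intro c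
    change ∑ i, c i * (MonoidAlgebra.of ℤ G (gens ι y t i) - 1) = _
    rw [Fintype.sum_sum_type]
    rfl
  have hsingle : ∀ (k : μ) (z : ZG G), ∑ l, (Pi.single k z : μ → ZG G) l *
      (MonoidAlgebra.of ℤ G (t l) - 1) = z * (MonoidAlgebra.of ℤ G (t k) - 1) := by
    intro k z
    rw [Finset.sum_eq_single k]
    · rw [Pi.single_eq_same]
    · intro l _ hl
      rw [Pi.single_eq_of_ne hl, zero_mul]
    · intro h; exact absurd (Finset.mem_univ _) h
  have hr : ∀ k, ∀ h ∈ C k, r k h ∈ RM (gens ι y t) := by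
    intro k h hh
    change fox (gens ι y t) (r k h) = 0
    rw [hfox]
    have e1 : (fun j => r k h (Sum.inl j)) = - a k h := rfl
    have e2 : ∀ l, r k h (Sum.inr l) =
      (Pi.single k (MonoidAlgebra.of ℤ G h - 1) : μ → ZG G) l := fun l => rfl
    simp only [e1, e2]
    rw [hsingle, map_neg, ha k h hh, neg_add_cancel]
  obtain ⟨s, hs⟩ := base_change_fg ι hι y h
  let inl : (κ → ZG G) →ₗ[ZG G] (κ ⊕ μ → ZG G) :=
    { toFun := fun b => Sum.elim b 0
      map_add' := fun b c => by
        ext1 i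
        cases i <;> simp
      map_smul' := fun b c => by
        ext1 i
        cases i <;> simp }
  have hinl : ∀ b ∈ RM (fun j => ι (y j)), inl b ∈ RM (gens ι y t) := by
    intro b hb
    change fox (gens ι y t) (inl b) = 0
    rw [hfox]
    have e1 : (fun j => inl b (Sum.inl j)) = b := rfl
    have e2 : ∀ l, inl b (Sum.inr l) = 0 := fun l => rfl
    simp only [e1, e2, zero_mul, Finset.sum_const_zero, add_zero]
    exact hb
  let T : Finset (κ ⊕ μ → ZG G) :=
    s.image inl ∪ Finset.univ.biUnion fun k => (C k).image (r k)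
  refine ⟨T, ?_⟩
  apply le_antisymm
  · refine Submodule.span_le.2 ?_
    intro z hz
    rcases Finset.mem_union.1 (Finset.mem_coe.1 hz) with hz | hz
    · obtain ⟨b, hb, rfl⟩ := Finset.mem_image.1 hz
      apply hinl
      rw [← hs]
      exact Submodule.subset_span hb
    · obtain ⟨k, -, hz⟩ := Finset.mem_biUnion.1 hz
      obtain ⟨h, hh, rfl⟩ := Finset.mem_image.1 hz
      exact hr k h hh
  · intro c hc
    have hc0 : fox (gens ι y t) c = 0 := hc
    rw [hfox] at hc0
    have h1 : ∑ k, c (Sum.inr k) * (MonoidAlgebra.of ℤ G (t k) - 1) ∈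
        IL ℤ (Set.range (fun j => ι (y j))) := by
      rw [← range_fox]
      refine ⟨-(fun j => c (Sum.inl j)), ?_⟩
      rw [map_neg]
      exact (eq_neg_of_add_eq_zero_right hc0).symm
    have h2 := star (fun k => c (Sum.inr k)) h1
    -- the part of `c` in the stable letters is a combination of the `r k h`
    have h3 : ∀ k, ∀ z ∈ IL ℤ (C k : Set G), ∃ u ∈ Submodule.span (ZG G) (T : Set (κ ⊕ μ → ZG G)),
        u ∈ RM (gens ι y t) ∧ ∀ l, u (Sum.inr l) = (Pi.single k z : μ → ZG G) l := by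
      intro k z hz
      unfold IL at hz
      induction hz using Submodule.span_induction with
      | mem z hz =>
        obtain ⟨h, hh, rfl⟩ := hz
        refine ⟨r k h, Submodule.subset_span ?_, hr k h hh, fun l => rfl⟩
        exact Finset.mem_coe.2 (Finset.mem_union.2 (Or.inr (Finset.mem_biUnion.2
          ⟨k, Finset.mem_univ _, Finset.mem_image.2 ⟨h, hh, rfl⟩⟩)))
      | zero =>
        refine ⟨0, Submodule.zero_mem _, Submodule.zero_mem _, fun l => ?_⟩
        rw [Pi.single_zero]
        rfl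
      | add z w _ _ hz hw =>
        obtain ⟨u, hu1, hu2, hu3⟩ := hz
        obtain ⟨v, hv1, hv2, hv3⟩ := hw
        refine ⟨u + v, Submodule.add_mem _ hu1 hv1, Submodule.add_mem _ hu2 hv2, fun l => ?_⟩
        rw [Pi.add_apply, hu3, hv3, Pi.single_add]
        rfl
      | smul b z _ hz =>
        obtain ⟨u, hu1, hu2, hu3⟩ := hz
        refine ⟨b • u, Submodule.smul_mem _ _ hu1, Submodule.smul_mem _ _ hu2, fun l => ?_⟩
        rw [Pi.smul_apply, hu3, Pi.single_smul]
        rfl
    choose u hu1 hu2 hu3 using fun k => h3 k (c (Sum.inr k)) (h2 k)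
    let d : κ ⊕ μ → ZG G := c - ∑ k, u k
    have hd1 : d ∈ RM (gens ι y t) := Submodule.sub_mem _ hc (Submodule.sum_mem _ fun k _ => hu2 k)
    have hd2 : ∀ l, d (Sum.inr l) = 0 := by
      intro l
      change c (Sum.inr l) - (∑ k, u k) (Sum.inr l) = 0
      rw [Finset.sum_apply]
      simp only [hu3]
      rw [Finset.sum_eq_single l]
      · rw [Pi.single_eq_same, sub_self]
      · intro k _ hk
        rw [Pi.single_eq_of_ne (Ne.symm hk)]
      · intro h; exact absurd (Finset.mem_univ _) h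
    have hd3 : (fun j => d (Sum.inl j)) ∈ RM (fun j => ι (y j)) := by
      have hd0 : fox (gens ι y t) d = 0 := hd1
      rw [hfox] at hd0
      simp only [hd2, zero_mul, Finset.sum_const_zero, add_zero] at hd0
      exact hd0
    have hd4 : d = inl (fun j => d (Sum.inl j)) := by
      ext1 i
      cases i with
      | inl j => rfl
      | inr l => exact hd2 l
    have hd5 : d ∈ Submodule.span (ZG G) (T : Set (κ ⊕ μ → ZG G)) := by
      rw [hd4]
      rw [← hs] at hd3
      have h6 := Submodule.mem_map_of_mem (f := inl) hd3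
      rw [Submodule.map_span] at h6
      refine Submodule.span_mono ?_ h6
      rintro _ ⟨b, hb, rfl⟩
      exact Finset.mem_coe.2 (Finset.mem_union.2 (Or.inl (Finset.mem_image.2 ⟨b, hb, rfl⟩)))
    have h7 : c = d + ∑ k, u k := by
      change c = c - ∑ k, u k + ∑ k, u k
      abel
    rw [h7]
    exact Submodule.add_mem _ hd5 (Submodule.sum_mem _ fun k _ => hu1 k)

end

/-! ### Free groups -/

section free

variable {V : Type} [Fintype V]

theorem exists_fox (v : V) : ∃ δ : FreeGroup V → ZG (FreeGroup V),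
    (∀ g h, δ (g * h) = MonoidAlgebra.of ℤ _ g • δ h + δ g) ∧
      δ (FreeGroup.of v) = 1 ∧ ∀ w, w ≠ v → δ (FreeGroup.of w) = 0 := by
  classical
  let F := FreeGroup V
  let act : F → Equiv.Perm (ZG F) := fun g => Pool.Agent.W304.DU.RG.A ℤ (ZG F) g
  let τ : V → Equiv.Perm (ZG F) := fun w =>
    Equiv.addRight (if w = v then (1 : ZG F) else 0) * act (FreeGroup.of w)
  let Ψ : F →* Equiv.Perm (ZG F) := FreeGroup.lift τ
  have hΨ : ∀ w, Ψ (FreeGroup.of w) = τ w := fun w => FreeGroup.lift_apply_of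
  have hτ : ∀ w x, τ w x = MonoidAlgebra.of ℤ F (FreeGroup.of w) • x +
      (if w = v then (1 : ZG F) else 0) := fun w x => rfl
  have haff := Pool.Agent.W304.DU.RG.affine (R := ℤ) Ψ (Set.range FreeGroup.of)
    (FreeGroup.closure_range_of V) (by
      rintro _ ⟨w, rfl⟩ x
      rw [hΨ, hτ, hτ, smul_zero, zero_add])
  refine ⟨fun g => Ψ g 0, ?_, ?_, ?_⟩
  · intro g h
    change Ψ (g * h) 0 = _
    rw [map_mul, Equiv.Perm.mul_apply, haff g (Ψ h 0)]
  · change Ψ (FreeGroup.of v) 0 = 1
    rw [hΨ, hτ, smul_zero, zero_add, if_pos rfl]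
  · intro w hw
    change Ψ (FreeGroup.of w) 0 = 0
    rw [hΨ, hτ, smul_zero, zero_add, if_neg hw]

theorem free_fox_inj (c : V → ZG (FreeGroup V))
    (hc : ∑ v, c v * (MonoidAlgebra.of ℤ _ (FreeGroup.of v) - 1) = 0) : c = 0 := by
  ext1 v
  obtain ⟨δ, h1, h2, h3⟩ := exists_fox v
  obtain ⟨D, hD⟩ := Pool.Agent.W335.DU.HN.crossed ℤ (ZG (FreeGroup V)) δ h1
  have h4 := congrArg D hc
  rw [map_sum, map_zero] at h4
  simp only [hD] at h4
  rw [Finset.sum_eq_single v] at h4
  · rw [h2, smul_eq_mul, mul_one] at h4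
    exact h4
  · intro w _ hw
    rw [h3 w hw, smul_zero]
  · intro h; exact absurd (Finset.mem_univ _) h

theorem free_RM : RM (FreeGroup.of : V → FreeGroup V) = ⊥ := by
  rw [eq_bot_iff]
  intro c hc
  exact free_fox_inj c hc

theorem free_fpc : FPc 2 (FreeGroup V) := by
  refine m2 (FreeGroup.of : V → FreeGroup V) (FreeGroup.closure_range_of V) ?_
  rw [free_RM]
  exact Submodule.fg_bot

end free

end Pool.Agent.Q121.HC
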