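import Pool.Agent.Q121.HC.Raag

/-!
# Normal forms and holonomy: the Bestvina-Brady group is not finitely presented
-/

set_option autoImplicit false

namespace Pool.Agent.Q121.HC

open Pool.Agent.W326.DU Pool.Agent.Y66.HC

section
variable {V : Type} (ad : V → V → Prop)

/-- equal or adjacent -/
def cl (u v : V) : Prop := u = v ∨ ad u v

/-- normal forms -/
structure IsNF (z : (ℕ × V) →₀ ℤ) : Prop where
  clq : ∀ i u v, z (i, u) ≠ 0 → z (i, v) ≠ 0 → cl ad u v
  nxt : ∀ i v, z (i + 1, v) ≠ 0 → ∃ u, z (i, u) ≠ 0 ∧ ¬ cl ad u v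

/-- the set of normal forms -/
def NF : Type := {z : (ℕ × V) →₀ ℤ // IsNF ad z}

theorem exists_idx (z : (ℕ × V) →₀ ℤ) (w : V) : ∃ i, ∀ j, i ≤ j → ∀ u, z (j, u) ≠ 0 → cl ad u w := by
  classical
  refine ⟨(z.support.sup fun p => p.1) + 1, fun j hj u hu => ?_⟩
  have h1 : (j, u) ∈ z.support := Finsupp.mem_support_iff.2 hu
  have h2 := Finset.le_sup (f := fun p : ℕ × V => p.1) h1
  simp only at h2
  omega

open Classical in
/-- the block where the letter `w` is inserted -/
noncomputable def idx (z : (ℕ × V) →₀ ℤ) (w : V) : ℕ := Nat.find (exists_idx ad z w)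

theorem idx_spec (z : (ℕ × V) →₀ ℤ) (w : V) (j : ℕ) (hj : idx ad z w ≤ j) (u : V)
    (hu : z (j, u) ≠ 0) : cl ad u w := by
  classical
  exact Nat.find_spec (exists_idx ad z w) j hj u hu

theorem idx_min (z : (ℕ × V) →₀ ℤ) (w : V) (i : ℕ)
    (h : ∀ j, i ≤ j → ∀ u, z (j, u) ≠ 0 → cl ad u w) : idx ad z w ≤ i := by
  classical
  exact Nat.find_min' (exists_idx ad z w) h

theorem idx_congr (z z' : (ℕ × V) →₀ ℤ) (w : V)
    (h : ∀ j u, ¬ cl ad u w → z (j, u) = z' (j, u)) : idx ad z w = idx ad z' w := by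
  apply le_antisymm
  · refine idx_min ad z w _ fun j hj u hu => ?_
    by_contra hc
    rw [h j u hc] at hu
    exact hc (idx_spec ad z' w j hj u hu)
  · refine idx_min ad z' w _ fun j hj u hu => ?_
    by_contra hc
    rw [← h j u hc] at hu
    exact hc (idx_spec ad z w j hj u hu)

/-- insertion of `k` letters `w` -/
noncomputable def act0 (w : V) (k : ℤ) (z : (ℕ × V) →₀ ℤ) : (ℕ × V) →₀ ℤ :=
  z + Finsupp.single (idx ad z w, w) k

theorem act0_ne (w : V) (k : ℤ) (z : (ℕ × V) →₀ ℤ) (j : ℕ) (u : V) (h : u ≠ w) :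
    act0 ad w k z (j, u) = z (j, u) := by
  unfold act0
  rw [Finsupp.add_apply, Finsupp.single_eq_of_ne, add_zero]
  intro h'
  exact h (by simpa using congrArg Prod.snd h')

theorem act0_ne' (w : V) (k : ℤ) (z : (ℕ × V) →₀ ℤ) (j : ℕ) (u : V) (h : j ≠ idx ad z w) :
    act0 ad w k z (j, u) = z (j, u) := by
  unfold act0
  rw [Finsupp.add_apply, Finsupp.single_eq_of_ne, add_zero]
  intro h'
  exact h (by simpa using congrArg Prod.fst h')

theorem cl_refl (u : V) : cl ad u u := Or.inl rfl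

variable (symm : ∀ a b, ad a b → ad b a)

include symm in
theorem cl_symm {u v : V} (h : cl ad u v) : cl ad v u := by
  rcases h with h | h
  · exact Or.inl h.symm
  · exact Or.inr (symm _ _ h)

theorem idx_act (w u : V) (h : cl ad w u) (k : ℤ) (z : (ℕ × V) →₀ ℤ) :
    idx ad (act0 ad w k z) u = idx ad z u := by
  apply idx_congr
  intro j x hx
  apply act0_ne
  rintro rfl
  exact hx h

include symm in
theorem isNF_act (w : V) (k : ℤ) (z : (ℕ × V) →₀ ℤ) (hz : IsNF ad z) : IsNF ad (act0 ad w k z) := by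
  constructor
  · intro i u v hu hv
    by_cases hi : i = idx ad z w
    · by_cases h1 : u = w
      · by_cases h2 : v = w
        · exact Or.inl (h1.trans h2.symm)
        · rw [act0_ne ad w k z i v h2] at hv
          rw [h1]
          exact cl_symm ad symm (idx_spec ad z w i hi.ge v hv)
      · rw [act0_ne ad w k z i u h1] at hu
        by_cases h2 : v = w
        · rw [h2]
          exact idx_spec ad z w i hi.ge u hu
        · rw [act0_ne ad w k z i v h2] at hv
          exact hz.clq i u v hu hv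
    · rw [act0_ne' ad w k z i _ hi] at hu hv
      exact hz.clq i u v hu hv
  · intro i v hv
    -- a letter of block `i + 1` of `z`
    have key : z (i + 1, v) ≠ 0 → ∃ u, act0 ad w k z (i, u) ≠ 0 ∧ ¬ cl ad u v := by
      intro hv
      obtain ⟨u, hu, huv⟩ := hz.nxt i v hv
      by_cases h1 : u = w
      · by_cases hi : i = idx ad z w
        · exfalso
          apply huv
          rw [h1]
          exact cl_symm ad symm (idx_spec ad z w (i + 1) (by omega) v hv)
        · exact ⟨u, by rw [act0_ne' ad w k z i u hi]; exact hu, huv⟩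
      · exact ⟨u, by rw [act0_ne ad w k z i u h1]; exact hu, huv⟩
    by_cases h2 : v = w
    · by_cases hi : i + 1 = idx ad z w
      · -- minimality of the index
        have : ¬ ∀ j, i ≤ j → ∀ u, z (j, u) ≠ 0 → cl ad u w := by
          intro h
          have := idx_min ad z w i h
          omega
        push Not at this
        obtain ⟨j, hj, u, hu, huw⟩ := this
        have hji : j = i := by
          by_contra hne
          exact huw (idx_spec ad z w j (by omega) u hu)
        rw [hji] at hu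
        refine ⟨u, ?_, by rw [h2]; exact huw⟩
        rw [act0_ne' ad w k z i u (by omega)]
        exact hu
      · rw [act0_ne' ad w k z (i + 1) v hi] at hv
        exact key hv
    · rw [act0_ne ad w k z (i + 1) v h2] at hv
      exact key hv

theorem act_act (w : V) (k l : ℤ) (z : (ℕ × V) →₀ ℤ) :
    act0 ad w k (act0 ad w l z) = act0 ad w (k + l) z := by
  have h := idx_act ad w w (cl_refl ad w) l z
  unfold act0 at h ⊢
  rw [h, add_assoc, ← Finsupp.single_add, add_comm l k]

theorem act_zero (w : V) (z : (ℕ × V) →₀ ℤ) : act0 ad w 0 z = z := by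
  unfold act0
  rw [Finsupp.single_zero, add_zero]

include symm in
theorem act_comm (u w : V) (h : cl ad u w) (k l : ℤ) (z : (ℕ × V) →₀ ℤ) :
    act0 ad u k (act0 ad w l z) = act0 ad w l (act0 ad u k z) := by
  have h1 := idx_act ad w u (cl_symm ad symm h) l z
  have h2 := idx_act ad u w h k z
  unfold act0 at h1 h2 ⊢
  rw [h1, h2]
  abel

/-- the height of a normal form -/
noncomputable def hz : ((ℕ × V) →₀ ℤ) →+ ℤ := Finsupp.liftAddHom (fun _ => AddMonoidHom.id ℤ)

theorem hz_act (w : V) (k : ℤ) (z : (ℕ × V) →₀ ℤ) : hz (act0 ad w k z) = hz z + k := by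
  unfold act0
  rw [map_add]
  congr 1
  unfold hz
  rw [Finsupp.liftAddHom_apply_single]
  rfl

theorem first_exists (z : (ℕ × V) →₀ ℤ) (hz : IsNF ad z) (h0 : z ≠ 0) : ∃ u, z (0, u) ≠ 0 := by
  have key : ∀ i u, z (i, u) ≠ 0 → ∃ u, z (0, u) ≠ 0 := by
    intro i
    induction i with
    | zero => intro u hu; exact ⟨u, hu⟩
    | succ i ih =>
      intro u hu
      obtain ⟨v, hv, -⟩ := hz.nxt i u hu
      exact ih v hv
  by_contra h
  apply h0
  ext ⟨i, u⟩
  by_contra hne
  exact h (key i u hne)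

open Classical in
/-- a letter of the first block -/
noncomputable def fst1 [Nonempty V] (z : (ℕ × V) →₀ ℤ) : V :=
  if h : ∃ u, z (0, u) ≠ 0 then h.choose else Classical.arbitrary V

theorem fst1_spec [Nonempty V] (z : (ℕ × V) →₀ ℤ) (hz : IsNF ad z) (h0 : z ≠ 0) :
    z (0, fst1 z) ≠ 0 := by
  have h := first_exists ad z hz h0
  unfold fst1
  rw [dif_pos h]
  exact h.choose_spec

/-- the letters which may be in the first block after inserting `u` and `w` -/
def Fs (z : (ℕ × V) →₀ ℤ) (u w a : V) : Prop :=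
  z (0, a) ≠ 0 ∨ (a = u ∧ idx ad z u = 0) ∨ (a = w ∧ idx ad z w = 0)

include symm in
theorem Fs_cl (z : (ℕ × V) →₀ ℤ) (hz : IsNF ad z) (u w : V) (huw : cl ad u w) (a b : V)
    (ha : Fs ad z u w a) (hb : Fs ad z u w b) : cl ad a b := by
  rcases ha with ha | ⟨rfl, ha⟩ | ⟨rfl, ha⟩
  · rcases hb with hb | ⟨rfl, hb⟩ | ⟨rfl, hb⟩
    · exact hz.clq 0 a b ha hb
    · exact idx_spec ad z b 0 hb.le a ha
    · exact idx_spec ad z b 0 hb.le a ha
  · rcases hb with hb | ⟨rfl, hb⟩ | ⟨rfl, hb⟩
    · exact cl_symm ad symm (idx_spec ad z a 0 ha.le b hb)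
    · exact cl_refl ad _
    · exact huw
  · rcases hb with hb | ⟨rfl, hb⟩ | ⟨rfl, hb⟩
    · exact cl_symm ad symm (idx_spec ad z a 0 ha.le b hb)
    · exact cl_symm ad symm huw
    · exact cl_refl ad _

theorem act_first (u : V) (k : ℤ) (z : (ℕ × V) →₀ ℤ) (a : V) (h : act0 ad u k z (0, a) ≠ 0) :
    z (0, a) ≠ 0 ∨ (a = u ∧ idx ad z u = 0) := by
  by_cases h1 : a = u
  · by_cases h2 : idx ad z u = 0
    · exact Or.inr ⟨h1, h2⟩
    · rw [act0_ne' ad u k z 0 a (fun h => h2 h.symm)] at h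
      exact Or.inl h
  · rw [act0_ne ad u k z 0 a h1] at h
    exact Or.inl h

theorem perm_apply_inv {α : Type} (e : Equiv.Perm α) (x : α) : e (e⁻¹ x) = x := by
  rw [← Equiv.Perm.mul_apply, mul_inv_cancel, Equiv.Perm.one_apply]

section hol

variable [Nonempty V] {J : Type} [Group J] (γ : V → V → J)
  (coc : ∀ u v w, cl ad u v → cl ad v w → cl ad u w → γ u v * γ v w = γ u w)

open Classical in
/-- the holonomy of an edge -/
noncomputable def cc (w : V) (z : (ℕ × V) →₀ ℤ) : J :=
  if z = 0 ∨ act0 ad w 1 z = 0 then 1 else γ (fst1 (act0 ad w 1 z)) (fst1 z)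

include symm in
/-- the permutation of the covering -/
noncomputable def sig (w : V) : Equiv.Perm (NF ad × J) where
  toFun y := (⟨act0 ad w 1 y.1.1, isNF_act ad symm w 1 _ y.1.2⟩, cc ad γ w y.1.1 * y.2)
  invFun y := (⟨act0 ad w (-1) y.1.1, isNF_act ad symm w (-1) _ y.1.2⟩,
    (cc ad γ w (act0 ad w (-1) y.1.1))⁻¹ * y.2)
  left_inv y := by
    refine Prod.ext (Subtype.ext ?_) ?_
    · change act0 ad w (-1) (act0 ad w 1 y.1.1) = y.1.1
      rw [act_act, neg_add_cancel, act_zero]
    · change (cc ad γ w (act0 ad w (-1) (act0 ad w 1 y.1.1)))⁻¹ * (cc ad γ w y.1.1 * y.2) = y.2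
      rw [act_act, neg_add_cancel, act_zero, inv_mul_cancel_left]
  right_inv y := by
    refine Prod.ext (Subtype.ext ?_) ?_
    · change act0 ad w 1 (act0 ad w (-1) y.1.1) = y.1.1
      rw [act_act, add_neg_cancel, act_zero]
    · change cc ad γ w (act0 ad w (-1) y.1.1) * ((cc ad γ w (act0 ad w (-1) y.1.1))⁻¹ * y.2) = y.2
      rw [mul_inv_cancel_left]

/-- the level -/
noncomputable def lvl (y : NF ad × J) : ℤ := hz y.1.1

include coc in
theorem sig_comm (u w : V) (huw : cl ad u w) (y : NF ad × J) (h : 3 ≤ |lvl ad y|) :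
    sig ad symm γ u (sig ad symm γ w y) = sig ad symm γ w (sig ad symm γ u y) := by
  obtain ⟨⟨z, hzn⟩, j⟩ := y
  have hl : 3 ≤ |hz z| := h
  have n0 : z ≠ 0 := by
    rintro rfl
    rw [map_zero] at hl
    simp at hl
  have hne : ∀ z' : (ℕ × V) →₀ ℤ, hz z' = hz z + 1 ∨ hz z' = hz z + 1 + 1 → z' ≠ 0 := by
    rintro z' hz' rfl
    rw [map_zero] at hz'
    rcases abs_cases (hz z) with h1 | h1 <;> omega
  have n1 : act0 ad w 1 z ≠ 0 := hne _ (Or.inl (hz_act ad w 1 z))
  have n2 : act0 ad u 1 z ≠ 0 := hne _ (Or.inl (hz_act ad u 1 z))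
  have n3 : act0 ad u 1 (act0 ad w 1 z) ≠ 0 := hne _ (Or.inr (by rw [hz_act, hz_act]))
  have n4 : act0 ad w 1 (act0 ad u 1 z) ≠ 0 := by rw [← act_comm ad symm u w huw]; exact n3
  have i1 := isNF_act ad symm w 1 z hzn
  have i2 := isNF_act ad symm u 1 z hzn
  have i3 := isNF_act ad symm u 1 _ i1
  have f0 : Fs ad z u w (fst1 z) := Or.inl (fst1_spec ad z hzn n0)
  have f1 : Fs ad z u w (fst1 (act0 ad w 1 z)) := by
    rcases act_first ad w 1 z _ (fst1_spec ad _ i1 n1) with h | h
    · exact Or.inl h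
    · exact Or.inr (Or.inr h)
  have f2 : Fs ad z u w (fst1 (act0 ad u 1 z)) := by
    rcases act_first ad u 1 z _ (fst1_spec ad _ i2 n2) with h | h
    · exact Or.inl h
    · exact Or.inr (Or.inl h)
  have f3 : Fs ad z u w (fst1 (act0 ad u 1 (act0 ad w 1 z))) := by
    rcases act_first ad u 1 _ _ (fst1_spec ad _ i3 n3) with h | h
    · rcases act_first ad w 1 z _ h with h | h
      · exact Or.inl h
      · exact Or.inr (Or.inr h)
    · rw [idx_act ad w u (cl_symm ad symm huw)] at h
      exact Or.inr (Or.inl h)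
  have K := Fs_cl ad symm z hzn u w huw
  refine Prod.ext (Subtype.ext (act_comm ad symm u w huw 1 1 z)) ?_
  change cc ad γ u (act0 ad w 1 z) * (cc ad γ w z * j) =
    cc ad γ w (act0 ad u 1 z) * (cc ad γ u z * j)
  rw [← mul_assoc, ← mul_assoc]
  congr 1
  unfold cc
  rw [if_neg (not_or.2 ⟨n1, n3⟩), if_neg (not_or.2 ⟨n0, n1⟩), if_neg (not_or.2 ⟨n2, n4⟩),
    if_neg (not_or.2 ⟨n0, n2⟩), coc _ _ _ (K _ _ f3 f1) (K _ _ f1 f0) (K _ _ f3 f0),
    ← act_comm ad symm u w huw, coc _ _ _ (K _ _ f3 f2) (K _ _ f2 f0) (K _ _ f3 f0)]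

/-- the action of the free group -/
noncomputable def Phi : FreeGroup V →* Equiv.Perm (NF ad × J) :=
  FreeGroup.lift (sig ad symm γ)

theorem Phi_of (v : V) : Phi ad symm γ (FreeGroup.of v) = sig ad symm γ v :=
  FreeGroup.lift_apply_of

omit [Nonempty V] in
/-- the exponent sum -/
noncomputable def hF : FreeGroup V →* Multiplicative ℤ :=
  FreeGroup.lift (fun _ => Multiplicative.ofAdd (1 : ℤ))

omit [Nonempty V] in
theorem hF_of (v : V) : hF (FreeGroup.of v) = Multiplicative.ofAdd (1 : ℤ) :=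
  FreeGroup.lift_apply_of

theorem lvl_sig (w : V) (y : NF ad × J) : lvl ad (sig ad symm γ w y) = lvl ad y + 1 :=
  hz_act ad w 1 _

theorem lvl_sig_inv (w : V) (y : NF ad × J) :
    lvl ad ((sig ad symm γ w)⁻¹ y) = lvl ad y - 1 := by
  have h := lvl_sig ad symm γ w ((sig ad symm γ w)⁻¹ y)
  rw [perm_apply_inv] at h
  omega

theorem lvl_Phi (g : FreeGroup V) (y : NF ad × J) :
    lvl ad (Phi ad symm γ g y) = lvl ad y + (hF g).toAdd := by
  induction g using FreeGroup.induction_on generalizing y with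
  | C1 => simp
  | of v => rw [Phi_of, lvl_sig, hF_of]; rfl
  | inv_of v _ =>
    rw [map_inv, Phi_of, lvl_sig_inv, map_inv, hF_of]
    rfl
  | mul g h ihg ihh =>
    rw [map_mul, Equiv.Perm.mul_apply, ihg, ihh, map_mul, toAdd_mul]
    ring

include coc in
theorem Phi_rel (g : FreeGroup V) (hg : PresentedGroup.mk (rels ad) g = 1) :
    ∃ N : ℕ, ∀ y, (N : ℤ) ≤ |lvl ad y| → Phi ad symm γ g y = y := by
  let S : Subgroup (FreeGroup V) :=
    { carrier := {g | ∃ N : ℕ, ∀ y, (N : ℤ) ≤ |lvl ad y| → Phi ad symm γ g y = y}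
      one_mem' := ⟨0, fun y _ => by simp⟩
      mul_mem' := by
        rintro a b ⟨N, hN⟩ ⟨K, hK⟩
        refine ⟨max N K, fun y hy => ?_⟩
        rw [map_mul, Equiv.Perm.mul_apply, hK y (by push_cast at hy; omega),
          hN y (by push_cast at hy; omega)]
      inv_mem' := by
        rintro a ⟨N, hN⟩
        refine ⟨N, fun y hy => ?_⟩
        rw [map_inv, Equiv.Perm.inv_eq_iff_eq]
        exact (hN y hy).symm }
  have hS : S.Normal := by
    constructor
    rintro a ⟨N, hN⟩ b
    refine ⟨N + (hF b).toAdd.natAbs, fun y hy => ?_⟩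
    have h1 : lvl ad (Phi ad symm γ b⁻¹ y) = lvl ad y - (hF b).toAdd := by
      rw [lvl_Phi, map_inv]
      rfl
    rw [map_mul, map_mul, Equiv.Perm.mul_apply, Equiv.Perm.mul_apply, hN, ← Equiv.Perm.mul_apply,
      ← map_mul, mul_inv_cancel, map_one, Equiv.Perm.one_apply]
    rw [h1]
    push_cast at hy
    rcases abs_cases (lvl ad y) with h2 | h2 <;>
    rcases abs_cases (lvl ad y - (hF b).toAdd) with h3 | h3 <;>
    rcases abs_cases ((hF b).toAdd) with h4 | h4 <;> omega
  have hle : Subgroup.normalClosure (rels ad) ≤ S := by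
    apply Subgroup.normalClosure_le_normal
    rintro _ ⟨a, b, hab, rfl⟩
    refine ⟨5, fun y hy => ?_⟩
    rw [map_mul, map_mul, map_mul, map_inv, map_inv, Phi_of, Phi_of]
    simp only [Equiv.Perm.mul_apply]
    rw [sig_comm ad symm γ coc a b (Or.inr hab), perm_apply_inv,
      perm_apply_inv]
    rw [lvl_sig_inv, lvl_sig_inv]
    push_cast at hy
    rcases abs_cases (lvl ad y) with h2 | h2 <;>
    rcases abs_cases (lvl ad y - 1 - 1) with h3 | h3 <;> omega
  exact hle ((QuotientGroup.eq_one_iff _).1 hg)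

/-! ### The generators of the Bestvina-Brady group -/

variable (t : V)

/-- `v ↦ v t⁻¹` -/
noncomputable def theta : FreeGroup V →* FreeGroup V :=
  FreeGroup.lift (fun v => FreeGroup.of v * (FreeGroup.of t)⁻¹)

omit [Nonempty V] in
theorem theta_of (v : V) : theta t (FreeGroup.of v) = FreeGroup.of v * (FreeGroup.of t)⁻¹ :=
  FreeGroup.lift_apply_of

omit [Nonempty V] in
theorem hF_theta (g : FreeGroup V) : hF (theta t g) = 1 := by
  have h : (hF (V := V)).comp (theta t) = 1 := by
    ext v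
    change hF (theta t (FreeGroup.of v)) = 1
    rw [theta_of, map_mul, map_inv, hF_of, hF_of, mul_inv_cancel]
  exact DFunLike.congr_fun h g

theorem lvl_theta (g : FreeGroup V) (y : NF ad × J) :
    lvl ad (Phi ad symm γ (theta t g) y) = lvl ad y := by
  rw [lvl_Phi, hF_theta]
  simp

include coc in
theorem Phi_eq (f f' : FreeGroup V)
    (h : PresentedGroup.mk (rels ad) (theta t f) = PresentedGroup.mk (rels ad) (theta t f')) :
    ∃ N : ℕ, ∀ y, (N : ℤ) ≤ |lvl ad y| →
      Phi ad symm γ (theta t f) y = Phi ad symm γ (theta t f') y := by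
  obtain ⟨N, hN⟩ := Phi_rel ad symm γ coc (theta t f * (theta t f')⁻¹) (by
    rw [map_mul, map_inv, h, mul_inv_cancel])
  refine ⟨N, fun y hy => ?_⟩
  have h1 := hN (Phi ad symm γ (theta t f') y) (by rw [lvl_theta]; exact hy)
  rw [← Equiv.Perm.mul_apply, ← map_mul, inv_mul_cancel_right] at h1
  exact h1

/-! ### The long cycles -/

/-- the word of an edge -/
def ew (u v : V) : FreeGroup V := FreeGroup.of v * (FreeGroup.of u)⁻¹

omit [Nonempty V] in
theorem theta_ew (u v : V) : theta t (ew u v) = ew u v := by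
  unfold ew
  rw [map_mul, map_inv, theta_of, theta_of, mul_inv_rev, inv_inv, mul_assoc, inv_mul_cancel_left]

theorem idx_zero (w : V) : idx ad 0 w = 0 := by
  have := idx_min ad 0 w 0 (fun j _ u hu => absurd rfl hu)
  omega

/-- the points of the flat spanned by `u` and `v` -/
noncomputable def zz (u v : V) (a b : ℤ) : (ℕ × V) →₀ ℤ := act0 ad v a (act0 ad u b 0)

theorem isNF_zero : IsNF ad 0 where
  clq i u v hu := absurd rfl hu
  nxt i v hv := absurd rfl hv

include symm in
theorem zz_nf (u v : V) (a b : ℤ) : IsNF ad (zz ad u v a b) :=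
  isNF_act ad symm v a _ (isNF_act ad symm u b _ (isNF_zero ad))

theorem zz_h (u v : V) (a b : ℤ) : hz (zz ad u v a b) = b + a := by
  unfold zz
  rw [hz_act, hz_act, map_zero, zero_add]

theorem zz_first (u v : V) (a b : ℤ) (x : V) (h : zz ad u v a b (0, x) ≠ 0) : x = u ∨ x = v := by
  rcases act_first ad v a _ x h with h | h
  · rcases act_first ad u b _ x h with h | h
    · exact absurd rfl h
    · exact Or.inl h.1
  · exact Or.inr h.1

include coc in
theorem gam_self (u : V) : γ u u = 1 := by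
  have := coc u u u (cl_refl ad u) (cl_refl ad u) (cl_refl ad u)
  exact mul_eq_left.1 this

include coc symm in
theorem gam_inv (u v : V) (h : cl ad u v) : (γ u v)⁻¹ = γ v u := by
  have := coc u v u h (cl_symm ad symm h) (cl_refl ad u)
  rw [gam_self ad γ coc] at this
  exact inv_eq_of_mul_eq_one_right this

include coc in
theorem edge_step (u v : V) (huv : cl ad u v) (M : ℕ) (hM : 2 ≤ M) (j : J) (i : ℕ) (hi : i ≤ M) :
    ((Phi ad symm γ (ew u v ^ i)) (⟨zz ad u v 0 M, zz_nf ad symm u v 0 M⟩, j)) =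
      (⟨zz ad u v i ((M : ℤ) - i), zz_nf ad symm u v i ((M : ℤ) - i)⟩,
        γ (fst1 (zz ad u v i ((M : ℤ) - i))) u * j) := by
  have cuv : ∀ x y, (x = u ∨ x = v) → (y = u ∨ y = v) → cl ad x y := by
    rintro x y (rfl | rfl) (rfl | rfl)
    · exact cl_refl ad _
    · exact huv
    · exact cl_symm ad symm huv
    · exact cl_refl ad _
  have hne : ∀ a b : ℤ, b + a ≠ 0 → zz ad u v a b ≠ 0 := by
    intro a b hab h
    have := zz_h ad u v a b
    rw [h, map_zero] at this
    exact hab this.symm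
  have hf : ∀ a b : ℤ, b + a ≠ 0 → (fst1 (zz ad u v a b) = u ∨ fst1 (zz ad u v a b) = v) := by
    intro a b hab
    exact zz_first ad u v a b _ (fst1_spec ad _ (zz_nf ad symm u v a b) (hne a b hab))
  induction i with
  | zero =>
    rw [pow_zero, map_one, Equiv.Perm.one_apply]
    have h1 : fst1 (zz ad u v 0 (M : ℤ)) = u := by
      have h2 := fst1_spec ad _ (zz_nf ad symm u v 0 M) (hne 0 M (by omega))
      unfold zz at h2
      rw [act_zero] at h2
      rcases act_first ad u (M : ℤ) 0 _ h2 with h | h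
      · exact absurd rfl h
      · unfold zz
        rw [act_zero]
        exact h.1
    simp only [Nat.cast_zero, sub_zero]
    rw [h1, gam_self ad γ coc, one_mul]
  | succ i ih =>
    rw [pow_succ', map_mul, Equiv.Perm.mul_apply, ih (by omega)]
    unfold ew
    rw [map_mul, map_inv, Phi_of, Phi_of, Equiv.Perm.mul_apply]
    have e1 : act0 ad u (-1) (zz ad u v i ((M : ℤ) - i)) = zz ad u v i ((M : ℤ) - (i + 1 : ℕ)) := by
      unfold zz
      rw [act_comm ad symm u v huv, act_act]
      congr 2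
      push_cast
      ring
    have e2 : act0 ad v 1 (zz ad u v i ((M : ℤ) - (i + 1 : ℕ))) =
        zz ad u v (i + 1 : ℕ) ((M : ℤ) - (i + 1 : ℕ)) := by
      unfold zz
      rw [act_act]
      congr 1
      push_cast
      ring
    have e3 : act0 ad u 1 (zz ad u v i ((M : ℤ) - (i + 1 : ℕ))) = zz ad u v i ((M : ℤ) - i) := by
      rw [← e1, act_act, add_neg_cancel, act_zero]
    have a1 : (M : ℤ) - (i : ℤ) + i ≠ 0 := by omega
    have a2 : (M : ℤ) - ((i + 1 : ℕ) : ℤ) + i ≠ 0 := by push_cast; omega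
    have a3 : (M : ℤ) - ((i + 1 : ℕ) : ℤ) + ((i + 1 : ℕ) : ℤ) ≠ 0 := by push_cast; omega
    refine Prod.ext (Subtype.ext ?_) ?_
    · change act0 ad v 1 (act0 ad u (-1) (zz ad u v i ((M : ℤ) - i))) = _
      rw [e1, e2]
    · change cc ad γ v (act0 ad u (-1) (zz ad u v i ((M : ℤ) - i))) *
        ((cc ad γ u (act0 ad u (-1) (zz ad u v i ((M : ℤ) - i))))⁻¹ *
          (γ (fst1 (zz ad u v i ((M : ℤ) - i))) u * j)) = _
      rw [e1]
      have c1 : cc ad γ v (zz ad u v i ((M : ℤ) - (i + 1 : ℕ))) =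
          γ (fst1 (zz ad u v (i + 1 : ℕ) ((M : ℤ) - (i + 1 : ℕ))))
            (fst1 (zz ad u v i ((M : ℤ) - (i + 1 : ℕ)))) := by
        unfold cc
        rw [e2, if_neg (not_or.2 ⟨hne _ _ a2, hne _ _ a3⟩)]
      have c2 : cc ad γ u (zz ad u v i ((M : ℤ) - (i + 1 : ℕ))) =
          γ (fst1 (zz ad u v i ((M : ℤ) - i)))
            (fst1 (zz ad u v i ((M : ℤ) - (i + 1 : ℕ)))) := by
        unfold cc
        rw [e3, if_neg (not_or.2 ⟨hne _ _ a2, hne _ _ a1⟩)]
      have hu : u = u ∨ u = v := Or.inl rfl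
      rw [c1, c2, gam_inv ad symm γ coc _ _ (cuv _ _ (hf _ _ a1) (hf _ _ a2)), ← mul_assoc,
        ← mul_assoc, coc _ _ _ (cuv _ _ (hf _ _ a3) (hf _ _ a2)) (cuv _ _ (hf _ _ a2) (hf _ _ a1))
          (cuv _ _ (hf _ _ a3) (hf _ _ a1)),
        coc _ _ _ (cuv _ _ (hf _ _ a3) (hf _ _ a1)) (cuv _ _ (hf _ _ a1) hu)
          (cuv _ _ (hf _ _ a3) hu)]

/-- the starting point -/
noncomputable def pt (u : V) (M : ℕ) : NF ad := ⟨act0 ad u M 0, isNF_act ad symm u M _ (isNF_zero ad)⟩

include coc in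
theorem edge_full (u v : V) (huv : cl ad u v) (M : ℕ) (hM : 2 ≤ M) (j : J) :
    (Phi ad symm γ (ew u v ^ M)) (pt ad symm u M, j) = (pt ad symm v M, γ v u * j) := by
  have h := edge_step ad symm γ coc u v huv M hM j M le_rfl
  have e1 : zz ad u v 0 (M : ℤ) = act0 ad u M 0 := by
    unfold zz
    rw [act_zero]
  have e2 : zz ad u v M ((M : ℤ) - M) = act0 ad v M 0 := by
    unfold zz
    rw [sub_self, act_zero]
  have e3 : fst1 (act0 ad v M 0) = v := by
    have h1 : act0 ad v (M : ℤ) 0 ≠ 0 := by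
      intro h0
      have := hz_act ad v (M : ℤ) 0
      rw [h0, map_zero] at this
      omega
    rcases act_first ad v (M : ℤ) 0 _
      (fst1_spec ad _ (isNF_act ad symm v M _ (isNF_zero ad)) h1) with h | h
    · exact absurd rfl h
    · exact h.1
  have l1 : (⟨zz ad u v 0 M, zz_nf ad symm u v 0 M⟩ : NF ad) = pt ad symm u M := Subtype.ext e1
  have l2 : (⟨zz ad u v M ((M : ℤ) - M), zz_nf ad symm u v M ((M : ℤ) - M)⟩ : NF ad) =
    pt ad symm v M := Subtype.ext e2
  rw [l1, l2, e2, e3] at h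
  exact h

/-- the words of the long cycles -/
def lw (p : ℕ → V) (M : ℕ) : ℕ → FreeGroup V
  | 0 => 1
  | k + 1 => ew (p k) (p (k + 1)) ^ M * lw p M k

omit [Nonempty V] in
theorem theta_lw (p : ℕ → V) (M k : ℕ) : theta t (lw p M k) = lw p M k := by
  induction k with
  | zero => exact map_one _
  | succ k ih =>
    change theta t (ew (p k) (p (k + 1)) ^ M * lw p M k) = ew (p k) (p (k + 1)) ^ M * lw p M k
    rw [map_mul, map_pow, theta_ew, ih]

omit [Nonempty V] in
theorem mk_lw (p : ℕ → V) (M l : ℕ) (hp : ∀ i < l, ad (p i) (p (i + 1))) (k : ℕ) (hk : k ≤ l) :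
    PresentedGroup.mk (rels ad) (lw p M k) = gen ad (p k) ^ M * (gen ad (p 0) ^ M)⁻¹ := by
  induction k with
  | zero =>
    change PresentedGroup.mk (rels ad) 1 = _
    rw [map_one, mul_inv_cancel]
  | succ k ih =>
    change PresentedGroup.mk (rels ad) (ew (p k) (p (k + 1)) ^ M * lw p M k) = _
    rw [map_mul, map_pow, ih (by omega)]
    have e1 : PresentedGroup.mk (rels ad) (ew (p k) (p (k + 1))) =
        gen ad (p (k + 1)) * (gen ad (p k))⁻¹ := by
      unfold ew
      rw [map_mul, map_inv]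
      rfl
    have hc : Commute (gen ad (p (k + 1))) (gen ad (p k))⁻¹ := by
      have : Commute (gen ad (p k)) (gen ad (p (k + 1))) := gen_comm ad (hp k (by omega))
      exact this.symm.inv_right
    rw [e1, hc.mul_pow, inv_pow]
    group

include coc in
theorem Phi_lw (p : ℕ → V) (M l : ℕ) (hM : 2 ≤ M) (hp : ∀ i < l, ad (p i) (p (i + 1))) (k : ℕ)
    (hk : k ≤ l) :
    (Phi ad symm γ (lw p M k)) (pt ad symm (p 0) M, (1 : J)) =
      (pt ad symm (p k) M, (((List.range k).map (fun i => γ (p i) (p (i + 1)))).prod)⁻¹) := by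
  induction k with
  | zero =>
    change (Phi ad symm γ 1) _ = _
    rw [map_one]
    simp
  | succ k ih =>
    change (Phi ad symm γ (ew (p k) (p (k + 1)) ^ M * lw p M k)) _ = _
    rw [map_mul, Equiv.Perm.mul_apply, ih (by omega),
      edge_full ad symm γ coc (p k) (p (k + 1)) (Or.inr (hp k (by omega))) M hM,
      List.range_succ, List.map_append, List.prod_append, mul_inv_rev]
    simp only [List.map_cons, List.map_nil, List.prod_cons, List.prod_nil, mul_one]
    rw [gam_inv ad symm γ coc _ _ (Or.inr (hp k (by omega)))]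

include coc in
/-- relations of the Bestvina-Brady group which only hold at high level -/
theorem exists_long (p : ℕ → V) (l : ℕ) (hp : ∀ i < l, ad (p i) (p (i + 1))) (hcl : p l = p 0)
    (hol : ((List.range l).map (fun i => γ (p i) (p (i + 1)))).prod ≠ 1) (M : ℕ) (hM : 2 ≤ M) :
    ∃ f : FreeGroup V, PresentedGroup.mk (rels ad) (theta t f) = 1 ∧
      ∃ y : NF ad × J, lvl ad y = M ∧ Phi ad symm γ (theta t f) y ≠ y := by
  refine ⟨lw p M l, ?_, (pt ad symm (p 0) M, 1), ?_, ?_⟩
  · rw [theta_lw, mk_lw ad p M l hp l le_rfl, hcl, mul_inv_cancel]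
  · change hz (act0 ad (p 0) M 0) = M
    rw [hz_act, map_zero, zero_add]
  · rw [theta_lw, Phi_lw ad symm γ coc p M l hM hp l le_rfl]
    intro h
    have := congrArg Prod.snd h
    exact hol (inv_eq_one.1 this)

end hol

end

end Pool.Agent.Q121.HC
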