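import Pool.Agent.Q121.HC.QFP
import Pool.Agent.Q121.HC.Ext
import Pool.Agent.Q121.HC.NF

/-!
# The homological 1-2-3 conjecture fails
-/

set_option autoImplicit false

namespace Pool.Agent.Q121.HC

open Pool.Agent.W326.DU Pool.Agent.Y66.HC

/-! ### The Bestvina-Brady group is finitely generated -/

section bb
variable {V : Type} (ad : V → V → Prop) (t : V)

/-- the generators of the Bestvina-Brady group -/
noncomputable def xv (v : V) : BB ad :=
  ⟨gen ad v * (gen ad t)⁻¹, by
    rw [mem_BB, hgt_mul, hgt_inv, hgt_gen, hgt_gen]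
    ring⟩

theorem conj_mem (conn : ∀ a b, Relation.ReflTransGen ad a b) (v : V) :
    gen ad t * (gen ad v * (gen ad t)⁻¹) * (gen ad t)⁻¹ ∈
      Subgroup.closure (Set.range fun v => gen ad v * (gen ad t)⁻¹) ∧
    (gen ad t)⁻¹ * (gen ad v * (gen ad t)⁻¹) * gen ad t ∈
      Subgroup.closure (Set.range fun v => gen ad v * (gen ad t)⁻¹) := by
  set H := Subgroup.closure (Set.range fun v => gen ad v * (gen ad t)⁻¹)
  have hm : ∀ v, gen ad v * (gen ad t)⁻¹ ∈ H := fun v => Subgroup.subset_closure ⟨v, rfl⟩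
  induction conn t v with
  | refl => simp
  | @tail u w hu huw ih =>
    have hc : Commute (gen ad u) (gen ad w) := gen_comm ad huw
    have he : gen ad w * (gen ad u)⁻¹ ∈ H := by
      have := H.mul_mem (hm w) (H.inv_mem (hm u))
      simpa [mul_assoc] using this
    have hce : Commute (gen ad u) (gen ad w * (gen ad u)⁻¹) :=
      hc.mul_right (Commute.refl (gen ad u)).inv_right
    obtain ⟨i1, i2⟩ := ih
    constructor
    · -- `t e t⁻¹ = (t u⁻¹) e (t u⁻¹)⁻¹`
      have h1 : gen ad t * (gen ad w * (gen ad u)⁻¹) * (gen ad t)⁻¹ ∈ H := by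
        have h2 : gen ad t * (gen ad w * (gen ad u)⁻¹) * (gen ad t)⁻¹ =
            (gen ad u * (gen ad t)⁻¹)⁻¹ * (gen ad w * (gen ad u)⁻¹) *
              (gen ad u * (gen ad t)⁻¹) := by
          have h3 : (gen ad u)⁻¹ * (gen ad w * (gen ad u)⁻¹) * gen ad u =
            gen ad w * (gen ad u)⁻¹ := by
            rw [mul_assoc, ← hce.eq, inv_mul_cancel_left]
          calc gen ad t * (gen ad w * (gen ad u)⁻¹) * (gen ad t)⁻¹
              = gen ad t * ((gen ad u)⁻¹ * (gen ad w * (gen ad u)⁻¹) * gen ad u) *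
                (gen ad t)⁻¹ := by rw [h3]
            _ = _ := by group
        rw [h2]
        exact H.mul_mem (H.mul_mem (H.inv_mem (hm u)) he) (hm u)
      have h4 := H.mul_mem h1 i1
      have h5 : gen ad t * (gen ad w * (gen ad u)⁻¹) * (gen ad t)⁻¹ *
          (gen ad t * (gen ad u * (gen ad t)⁻¹) * (gen ad t)⁻¹) =
          gen ad t * (gen ad w * (gen ad t)⁻¹) * (gen ad t)⁻¹ := by group
      rwa [h5] at h4
    · have h1 : (gen ad t)⁻¹ * (gen ad w * (gen ad u)⁻¹) * gen ad t ∈ H := by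
        have h2 : (gen ad t)⁻¹ * (gen ad w * (gen ad u)⁻¹) * gen ad t =
            ((gen ad t)⁻¹ * (gen ad u * (gen ad t)⁻¹) * gen ad t) *
              (gen ad w * (gen ad u)⁻¹) *
              ((gen ad t)⁻¹ * (gen ad u * (gen ad t)⁻¹) * gen ad t)⁻¹ := by
          have h3 : gen ad u * (gen ad w * (gen ad u)⁻¹) * (gen ad u)⁻¹ =
            gen ad w * (gen ad u)⁻¹ := by
            rw [hce.eq, mul_inv_cancel_right]
          calc (gen ad t)⁻¹ * (gen ad w * (gen ad u)⁻¹) * gen ad t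
              = (gen ad t)⁻¹ * (gen ad u * (gen ad w * (gen ad u)⁻¹) * (gen ad u)⁻¹) *
                gen ad t := by rw [h3]
            _ = _ := by group
        rw [h2]
        exact H.mul_mem (H.mul_mem i2 he) (H.inv_mem i2)
      have h4 := H.mul_mem h1 i2
      have h5 : (gen ad t)⁻¹ * (gen ad w * (gen ad u)⁻¹) * gen ad t *
          ((gen ad t)⁻¹ * (gen ad u * (gen ad t)⁻¹) * gen ad t) =
          (gen ad t)⁻¹ * (gen ad w * (gen ad t)⁻¹) * gen ad t := by group
      rwa [h5] at h4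

theorem bb_closure' (conn : ∀ a b, Relation.ReflTransGen ad a b) (g : RAAG ad)
    (hg : hgt ad g = 0) : g ∈ Subgroup.closure (Set.range fun v => gen ad v * (gen ad t)⁻¹) := by
  set H := Subgroup.closure (Set.range fun v => gen ad v * (gen ad t)⁻¹) with hH
  have hm : ∀ v, gen ad v * (gen ad t)⁻¹ ∈ H := fun v => Subgroup.subset_closure ⟨v, rfl⟩
  have c1 : ∀ h ∈ H, gen ad t * h * (gen ad t)⁻¹ ∈ H := by
    intro h hh
    have : h ∈ H.comap (MulAut.conj (gen ad t)).toMonoidHom := by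
      refine (Subgroup.closure_le _).2 ?_ hh
      rintro _ ⟨v, rfl⟩
      exact (conj_mem ad t conn v).1
    exact this
  have c2 : ∀ h ∈ H, (gen ad t)⁻¹ * h * gen ad t ∈ H := by
    intro h hh
    have : h ∈ H.comap (MulAut.conj (gen ad t)⁻¹).toMonoidHom := by
      refine (Subgroup.closure_le _).2 ?_ hh
      rintro _ ⟨v, rfl⟩
      have := (conj_mem ad t conn v).2
      change (gen ad t)⁻¹ * _ * (gen ad t)⁻¹⁻¹ ∈ H
      rwa [inv_inv]
    have h2 : (gen ad t)⁻¹ * h * (gen ad t)⁻¹⁻¹ ∈ H := this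
    rwa [inv_inv] at h2
  have key : ∀ g : RAAG ad, ∃ h ∈ H, ∃ n : ℤ, g = h * gen ad t ^ n := by
    intro g
    have hgc : g ∈ Subgroup.closure (Set.range (gen ad)) := by
      rw [closure_gen]; exact Subgroup.mem_top _
    induction hgc using Subgroup.closure_induction_left with
    | one => exact ⟨1, H.one_mem, 0, by simp⟩
    | mul_left x hx y _ ih =>
      obtain ⟨v, rfl⟩ := hx
      obtain ⟨h, hh, n, rfl⟩ := ih
      refine ⟨gen ad v * (gen ad t)⁻¹ * (gen ad t * h * (gen ad t)⁻¹),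
        H.mul_mem (hm v) (c1 h hh), n + 1, ?_⟩
      rw [zpow_add, zpow_one]
      have : gen ad t ^ n * gen ad t = gen ad t * gen ad t ^ n := by
        rw [← zpow_one_add, ← zpow_add_one, add_comm]
      rw [this]
      group
    | inv_mul_cancel x hx y _ ih =>
      obtain ⟨v, rfl⟩ := hx
      obtain ⟨h, hh, n, rfl⟩ := ih
      refine ⟨((gen ad t)⁻¹ * (gen ad v * (gen ad t)⁻¹) * gen ad t)⁻¹ *
        ((gen ad t)⁻¹ * h * gen ad t),
        H.mul_mem (H.inv_mem (c2 _ (hm v))) (c2 h hh), n - 1, ?_⟩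
      rw [zpow_sub, zpow_one]
      have : gen ad t ^ n * (gen ad t)⁻¹ = (gen ad t)⁻¹ * gen ad t ^ n := by
        rw [← zpow_neg_one, ← zpow_add, ← zpow_add, add_comm]
      rw [this]
      group
  obtain ⟨h, hh, n, rfl⟩ := key g
  have h1 : hgt ad h = 0 := by
    have : h ∈ BB ad := by
      refine (Subgroup.closure_le _).2 ?_ hh
      rintro _ ⟨v, rfl⟩
      exact (xv ad t v).2
    exact (mem_BB ad h).1 this
  have h2 : hgt ad (gen ad t ^ n) = n := by
    simp [hgt, ht_gen]
  rw [hgt_mul, h1, h2, zero_add] at hg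
  rw [hg, zpow_zero, mul_one]
  exact hh

theorem bb_closure (conn : ∀ a b, Relation.ReflTransGen ad a b) :
    Subgroup.closure (Set.range (xv ad t)) = ⊤ := by
  rw [eq_top_iff]
  rintro g -
  have h1 := bb_closure' ad t conn g ((mem_BB ad _).1 g.2)
  have h2 : (Set.range fun v => gen ad v * (gen ad t)⁻¹) = (BB ad).subtype '' Set.range (xv ad t) := by
    rw [← Set.range_comp]
    rfl
  rw [h2, ← MonoidHom.map_closure] at h1
  obtain ⟨g', hg', he⟩ := h1
  have : g' = g := Subtype.ext he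
  rwa [← this]

end bb

end Pool.Agent.Q121.HC
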