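import Pool.Agent.Q121.HC.Data
import Pool.Agent.Y66.HC.Defs

/-!
# The graph
-/

set_option autoImplicit false
set_option maxRecDepth 100000

namespace Pool.Agent.Q121.HC

open Pool.Agent.W326.DU Pool.Agent.Y66.HC

/-! ### Formal linear combinations -/

section lc
variable {M : Type} [AddCommGroup M]

/-- evaluation -/
def ev (w : ℕ → M) (L : LC) : M := (L.map (fun p => p.1 • w p.2)).sum

theorem ev_nil (w : ℕ → M) : ev w [] = 0 := rfl

theorem ev_cons (w : ℕ → M) (p : ℤ × ℕ) (L : LC) : ev w (p :: L) = p.1 • w p.2 + ev w L := by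
  simp [ev]

theorem ev_append (w : ℕ → M) (L L' : LC) : ev w (L ++ L') = ev w L + ev w L' := by
  simp [ev]

/-- merging two sorted combinations -/
def mrg : ℕ → LC → LC → LC
  | 0, l, l' => l ++ l'
  | _ + 1, [], l' => l'
  | _ + 1, p :: l, [] => p :: l
  | n + 1, p :: l, q :: l' =>
    if p.2 < q.2 then p :: mrg n l (q :: l')
    else if q.2 < p.2 then q :: mrg n (p :: l) l'
    else if p.1 + q.1 = 0 then mrg n l l'
    else (p.1 + q.1, p.2) :: mrg n l l'

theorem ev_mrg (w : ℕ → M) (n : ℕ) : ∀ l l' : LC, ev w (mrg n l l') = ev w l + ev w l' := by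
  induction n with
  | zero => intro l l'; exact ev_append w l l'
  | succ n ih =>
    intro l l'
    match l, l' with
    | [], l' =>
      change ev w l' = ev w [] + ev w l'
      rw [ev_nil, zero_add]
    | p :: l, [] =>
      change ev w (p :: l) = ev w (p :: l) + ev w []
      rw [ev_nil, add_zero]
    | p :: l, q :: l' =>
      change ev w (if p.2 < q.2 then p :: mrg n l (q :: l')
        else if q.2 < p.2 then q :: mrg n (p :: l) l'
        else if p.1 + q.1 = 0 then mrg n l l'
        else (p.1 + q.1, p.2) :: mrg n l l') = _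
      split_ifs with h1 h2 h3
      · rw [ev_cons, ih, ev_cons, ev_cons]
        abel
      · rw [ev_cons, ih, ev_cons, ev_cons]
        abel
      · have h4 : p.2 = q.2 := by omega
        rw [ih, ev_cons, ev_cons, h4]
        have h5 : p.1 • w q.2 + q.1 • w q.2 = 0 := by rw [← add_smul, h3, zero_smul]
        have h6 : p.1 • w q.2 + ev w l + (q.1 • w q.2 + ev w l') =
          (p.1 • w q.2 + q.1 • w q.2) + (ev w l + ev w l') := by abel
        rw [h6, h5, zero_add]
      · have h4 : p.2 = q.2 := by omega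
        rw [ev_cons, ih, ev_cons, ev_cons]
        simp only
        rw [add_smul, h4]
        abel

/-- merging a list of combinations -/
def mrgL (Ls : List LC) : LC := Ls.foldr (mrg 1000) []

theorem ev_mrgL (w : ℕ → M) (Ls : List LC) : ev w (mrgL Ls) = (Ls.map (ev w)).sum := by
  induction Ls with
  | nil => rfl
  | cons L Ls ih =>
    change ev w (mrg 1000 L (mrgL Ls)) = _
    rw [ev_mrg, ih, List.map_cons, List.sum_cons]

/-- scaling -/
def scl (k : ℤ) (L : LC) : LC := L.map (fun p => (k * p.1, p.2))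

theorem ev_scl (w : ℕ → M) (k : ℤ) (L : LC) : ev w (scl k L) = k • ev w L := by
  induction L with
  | nil => simp [scl, ev]
  | cons p L ih =>
    change ev w ((k * p.1, p.2) :: scl k L) = _
    rw [ev_cons, ih, ev_cons, smul_add, mul_smul]

/-- the alternating extension of a function on sorted triples -/
def altL (τ : ℕ → ℕ → ℕ → LC) (a b c : ℕ) : LC :=
  if a < b ∧ b < c then τ a b c
  else if b < c ∧ c < a then τ b c a
  else if c < a ∧ a < b then τ c a b
  else if b < a ∧ a < c then scl (-1) (τ b a c)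
  else if a < c ∧ c < b then scl (-1) (τ a c b)
  else if c < b ∧ b < a then scl (-1) (τ c b a)
  else []

theorem altL_swap1 (w : ℕ → M) (τ : ℕ → ℕ → ℕ → LC) (a b c : ℕ) :
    ev w (altL τ a b c) = - ev w (altL τ b a c) := by
  unfold altL
  split_ifs <;> first | omega | simp [ev_scl, ev_nil]

theorem altL_swap2 (w : ℕ → M) (τ : ℕ → ℕ → ℕ → LC) (a b c : ℕ) :
    ev w (altL τ a b c) = - ev w (altL τ a c b) := by
  unfold altL
  split_ifs <;> first | omega | simp [ev_scl, ev_nil]

theorem sum_range_list (n : ℕ) (f : ℕ → M) : ∑ i : Fin n, f i = ((List.range n).map f).sum := by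
  rw [Fin.sum_univ_eq_sum_range f n]
  rfl

end lc

/-! ### The graph -/

/-- adjacency -/
def aB (a b : ℕ) : Bool := (gMask.getD a 0).testBit b

/-- adjacency -/
def gad (a b : Fin 21) : Prop := aB a b = true

instance : DecidableRel gad := fun a b => inferInstanceAs (Decidable (aB a b = true))

theorem gad_symm : ∀ a b, gad a b → gad b a := by decide +kernel

theorem gad_irr : ∀ a, ¬ gad a a := by decide +kernel

theorem gad_k4' : ∀ a b, gad a b → ∀ c, gad a c → gad b c → ∀ d, gad a d → gad b d → ¬ gad c d := by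
  decide +kernel

theorem gad_conn' : ∀ b, b = 0 ∨ gad 0 b ∨ ∃ f, gad 0 f ∧ gad f b := by decide +kernel

theorem gad_conn0 (b : Fin 21) : Relation.ReflTransGen gad 0 b := by
  rcases gad_conn' b with h | h | ⟨f, h1, h2⟩
  · rw [h]
  · exact Relation.ReflTransGen.single h
  · exact (Relation.ReflTransGen.single h1).tail h2

theorem gad_conn (a b : Fin 21) : Relation.ReflTransGen gad a b := by
  have h : Relation.ReflTransGen gad a 0 := by
    have h0 := gad_conn0 a
    induction h0 with
    | refl => exact Relation.ReflTransGen.refl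
    | tail _ h2 ih => exact ih.head (gad_symm _ _ h2)
  exact h.trans (gad_conn0 b)

/-- the tables as functions on sorted triples -/
def tabF (tab : List LC) (a b c : ℕ) : LC :=
  if a < 5 ∧ 5 ≤ b ∧ b < 15 ∧ 15 ≤ c ∧ c < 21 then tab.getD ((a * 10 + (b - 5)) * 6 + (c - 15)) []
  else []

theorem supp1 : ∀ a b : Fin 21, a < b → ∀ c, b < c →
    tabF gTab a b c ≠ [] → gad a b ∧ gad b c ∧ gad a c := by
  decide +kernel

theorem supp0 : ∀ a b : Fin 21, a < b → ∀ c, b < c →
    (tabF gIdx a b c ≠ [] ↔ gad a b ∧ gad b c ∧ gad a c) := by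
  decide +kernel

theorem tab0_spec : ∀ a b : Fin 21, a < b → ∀ c, b < c → gad a b → gad b c → gad a c →
    ∃ t : Fin 60, tabF gIdx a b c = [(1, t.1)] ∧ gT.getD t.1 (0, 0, 0) = (a.1, b.1, c.1) := by
  decide +kernel

/-- the alternating combination of an edge -/
def y2L (a b : ℕ) : LC :=
  if a < b then (if aB a b then [(1, (gEi.getD a []).getD b 0)] else [])
  else if b < a then (if aB b a then [(-1, (gEi.getD b []).getD a 0)] else []) else []

theorem ei_spec : ∀ a b : Fin 21, a < b → gad a b →
    (gEi.getD a []).getD b 0 < 80 ∧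
    gE.getD ((gEi.getD a []).getD b 0) (0, 0) = (a.1, b.1) := by
  decide +kernel

theorem gE_spec : ∀ j : Fin 80, ∃ a b : Fin 21, gE.getD j.1 (0, 0) = (a.1, b.1) ∧ a < b ∧ gad a b := by
  decide +kernel

theorem chkD1 : ∀ v : Fin 21, mrgL ((List.range 21).map (fun a => y2L a v.1)) = gD1.getD v.1 [] := by
  decide +kernel

theorem chkD2 : ∀ j : Fin 80, mrgL ((List.range 21).map (fun a => altL (tabF gIdx) a
    (gE.getD j.1 (0, 0)).1 (gE.getD j.1 (0, 0)).2)) = gD2.getD j.1 [] := by
  decide +kernel

theorem chkA : ∀ j : Fin 80, mrg 1000 (mrgL ((List.range 21).map (fun a => altL (tabF gTab) a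
    (gE.getD j.1 (0, 0)).1 (gE.getD j.1 (0, 0)).2)))
    (mrgL ((gH1.getD j.1 []).map (fun p => scl p.1 (gD1.getD p.2 [])))) = [(1, j.1)] := by
  decide +kernel

theorem chkB : ∀ t : Fin 60, mrgL ((tabF gTab (gT.getD t.1 (0, 0, 0)).1 (gT.getD t.1 (0, 0, 0)).2.1
    (gT.getD t.1 (0, 0, 0)).2.2).map (fun p => scl p.1 (gD2.getD p.2 []))) = [(1, t.1)] := by
  decide +kernel

end Pool.Agent.Q121.HC
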