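import Pool.Agent.Q121.HC.Graph

/-!
# The graph: acyclicity and holonomy
-/

set_option autoImplicit false
set_option maxRecDepth 100000

namespace Pool.Agent.Q121.HC

open Pool.Agent.W326.DU Pool.Agent.Y66.HC

/-- natural numbers as vertices -/
def vtx (n : ℕ) : Fin 21 := Fin.ofNat 21 n

theorem vtx_val (a : Fin 21) : vtx a.1 = a := Fin.ofNat_val_eq_self a

theorem altL_nil (a b c : Fin 21) (h : ¬ (gad a b ∧ gad b c ∧ gad a c)) :
    altL (tabF gTab) a b c = [] := by
  have key : ∀ a b c : Fin 21, a < b → b < c → ¬ (gad a b ∧ gad b c ∧ gad a c) →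
      tabF gTab a b c = [] := by
    intro a b c h1 h2 h3
    by_contra hne
    exact h3 (supp1 a b h1 c h2 hne)
  have hs := gad_symm
  unfold altL
  split_ifs with h1 h2 h3 h4 h5 h6
  · exact key a b c h1.1 h1.2 h
  · exact key b c a h2.1 h2.2 (fun h' => h ⟨hs _ _ h'.2.2, h'.1, hs _ _ h'.2.1⟩)
  · exact key c a b h3.1 h3.2 (fun h' => h ⟨h'.2.1, hs _ _ h'.2.2, hs _ _ h'.1⟩)
  · rw [key b a c h4.1 h4.2 (fun h' => h ⟨hs _ _ h'.1, h'.2.2, h'.2.1⟩)]
    rfl
  · rw [key a c b h5.1 h5.2 (fun h' => h ⟨h'.2.2, hs _ _ h'.2.1, h'.1⟩)]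
    rfl
  · rw [key c b a h6.1 h6.2 (fun h' => h ⟨hs _ _ h'.2.1, hs _ _ h'.1, hs _ _ h'.2.2⟩)]
    rfl
  · rfl

section
variable {M : Type} [AddCommGroup M]

theorem alt3_gen (w : ℕ → M) (τ : ℕ → ℕ → ℕ → LC) (z : Fin 21 → Fin 21 → Fin 21 → M)
    (hz : IsAlt3 gad Set.univ z)
    (h : ∀ a b c : Fin 21, a < b → b < c → ev w (τ a b c) = z a b c) (a b c : Fin 21) :
    ev w (altL τ a b c) = z a b c := by
  have s1 := hz.1
  have s2 := hz.2.1
  unfold altL
  split_ifs with h1 h2 h3 h4 h5 h6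
  · exact h a b c h1.1 h1.2
  · rw [h b c a h2.1 h2.2, s1 a b c, s2 b a c, neg_neg]
  · rw [h c a b h3.1 h3.2, s2 a b c, s1 a c b, neg_neg]
  · rw [ev_scl, h b a c h4.1 h4.2, s1 a b c, neg_smul, one_smul]
  · rw [ev_scl, h a c b h5.1 h5.2, s2 a b c, neg_smul, one_smul]
  · rw [ev_scl, h c b a h6.1 h6.2, s1 a b c, s2 b a c, s1 b c a, neg_neg, neg_smul, one_smul]
  · rw [ev_nil]
    symm
    apply hz.2.2
    rintro ⟨-, -, -, g1, g2, g3⟩
    have n1 : a ≠ b := fun h => gad_irr b (h ▸ g1)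
    have n2 : b ≠ c := fun h => gad_irr c (h ▸ g2)
    have n3 : a ≠ c := fun h => gad_irr c (h ▸ g3)
    have m1 : a.1 ≠ b.1 := fun h => n1 (Fin.ext h)
    have m2 : b.1 ≠ c.1 := fun h => n2 (Fin.ext h)
    have m3 : a.1 ≠ c.1 := fun h => n3 (Fin.ext h)
    omega

theorem ev_single (w : ℕ → M) (k : ℤ) (i : ℕ) : ev w [(k, i)] = k • w i := by
  rw [ev_cons, ev_nil, add_zero]

theorem g_ac3 (z : Fin 21 → Fin 21 → Fin 21 → M) (hz : IsAlt3 gad Set.univ z)
    (h0 : ∀ b c, ∑ a, z a b c = 0) : ∀ a b c, z a b c = 0 := by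
  let w : ℕ → M := fun t => z (vtx (gT.getD t (0, 0, 0)).1) (vtx (gT.getD t (0, 0, 0)).2.1)
    (vtx (gT.getD t (0, 0, 0)).2.2)
  have hzn : ∀ a b c : Fin 21, ¬ (gad a b ∧ gad b c ∧ gad a c) → z a b c = 0 :=
    fun a b c h => hz.2.2 a b c (fun h' => h h'.2.2.2)
  have hs : ∀ a b c : Fin 21, a < b → b < c → ev w (tabF gIdx a b c) = z a b c := by
    intro a b c h1 h2
    by_cases hc : gad a b ∧ gad b c ∧ gad a c
    · obtain ⟨t, ht1, ht2⟩ := tab0_spec a b h1 c h2 hc.1 hc.2.1 hc.2.2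
      rw [ht1, ev_single, one_smul]
      change z (vtx (gT.getD t (0, 0, 0)).1) (vtx (gT.getD t (0, 0, 0)).2.1)
        (vtx (gT.getD t (0, 0, 0)).2.2) = _
      rw [ht2]
      simp only [vtx_val]
    · have h3 : tabF gIdx a b c = [] := by
        by_contra hne
        exact hc ((supp0 a b h1 c h2).1 hne)
      rw [h3, ev_nil, hzn a b c hc]
  have hz' := alt3_gen w (tabF gIdx) z hz hs
  have hD2 : ∀ n : ℕ, ev w (gD2.getD n []) = 0 := by
    intro n
    by_cases hn : n < 80
    · have h1 := chkD2 ⟨n, hn⟩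
      obtain ⟨b, c, hbc, -, -⟩ := gE_spec ⟨n, hn⟩
      simp only at h1 hbc
      rw [hbc] at h1
      simp only at h1
      rw [← h1, ev_mrgL, List.map_map]
      have h2 : ((List.range 21).map (ev w ∘ fun a => altL (tabF gIdx) a b.1 c.1)).sum =
          ∑ a : Fin 21, ev w (altL (tabF gIdx) a.1 b.1 c.1) :=
        (sum_range_list 21 (fun a => ev w (altL (tabF gIdx) a b.1 c.1))).symm
      rw [h2]
      simp only [hz', h0]
    · have : gD2.length ≤ n := by
        have h80 : gD2.length = 80 := by decide +kernel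
        omega
      rw [List.getD_eq_default _ _ this, ev_nil]
  have hw : ∀ t : Fin 60, w t.1 = 0 := by
    intro t
    have h1 := congrArg (ev w) (chkB t)
    rw [ev_single, one_smul, ev_mrgL, List.map_map] at h1
    rw [← h1]
    apply List.sum_eq_zero
    intro m hm
    obtain ⟨p, -, rfl⟩ := List.mem_map.1 hm
    change ev w (scl p.1 (gD2.getD p.2 [])) = 0
    rw [ev_scl, hD2, smul_zero]
  have hsort : ∀ a b c : Fin 21, a < b → b < c → ev w ((fun _ _ _ => ([] : LC)) a.1 b.1 c.1) =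
      z a b c := by
    intro a b c h1 h2
    rw [ev_nil]
    by_cases hc : gad a b ∧ gad b c ∧ gad a c
    · obtain ⟨t, ht1, ht2⟩ := tab0_spec a b h1 c h2 hc.1 hc.2.1 hc.2.2
      rw [← hs a b c h1 h2, ht1, ev_single, hw t, smul_zero]
    · rw [hzn a b c hc]
  intro a b c
  rw [← alt3_gen w (fun _ _ _ => ([] : LC)) z hz hsort a b c]
  unfold altL
  simp only [ite_self, scl, List.map_nil, ev_nil]

theorem g_ac2 (y : Fin 21 → Fin 21 → M) (hy : IsAlt2 gad Set.univ y)
    (h0 : ∀ b, ∑ a, y a b = 0) :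
    ∃ z : Fin 21 → Fin 21 → Fin 21 → M, IsAlt3 gad Set.univ z ∧ ∀ b c, y b c = ∑ a, z a b c := by
  let w : ℕ → M := fun i => y (vtx (gE.getD i (0, 0)).1) (vtx (gE.getD i (0, 0)).2)
  have hyn : ∀ a b : Fin 21, ¬ gad a b → y a b = 0 := fun a b h => hy.2 a b (fun h' => h h'.2.2)
  have hw1 : ∀ a b : Fin 21, a < b → gad a b → w ((gEi.getD a.1 []).getD b.1 0) = y a b := by
    intro a b h1 h2
    change y (vtx (gE.getD _ (0, 0)).1) (vtx (gE.getD _ (0, 0)).2) = _
    rw [(ei_spec a b h1 h2).2]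
    simp only [vtx_val]
  have hy2 : ∀ a b : Fin 21, y a b = ev w (y2L a.1 b.1) := by
    intro a b
    unfold y2L
    split_ifs with h1 h2 h3 h4
    · rw [ev_single, one_smul, hw1 a b h1 h2]
    · rw [ev_nil, hyn a b h2]
    · rw [ev_single, hw1 b a h3 h4, neg_smul, one_smul, hy.1 a b]
    · rw [ev_nil, hyn a b (fun h => h4 (gad_symm _ _ h))]
    · have : a = b := Fin.ext (by omega)
      rw [ev_nil, this, hyn b b (gad_irr b)]
  have hD1 : ∀ n : ℕ, ev w (gD1.getD n []) = 0 := by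
    intro n
    by_cases hn : n < 21
    · have h1 := chkD1 ⟨n, hn⟩
      simp only at h1
      rw [← h1, ev_mrgL, List.map_map]
      have h2 : ((List.range 21).map (ev w ∘ fun a => y2L a n)).sum =
          ∑ a : Fin 21, ev w (y2L a.1 n) :=
        (sum_range_list 21 (fun a => ev w (y2L a n))).symm
      rw [h2]
      have h3 : ∀ a : Fin 21, ev w (y2L a.1 n) = y a ⟨n, hn⟩ := fun a => (hy2 a ⟨n, hn⟩).symm
      simp only [h3, h0]
    · have : gD1.length ≤ n := by
        have h80 : gD1.length = 21 := by decide +kernel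
        omega
      rw [List.getD_eq_default _ _ this, ev_nil]
  let z : Fin 21 → Fin 21 → Fin 21 → M := fun a b c => ev w (altL (tabF gTab) a.1 b.1 c.1)
  have hzn : ∀ a b c : Fin 21, ¬ (gad a b ∧ gad b c ∧ gad a c) → z a b c = 0 := by
    intro a b c h
    change ev w (altL (tabF gTab) a.1 b.1 c.1) = 0
    rw [altL_nil a b c h, ev_nil]
  have hlt : ∀ b c : Fin 21, b < c → gad b c → ∑ a, z a b c = y b c := by
    intro b c h1 h2
    obtain ⟨h3, h4⟩ := ei_spec b c h1 h2
    have h5 := congrArg (ev w) (chkA ⟨_, h3⟩)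
    simp only at h5
    rw [h4] at h5
    simp only at h5
    rw [ev_single, one_smul, hw1 b c h1 h2, ev_mrg, ev_mrgL, ev_mrgL, List.map_map,
      List.map_map] at h5
    have h6 : ((List.range 21).map (ev w ∘ fun a => altL (tabF gTab) a b.1 c.1)).sum =
          ∑ a : Fin 21, ev w (altL (tabF gTab) a.1 b.1 c.1) :=
        (sum_range_list 21 (fun a => ev w (altL (tabF gTab) a b.1 c.1))).symm
    have h7 : (List.map (ev w ∘ fun p : ℤ × ℕ => scl p.1 (gD1.getD p.2 []))
        (gH1.getD ((gEi.getD b.1 []).getD c.1 0) [])).sum = 0 := by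
      apply List.sum_eq_zero
      intro m hm
      obtain ⟨p, -, rfl⟩ := List.mem_map.1 hm
      change ev w (scl p.1 (gD1.getD p.2 [])) = 0
      rw [ev_scl, hD1, smul_zero]
    rw [h6, h7, add_zero] at h5
    exact h5
  refine ⟨z, ⟨?_, ?_, ?_⟩, ?_⟩
  · intro a b c
    exact altL_swap1 w (tabF gTab) a.1 b.1 c.1
  · intro a b c
    exact altL_swap2 w (tabF gTab) a.1 b.1 c.1
  · intro a b c h
    exact hzn a b c (fun h' => h ⟨trivial, trivial, trivial, h'⟩)
  · intro b c
    by_cases hbc : gad b c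
    · rcases lt_trichotomy b c with h | h | h
      · exact (hlt b c h hbc).symm
      · exact absurd (h ▸ hbc) (gad_irr _)
      · rw [hy.1 b c, ← hlt c b h (gad_symm _ _ hbc), ← Finset.sum_neg_distrib]
        refine Finset.sum_congr rfl fun a _ => ?_
        exact (altL_swap2 w (tabF gTab) a.1 b.1 c.1).symm
    · rw [hyn b c hbc]
      symm
      exact Finset.sum_eq_zero fun a _ => hzn a b c (fun h => hbc h.2.1)

theorem path_chain (b : Fin 21) (m : M) : ∃ y : Fin 21 → Fin 21 → M, IsAlt2 gad Set.univ y ∧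
    ∀ c, ∑ a, y a c = (if c = b then m else 0) - (if c = 0 then m else 0) := by
  have h := gad_conn0 b
  induction h with
  | refl =>
    refine ⟨fun _ _ => 0, ⟨fun _ _ => neg_zero.symm, fun _ _ _ => rfl⟩, fun c => ?_⟩
    simp
  | @tail b' b hb hbb ih =>
    obtain ⟨y, hy, hyc⟩ := ih
    have hne : b' ≠ b := fun h => gad_irr b (h ▸ hbb)
    refine ⟨fun a c => y a c + ((if a = b' ∧ c = b then m else 0) -
      (if a = b ∧ c = b' then m else 0)), ⟨?_, ?_⟩, ?_⟩
    · intro a c
      have e1 : (if c = b' ∧ a = b then m else 0) = (if a = b ∧ c = b' then m else 0) :=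
        if_congr and_comm rfl rfl
      have e2 : (if c = b ∧ a = b' then m else 0) = (if a = b' ∧ c = b then m else 0) :=
        if_congr and_comm rfl rfl
      simp only [e1, e2]
      rw [hy.1 a c]
      abel
    · intro a c hac
      have hac' : ¬ gad a c := fun h => hac ⟨trivial, trivial, h⟩
      simp only
      rw [hy.2 a c hac, if_neg, if_neg, sub_zero, add_zero]
      · rintro ⟨rfl, rfl⟩
        exact hac' (gad_symm _ _ hbb)
      · rintro ⟨rfl, rfl⟩
        exact hac' hbb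
    · intro c
      rw [Finset.sum_add_distrib, Finset.sum_sub_distrib, hyc]
      have e1 : ∑ a : Fin 21, (if a = b' ∧ c = b then m else 0) = if c = b then m else 0 := by
        rw [Finset.sum_eq_single b']
        · simp
        · intro a _ ha
          rw [if_neg (fun h => ha h.1)]
        · intro h; exact absurd (Finset.mem_univ _) h
      have e2 : ∑ a : Fin 21, (if a = b ∧ c = b' then m else 0) = if c = b' then m else 0 := by
        rw [Finset.sum_eq_single b]
        · simp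
        · intro a _ ha
          rw [if_neg (fun h => ha h.1)]
        · intro h; exact absurd (Finset.mem_univ _) h
      rw [e1, e2]
      abel

theorem g_ac1 (x : Fin 21 → M) (h0 : ∑ v, x v = 0) :
    ∃ y : Fin 21 → Fin 21 → M, IsAlt2 gad Set.univ y ∧ ∀ b, x b = ∑ a, y a b := by
  choose y hy hyc using fun b : Fin 21 => path_chain b (x b)
  refine ⟨fun a c => ∑ b, y b a c, ⟨?_, ?_⟩, ?_⟩
  · intro a c
    rw [← Finset.sum_neg_distrib]
    exact Finset.sum_congr rfl fun b _ => (hy b).1 a c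
  · intro a c hac
    exact Finset.sum_eq_zero fun b _ => (hy b).2 a c hac
  · intro c
    rw [Finset.sum_comm]
    simp only [hyc]
    rw [Finset.sum_sub_distrib, Finset.sum_ite_eq Finset.univ c x, if_pos (Finset.mem_univ _)]
    by_cases hc : c = 0
    · simp [hc, h0]
    · simp [hc]

end

theorem g_acyc : Acyc gad where
  ac1 _ _ x hx := g_ac1 x hx
  ac2 _ _ y hy h0 := g_ac2 y hy h0
  ac3 _ _ z hz h0 := g_ac3 z hz h0

/-! ### The holonomy -/

/-- the raw holonomy -/
def Gf (u v : Fin 21) (x : Fin 5) : Fin 5 :=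
  ⟨(((gG.getD u.1 []).getD v.1 0) >>> (3 * x.1)) % 8 % 5, Nat.mod_lt _ (by norm_num)⟩

theorem Gf_coc : ∀ u v, (u = v ∨ gad u v) → ∀ w, (v = w ∨ gad v w) → (u = w ∨ gad u w) →
    ∀ x, Gf u v (Gf v w x) = Gf u w x := by
  decide +kernel

theorem Gf_self : ∀ u x, Gf u u x = x := by decide +kernel

theorem Gf_inv (u v : Fin 21) (h : u = v ∨ gad u v) (x : Fin 5) : Gf v u (Gf u v x) = x := by
  have h' : v = u ∨ gad v u := by
    rcases h with h | h
    · exact Or.inl h.symm
    · exact Or.inr (gad_symm _ _ h)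
  rw [Gf_coc v u h' v h (Or.inl rfl), Gf_self]

/-- the cocycle -/
def gam (u v : Fin 21) : Equiv.Perm (Fin 5) :=
  if h : u = v ∨ gad u v then
    ⟨Gf u v, Gf v u, fun x => Gf_inv u v h x, fun x => Gf_inv v u (by
      rcases h with h | h
      · exact Or.inl h.symm
      · exact Or.inr (gad_symm _ _ h)) x⟩
  else 1

theorem gam_coc (u v w : Fin 21) (h1 : u = v ∨ gad u v) (h2 : v = w ∨ gad v w)
    (h3 : u = w ∨ gad u w) : gam u v * gam v w = gam u w := by
  ext x
  rw [Equiv.Perm.mul_apply]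
  unfold gam
  rw [dif_pos h1, dif_pos h2, dif_pos h3]
  exact congrArg Fin.val (Gf_coc u v h1 w h2 h3 x)

/-- the closed path -/
def gp (n : ℕ) : Fin 21 := ([0, 5, 1, 9, 2, 6, 0] : List (Fin 21)).getD n 0

theorem gp_path : ∀ i < 6, gad (gp i) (gp (i + 1)) := by decide +kernel

theorem gp_hol' : ((List.range 6).map (fun i => gam (gp i) (gp (i + 1)))).prod 0 ≠ 0 := by
  decide +kernel

theorem gp_hol : ((List.range 6).map (fun i => gam (gp i) (gp (i + 1)))).prod ≠ 1 := by
  intro h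
  apply gp_hol'
  rw [h]
  rfl

end Pool.Agent.Q121.HC
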