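import Pool.Agent.Y448.HC.Aug

/-!
# `FP_2` implies that relation modules are finitely generated
-/

set_option autoImplicit false

open CategoryTheory CategoryTheory.Limits

namespace Pool.Agent.Q121.HC

open Pool.Agent.W326.DU Pool.Agent.Y66.HC Pool.Agent.Helper158

section

variable {G ι : Type} [Group G] [Fintype ι]

/-- the augmentation as a morphism -/
noncomputable def augHom (G : Type) [Group G] : FMk ℤ (G := G) (ZG G) ⟶ Rep.trivial ℤ G ℤ :=
  mkHom (k := ℤ) (G := G) (augm G).toIntLinearMap (by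
    intro g x
    change augm G (MonoidAlgebra.of ℤ G g • x) = augm G x
    rw [smul_eq_mul, Pool.Agent.Y448.HC.augm_mul, Pool.Agent.Y448.HC.augm_of, one_mul])

theorem augHom_apply (x : ZG G) : (augHom G).hom x = augm G x := rfl

theorem rep_exact_elt {k : Type} [CommRing k] (S : ShortComplex (Rep.{0} k G)) (hS : S.Exact)
    (x : S.X₂) (hx : S.g.hom x = 0) : ∃ y : S.X₁, S.f.hom y = x := by
  have h := hS.map (forget₂ (Rep k G) (ModuleCat k))
  rw [ShortComplex.moduleCat_exact_iff] at h
  exact h x hx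

/-- a morphism between the representations attached to modules is linear over the group ring -/
noncomputable def toLin {M N : Type} [AddCommGroup M] [Module (MonoidAlgebra ℤ G) M]
    [AddCommGroup N] [Module (MonoidAlgebra ℤ G) N]
    (f : FMk ℤ (G := G) M ⟶ FMk ℤ (G := G) N) : M →ₗ[MonoidAlgebra ℤ G] N :=
  mkLin (k := ℤ) (G := G) (f.hom.toLinearMap : M →ₗ[ℤ] N) (by
    intro g x
    exact Rep.hom_comm_apply f g x)

theorem toLin_apply {M N : Type} [AddCommGroup M] [Module (MonoidAlgebra ℤ G) M]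
    [AddCommGroup N] [Module (MonoidAlgebra ℤ G) N]
    (f : FMk ℤ (G := G) M ⟶ FMk ℤ (G := G) N) (x : M) : toLin f x = f.hom x := rfl

theorem m1 (x : ι → G) (hx : Subgroup.closure (Set.range x) = ⊤) (h : FPc 2 G) :
    (RM x).FG := by
  classical
  obtain ⟨R, hR⟩ := h
  obtain ⟨s, hs⟩ := hR 2 le_rfl
  let F0 : Rep ℤ G := FMk ℤ (G := G) (ZG G)
  let F1 : Rep ℤ G := FMk ℤ (G := G) (ι → ZG G)
  let φ : F1 ⟶ F0 := lhom (fox x)
  have hφa : φ ≫ augHom G = 0 := by
    ext z
    exact Pool.Agent.Y448.HC.augm_fox x _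
  let S0 : ShortComplex (Rep ℤ G) := ShortComplex.mk φ (augHom G) hφa
  have hS0 : S0.Exact := by
    apply rep_exact
    intro z hz
    obtain ⟨y, hy⟩ := (Pool.Agent.Y448.HC.fox_exact x hx z).1 hz
    exact ⟨y, hy⟩
  have : Epi (augHom G) := by
    rw [Rep.epi_iff_surjective]
    intro n
    exact Pool.Agent.Y448.HC.augm_surj n
  have : Projective F0 := inferInstanceAs (Projective (FMk ℤ (G := G) (ZG G)))
  have : Projective F1 := inferInstanceAs (Projective (FMk ℤ (G := G) (ι → ZG G)))
  let π0 : R.complex.X 0 ⟶ Rep.trivial ℤ G ℤ := R.π.f 0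
  have : Epi π0 := inferInstanceAs (Epi (R.π.f 0))
  let f0 : F0 ⟶ R.complex.X 0 := Projective.factorThru (augHom G) π0
  have hf0 : f0 ≫ π0 = augHom G := Projective.factorThru_comp _ _
  let g0 : R.complex.X 0 ⟶ F0 := Projective.factorThru π0 (augHom G)
  have hg0 : g0 ≫ augHom G = π0 := Projective.factorThru_comp _ _
  have e0 := R.exact₀
  have hdπ : R.complex.d 1 0 ≫ π0 = 0 := R.complex_d_comp_π_f_zero
  let f1 : F1 ⟶ R.complex.X 1 := e0.liftFromProjective (φ ≫ f0) (by
    change (φ ≫ f0) ≫ π0 = 0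
    rw [Category.assoc, hf0, hφa])
  have hf1 : f1 ≫ R.complex.d 1 0 = φ ≫ f0 := e0.liftFromProjective_comp _ _
  let g1 : R.complex.X 1 ⟶ F1 := hS0.liftFromProjective (R.complex.d 1 0 ≫ g0) (by
    change (R.complex.d 1 0 ≫ g0) ≫ augHom G = 0
    rw [Category.assoc, hg0, hdπ])
  have hg1 : g1 ≫ φ = R.complex.d 1 0 ≫ g0 := hS0.liftFromProjective_comp _ _
  let h0 : F0 ⟶ F1 := hS0.liftFromProjective (f0 ≫ g0 - 𝟙 F0) (by
    change (f0 ≫ g0 - 𝟙 F0) ≫ augHom G = 0
    rw [Preadditive.sub_comp, Category.assoc, hg0, hf0, Category.id_comp, sub_self])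
  have hh0 : h0 ≫ φ = f0 ≫ g0 - 𝟙 F0 := hS0.liftFromProjective_comp _ _
  let k : F1 ⟶ F1 := f1 ≫ g1 - 𝟙 F1 - φ ≫ h0
  have hk : k ≫ φ = 0 := by
    change (f1 ≫ g1 - 𝟙 F1 - φ ≫ h0) ≫ φ = 0
    rw [Preadditive.sub_comp, Preadditive.sub_comp, Category.assoc, Category.assoc, hg1, hh0,
      ← Category.assoc, hf1, Category.assoc, Preadditive.comp_sub, Category.id_comp,
      Category.comp_id]
    abel
  let kl : (ι → ZG G) →ₗ[MonoidAlgebra ℤ G] (ι → ZG G) := toLin k
  have hkl : ∀ z, kl z ∈ RM x := by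
    intro z
    change fox x (kl z) = 0
    have := congrArg (fun f => f.hom z) hk
    exact this
  -- the generators
  let T : Set (ι → ZG G) := (fun u : (R.complex.X 2).V => g1.hom ((R.complex.d 2 1).hom u)) '' s ∪
    Set.range (fun i => kl (Pi.single i 1))
  have hTf : T.Finite := (s.finite_toSet.image _).union (Set.finite_range _)
  have hdd : R.complex.d 2 1 ≫ R.complex.d 1 0 = 0 := R.complex.d_comp_d 2 1 0
  have hg1m : ∀ u : (R.complex.X 2).V, g1.hom ((R.complex.d 2 1).hom u) ∈ RM x := by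
    intro u
    change fox x (g1.hom ((R.complex.d 2 1).hom u)) = 0
    have h1 := congrArg (fun f => f.hom ((R.complex.d 2 1).hom u)) hg1
    have h2 := congrArg (fun f => f.hom u) hdd
    have h3 : fox x (g1.hom ((R.complex.d 2 1).hom u)) =
      g0.hom ((R.complex.d 1 0).hom ((R.complex.d 2 1).hom u)) := h1
    have h4 : (R.complex.d 1 0).hom ((R.complex.d 2 1).hom u) = 0 := h2
    rw [h3, h4]
    exact map_zero _
  have hspan : ∀ u : (R.complex.X 2).V, g1.hom ((R.complex.d 2 1).hom u) ∈
      Submodule.span (ZG G) T := by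
    intro u
    have hu := hs u
    induction hu using Submodule.span_induction with
    | mem u hu =>
      obtain ⟨⟨g, v⟩, rfl⟩ := hu
      have e : g1.hom ((R.complex.d 2 1).hom ((R.complex.X 2).ρ g (v : (R.complex.X 2).V))) =
          MonoidAlgebra.of ℤ G g • g1.hom ((R.complex.d 2 1).hom (v : (R.complex.X 2).V)) := by
        have e1 := Rep.hom_comm_apply (R.complex.d 2 1) g (v : (R.complex.X 2).V)
        have e2 := Rep.hom_comm_apply g1 g ((R.complex.d 2 1).hom (v : (R.complex.X 2).V))
        rw [e1]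
        exact e2
      simp only
      rw [e]
      exact Submodule.smul_mem _ _ (Submodule.subset_span (Or.inl ⟨v, v.2, rfl⟩))
    | zero =>
      rw [map_zero, map_zero]
      exact Submodule.zero_mem _
    | add a b _ _ ha hb =>
      rw [map_add, map_add]
      exact Submodule.add_mem _ ha hb
    | smul n a _ ha =>
      have e2 : g1.hom ((R.complex.d 2 1).hom (n • a)) =
          n • g1.hom ((R.complex.d 2 1).hom a) :=
        (congrArg g1.hom (map_zsmul (R.complex.d 2 1).hom n a)).trans
          (map_zsmul g1.hom n _)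
      exact e2 ▸ zsmul_mem ha n
  have hfin : Submodule.span (ZG G) T = RM x := by
    apply le_antisymm
    · refine Submodule.span_le.2 ?_
      rintro _ (⟨u, _, rfl⟩ | ⟨i, rfl⟩)
      · exact hg1m u
      · exact hkl _
    · intro z hz
      have hz0 : fox x z = 0 := hz
      -- f1 z is a cycle
      have h1 : (R.complex.d 1 0).hom (f1.hom z) = 0 := by
        have h2 := congrArg (fun f => f.hom z) hf1
        have h3 : (R.complex.d 1 0).hom (f1.hom z) = f0.hom (fox x z) := h2
        rw [h3, hz0]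
        exact map_zero f0.hom
      obtain ⟨u, hu⟩ := rep_exact_elt _ (R.exact_succ 0) (f1.hom z) h1
      have hu' : (R.complex.d 2 1).hom u = f1.hom z := hu
      have h5 : kl z = g1.hom (f1.hom z) - z - h0.hom (fox x z) := rfl
      rw [hz0] at h5
      have h6 : h0.hom (0 : ZG G) = 0 := map_zero h0.hom
      have h7 : z = g1.hom ((R.complex.d 2 1).hom u) - kl z := by
        rw [hu', h5]
        have : h0.hom (0 : ZG G) = 0 := map_zero h0.hom
        rw [this]
        abel
      rw [h7]
      refine Submodule.sub_mem _ (hspan u) ?_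
      have h8 : z = ∑ i, z i • (Pi.single i (1 : ZG G) : ι → ZG G) := by
        ext1 j
        simp [Finset.sum_apply, Pi.single_apply]
      rw [h8, map_sum]
      refine Submodule.sum_mem _ fun i _ => ?_
      rw [map_smul]
      exact Submodule.smul_mem _ _ (Submodule.subset_span (Or.inr ⟨i, rfl⟩))
  rw [← hfin]
  exact Submodule.fg_span hTf

end

end Pool.Agent.Q121.HC
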