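import Pool.Agent.Q121.HC.M1

/-!
# A group with a finitely generated relation module is of type `FP_2`
-/

set_option autoImplicit false

open CategoryTheory CategoryTheory.Limits

namespace Pool.Agent.Q121.HC

open Pool.Agent.W326.DU Pool.Agent.Y66.HC Pool.Agent.Helper158

section

variable {G : Type} [Group G]

theorem fin_span (M : Type) [AddCommGroup M] [Module (MonoidAlgebra ℤ G) M]
    [Module.Finite (MonoidAlgebra ℤ G) M] :
    ∃ s : Finset (FMk ℤ (G := G) M).V, ∀ x : (FMk ℤ (G := G) M).V,
      x ∈ Submodule.span ℤ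
        (Set.range (fun p : G × s => (FMk ℤ (G := G) M).ρ p.1 (p.2 : (FMk ℤ (G := G) M).V))) := by
  classical
  obtain ⟨s, hs⟩ := (Module.Finite.fg_top : (⊤ : Submodule (MonoidAlgebra ℤ G) M).FG)
  refine ⟨s, fun x => ?_⟩
  have hx : x ∈ Submodule.span (MonoidAlgebra ℤ G) (s : Set M) := by rw [hs]; trivial
  have key : ∀ (g : G) (y : M), y ∈ (Submodule.span ℤ
        (Set.range (fun p : G × s => (FMk ℤ (G := G) M).ρ p.1 (p.2 : (FMk ℤ (G := G) M).V)))) →
      (MonoidAlgebra.of ℤ G g • y : M) ∈ (Submodule.span ℤ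
        (Set.range (fun p : G × s => (FMk ℤ (G := G) M).ρ p.1 (p.2 : (FMk ℤ (G := G) M).V)))) := by
    intro g y hy
    induction hy using Submodule.span_induction with
    | mem y hy =>
      obtain ⟨⟨h, v⟩, rfl⟩ := hy
      refine Submodule.subset_span ⟨(g * h, v), ?_⟩
      change MonoidAlgebra.of ℤ G (g * h) • (v : M) =
        MonoidAlgebra.of ℤ G g • (MonoidAlgebra.of ℤ G h • (v : M))
      rw [map_mul, mul_smul]
    | zero => rw [smul_zero]; exact Submodule.zero_mem _
    | add a b _ _ ha hb => rw [smul_add]; exact Submodule.add_mem _ ha hb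
    | smul n a _ ha =>
      have e2 : (MonoidAlgebra.of ℤ G g • (n • a : M)) = n • (MonoidAlgebra.of ℤ G g • a) :=
        map_zsmul (DistribSMul.toAddMonoidHom M (MonoidAlgebra.of ℤ G g)) n a
      rw [e2]
      exact Submodule.smul_mem _ _ ha
  induction hx using Submodule.span_induction with
  | mem y hy =>
    refine Submodule.subset_span ⟨(1, ⟨y, hy⟩), ?_⟩
    change MonoidAlgebra.of ℤ G 1 • (y : M) = y
    rw [map_one, one_smul]
  | zero => exact Submodule.zero_mem _
  | add a b _ _ ha hb => exact Submodule.add_mem _ ha hb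
  | smul r a _ ha =>
    induction r using MonoidAlgebra.induction_on with
    | of g => exact key g a ha
    | add r₁ r₂ h₁ h₂ => rw [add_smul]; exact Submodule.add_mem _ h₁ h₂
    | smul n r h =>
      rw [smul_assoc]
      exact Submodule.smul_mem _ _ h

theorem fpc_of_reso {P : ℕ → Type} [∀ i, AddCommGroup (P i)]
    [∀ i, Module (MonoidAlgebra ℤ G) (P i)] {d : ∀ i, P (i + 1) →ₗ[MonoidAlgebra ℤ G] P i}
    {ε : P 0 →+ ℤ} (h : Reso P d ε) [∀ i, Module.Projective (MonoidAlgebra ℤ G) (P i)] (m : ℕ)
    (hf : ∀ i ≤ m, Module.Finite (MonoidAlgebra ℤ G) (P i)) : FPc m G := by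
  refine ⟨h.pr, fun k hk => ?_⟩
  have := hf k hk
  exact fin_span (G := G) (P k)

/-! ### The infinite resolution -/

/-- a linear map into a projective module -/
structure Stp (G : Type) [Group G] where
  A : ModuleCat.{0} (MonoidAlgebra ℤ G)
  B : ModuleCat.{0} (MonoidAlgebra ℤ G)
  d : B →ₗ[MonoidAlgebra ℤ G] A
  hA : Module.Projective (MonoidAlgebra ℤ G) A
  hB : Module.Projective (MonoidAlgebra ℤ G) B

theorem exists_next (s : Stp G) : ∃ (C : ModuleCat.{0} (MonoidAlgebra ℤ G))
    (e : C →ₗ[MonoidAlgebra ℤ G] s.B), Module.Projective (MonoidAlgebra ℤ G) C ∧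
      LinearMap.range e = LinearMap.ker s.d ∧
      ((LinearMap.ker s.d).FG → Module.Finite (MonoidAlgebra ℤ G) C) := by
  classical
  by_cases h : (LinearMap.ker s.d).FG
  · obtain ⟨n, f, hf⟩ := Submodule.fg_iff_exists_fin_generating_family.1 h
    refine ⟨ModuleCat.of _ (Fin n → MonoidAlgebra ℤ G), Fintype.linearCombination _ f, ?_, ?_, ?_⟩
    · exact inferInstanceAs (Module.Projective (MonoidAlgebra ℤ G) (Fin n → MonoidAlgebra ℤ G))
    · rw [Fintype.range_linearCombination, hf]
    · intro _
      exact inferInstanceAs (Module.Finite (MonoidAlgebra ℤ G) (Fin n → MonoidAlgebra ℤ G))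
  · refine ⟨ModuleCat.of _ (LinearMap.ker s.d →₀ MonoidAlgebra ℤ G),
      Finsupp.linearCombination _ (fun x : LinearMap.ker s.d => (x : s.B)), ?_, ?_, ?_⟩
    · exact inferInstanceAs (Module.Projective (MonoidAlgebra ℤ G)
        (LinearMap.ker s.d →₀ MonoidAlgebra ℤ G))
    · rw [Finsupp.range_linearCombination]
      have h2 : Set.range (fun x : LinearMap.ker s.d => (x : s.B)) =
          (LinearMap.ker s.d : Set s.B) := Subtype.range_coe
      rw [h2]
      exact Submodule.span_eq (LinearMap.ker s.d)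
    · intro h'
      exact absurd h' h

/-- the next step of the resolution -/
noncomputable def nxt (s : Stp G) : Stp G where
  A := s.B
  B := (exists_next s).choose
  d := (exists_next s).choose_spec.choose
  hA := s.hB
  hB := (exists_next s).choose_spec.choose_spec.1

theorem nxt_range (s : Stp G) : LinearMap.range (nxt s).d = LinearMap.ker s.d :=
  (exists_next s).choose_spec.choose_spec.2.1

theorem nxt_finite (s : Stp G) (h : (LinearMap.ker s.d).FG) :
    Module.Finite (MonoidAlgebra ℤ G) (nxt s).B :=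
  (exists_next s).choose_spec.choose_spec.2.2 h

/-- the sequence of steps -/
noncomputable def stp (s : Stp G) : ℕ → Stp G
  | 0 => s
  | n + 1 => nxt (stp s n)

variable {ι : Type} [Fintype ι] (x : ι → G)

/-- the first step -/
noncomputable def stp0 : Stp G where
  A := ModuleCat.of _ (ZG G)
  B := ModuleCat.of _ (ι → ZG G)
  d := fox x
  hA := inferInstanceAs (Module.Projective (MonoidAlgebra ℤ G) (ZG G))
  hB := inferInstanceAs (Module.Projective (MonoidAlgebra ℤ G) (ι → ZG G))

/-- the modules of the resolution -/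
def Pm (n : ℕ) : Type := (stp (stp0 x) n).A

noncomputable instance (n : ℕ) : AddCommGroup (Pm x n) :=
  inferInstanceAs (AddCommGroup (stp (stp0 x) n).A)

noncomputable instance (n : ℕ) : Module (MonoidAlgebra ℤ G) (Pm x n) :=
  inferInstanceAs (Module (MonoidAlgebra ℤ G) (stp (stp0 x) n).A)

instance (n : ℕ) : Module.Projective (MonoidAlgebra ℤ G) (Pm x n) :=
  (stp (stp0 x) n).hA

/-- the differentials of the resolution -/
noncomputable def dm (n : ℕ) : Pm x (n + 1) →ₗ[MonoidAlgebra ℤ G] Pm x n :=
  (stp (stp0 x) n).d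

/-- the augmentation of the resolution -/
noncomputable def em : Pm x 0 →+ ℤ := augm G

theorem reso_m (hx : Subgroup.closure (Set.range x) = ⊤) : Reso (Pm x) (dm x) (em x) where
  surj := Pool.Agent.Y448.HC.augm_surj
  equi g y := by
    have h : ∀ z : ZG G, augm G (MonoidAlgebra.of ℤ G g * z) = augm G z := by
      intro z
      rw [Pool.Agent.Y448.HC.augm_mul, Pool.Agent.Y448.HC.augm_of, one_mul]
    exact h y
  ex0 y := Pool.Agent.Y448.HC.fox_exact x hx y
  ex i y := by
    have h := nxt_range (stp (stp0 x) i)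
    have h2 : y ∈ LinearMap.range (nxt (stp (stp0 x) i)).d ↔
      y ∈ LinearMap.ker (stp (stp0 x) i).d := by
        constructor
        · intro hy; exact h ▸ hy
        · intro hy; exact h ▸ hy
    exact h2.symm

theorem m2 (hx : Subgroup.closure (Set.range x) = ⊤) (h : (RM x).FG) : FPc 2 G := by
  refine fpc_of_reso (reso_m x hx) 2 fun i hi => ?_
  match i, hi with
  | 0, _ => exact inferInstanceAs (Module.Finite (MonoidAlgebra ℤ G) (ZG G))
  | 1, _ => exact inferInstanceAs (Module.Finite (MonoidAlgebra ℤ G) (ι → ZG G))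
  | 2, _ => exact nxt_finite (stp0 x) h

end

end Pool.Agent.Q121.HC
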