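import Pool.Agent.Q121.HC.Final

/-!
# The fibre product which is not of type `FP_2`
-/

set_option autoImplicit false

namespace Pool.Agent.Q121.HC

open Pool.Agent.W326.DU Pool.Agent.Y66.HC

section
variable {V : Type} [Fintype V] {Q : Type} [Group Q] (π : FreeGroup V →* Q)

/-- the graph of `π` -/
abbrev Cg : Subgroup (FreeGroup V × Q) := ((MonoidHom.id (FreeGroup V)).prod π).range

/-- the HNN extension of `F × Q` whose stable letter centralises the graph of `π` -/
abbrev G1 : Type := HNNExtension (FreeGroup V × Q) (Cg π) (Cg π) (MulEquiv.refl _)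

/-- the projection -/
noncomputable def p1 : G1 π →* Q := HNNExtension.lift (MonoidHom.snd (FreeGroup V) Q) 1 (by
  intro a
  rw [one_mul, mul_one]
  rfl)

/-- the base -/
noncomputable abbrev ofB : FreeGroup V × Q →* G1 π := HNNExtension.of

/-- the stable letter -/
noncomputable abbrev tt : G1 π := HNNExtension.t

omit [Fintype V] in
theorem p1_of (b : FreeGroup V × Q) : p1 π (ofB π b) = b.2 := HNNExtension.lift_of _ _ _ _

omit [Fintype V] in
theorem p1_t : p1 π (tt π) = 1 := HNNExtension.lift_t _ _ _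

omit [Fintype V] in
theorem tt_comm (f : FreeGroup V) : tt π * ofB π (f, π f) = ofB π (f, π f) * tt π :=
  HNNExtension.t_mul_of (φ := MulEquiv.refl (Cg π)) ⟨(f, π f), ⟨f, rfl⟩⟩

omit [Fintype V] in
theorem p1_surj (hπ : Function.Surjective π) : Function.Surjective (p1 π) := by
  intro q
  exact ⟨ofB π (1, q), p1_of π _⟩

/-! ### Relation modules -/

/-- the generators of `Q` -/
abbrev yQ : V → Q := fun v => π (FreeGroup.of v)

/-- the generators of `F × Q` -/
abbrev yB : V ⊕ V → FreeGroup V × Q :=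
  gens (MonoidHom.inr (FreeGroup V) Q) (yQ π) (fun v => (FreeGroup.of v, 1))

omit [Fintype V] in
theorem clQ (hπ : Function.Surjective π) : Subgroup.closure (Set.range (yQ π)) = ⊤ := by
  have h1 : Set.range (yQ π) = π '' Set.range FreeGroup.of := by rw [← Set.range_comp]; rfl
  rw [h1, ← MonoidHom.map_closure, FreeGroup.closure_range_of, ← MonoidHom.range_eq_map]
  exact MonoidHom.range_eq_top.2 hπ

omit [Fintype V] in
theorem inr_mem (hπ : Function.Surjective π) (S : Subgroup (FreeGroup V × Q))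
    (h : ∀ v, ((1 : FreeGroup V), π (FreeGroup.of v)) ∈ S) (q : Q) :
    ((1 : FreeGroup V), q) ∈ S := by
  have h1 : q ∈ Subgroup.closure (Set.range (yQ π)) := by rw [clQ π hπ]; trivial
  have h2 : q ∈ S.comap (MonoidHom.inr (FreeGroup V) Q) := by
    refine (Subgroup.closure_le _).2 ?_ h1
    rintro _ ⟨v, rfl⟩
    exact h v
  exact h2

omit [Fintype V] in
theorem inl_mem (S : Subgroup (FreeGroup V × Q))
    (h : ∀ v, (FreeGroup.of v, (1 : Q)) ∈ S) (f : FreeGroup V) :
    (f, (1 : Q)) ∈ S := by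
  have h1 : f ∈ Subgroup.closure (Set.range (FreeGroup.of : V → FreeGroup V)) := by
    rw [FreeGroup.closure_range_of]; trivial
  have h2 : f ∈ S.comap (MonoidHom.inl (FreeGroup V) Q) := by
    refine (Subgroup.closure_le _).2 ?_ h1
    rintro _ ⟨v, rfl⟩
    exact h v
  exact h2

theorem fgB (hπ : Function.Surjective π) (h : (RM (yQ π)).FG) : (RM (yB π)).FG := by
  classical
  refine ext_fg (MonoidHom.inr (FreeGroup V) Q) (fun a b hab => congrArg Prod.snd hab) (yQ π)
    (fun v => (FreeGroup.of v, 1))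
    (fun _ => Finset.univ.image fun v => ((1 : FreeGroup V), π (FreeGroup.of v))) ?_ ?_ h
  · intro c hc k
    have h1 := mapDomain_mem (MonoidHom.fst (FreeGroup V) Q) _ _ hc
    have h2 : IL ℤ ((MonoidHom.fst (FreeGroup V) Q) ''
        Set.range (fun j => (MonoidHom.inr (FreeGroup V) Q) (yQ π j))) = ⊥ := by
      rw [eq_bot_iff]
      refine Submodule.span_le.2 ?_
      rintro _ ⟨_, ⟨_, ⟨v, rfl⟩, rfl⟩, rfl⟩
      change MonoidAlgebra.of ℤ (FreeGroup V) 1 - 1 ∈ _
      rw [map_one, sub_self]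
      exact Submodule.zero_mem _
    rw [h2, Submodule.mem_bot, map_sum] at h1
    have h3 : ∑ v, MonoidAlgebra.mapDomainRingHom ℤ (MonoidHom.fst (FreeGroup V) Q) (c v) *
        (MonoidAlgebra.of ℤ _ (FreeGroup.of v) - 1) = 0 := by
      rw [← h1]
      refine Finset.sum_congr rfl fun v _ => ?_
      rw [map_mul, map_sub, map_one, mapDomain_of]
      rfl
    have h4 := congrFun (free_fox_inj _ h3) k
    have h5 := comap_mem (MonoidHom.fst (FreeGroup V) Q) ⊥ (c k) (by
      have h6 : MonoidAlgebra.mapDomainRingHom ℤ (MonoidHom.fst (FreeGroup V) Q) (c k) = 0 := h4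
      rw [h6]
      exact Submodule.zero_mem _)
    refine IL_le ?_ h5
    rintro ⟨f, q⟩ hf
    have hf1 : f = 1 := hf
    rw [hf1]
    apply inr_mem π hπ
    intro v
    refine Subgroup.subset_closure ?_
    exact Finset.mem_coe.2 (Finset.mem_image.2 ⟨v, Finset.mem_univ _, rfl⟩)
  · intro k g hg
    obtain ⟨v, -, rfl⟩ := Finset.mem_image.1 hg
    have hc : (((1 : FreeGroup V), π (FreeGroup.of v)) : FreeGroup V × Q) * (FreeGroup.of k, 1) =
        (FreeGroup.of k, 1) * (1, π (FreeGroup.of v)) := by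
      simp
    have hc' : MonoidAlgebra.of ℤ (FreeGroup V × Q) (1, π (FreeGroup.of v)) *
        MonoidAlgebra.of ℤ (FreeGroup V × Q) (FreeGroup.of k, 1) =
        MonoidAlgebra.of ℤ (FreeGroup V × Q) (FreeGroup.of k, 1) *
        MonoidAlgebra.of ℤ (FreeGroup V × Q) (1, π (FreeGroup.of v)) := by
      rw [← map_mul, ← map_mul, hc]
    rw [comm_sub_one hc']
    exact Submodule.smul_mem _ _ (Submodule.subset_span ⟨_, ⟨v, rfl⟩, rfl⟩)

/-- the generators of `G1` -/
noncomputable abbrev yG : (V ⊕ V) ⊕ Unit → G1 π := gens (ofB π) (yB π) (fun _ => tt π)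

theorem fgG (hπ : Function.Surjective π) (h : (RM (yQ π)).FG) : (RM (yG π)).FG := by
  classical
  refine ext_fg (ofB π) (HNNExtension.of_injective _) (yB π) (fun _ => tt π)
    (fun _ => Finset.univ.image fun v => ofB π (FreeGroup.of v, π (FreeGroup.of v))) ?_ ?_
    (fgB π hπ h)
  · intro c hc k
    rw [Fintype.sum_unique] at hc
    have h1 : c default * (MonoidAlgebra.of ℤ _ (tt π) - 1) ∈
        IL ℤ (Set.range (HNNExtension.of : FreeGroup V × Q → G1 π)) := by
      refine IL_mono ?_ hc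
      rintro _ ⟨j, rfl⟩
      exact ⟨_, rfl⟩
    have h2 := Pool.Agent.W335.DU.HN.th ℤ (FreeGroup V × Q) (Cg π) (Cg π) (MulEquiv.refl _) _ h1
    refine IL_le ?_ h2
    rintro _ ⟨_, ⟨f, rfl⟩, rfl⟩
    have h3 : f ∈ Subgroup.closure (Set.range (FreeGroup.of : V → FreeGroup V)) := by
      rw [FreeGroup.closure_range_of]; trivial
    have h4 : f ∈ (Subgroup.closure ((Finset.univ.image fun v =>
        ofB π (FreeGroup.of v, π (FreeGroup.of v)) : Finset (G1 π)) : Set (G1 π))).comap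
          ((ofB π).comp ((MonoidHom.id (FreeGroup V)).prod π)) := by
      refine (Subgroup.closure_le _).2 ?_ h3
      rintro _ ⟨v, rfl⟩
      refine Subgroup.subset_closure ?_
      exact Finset.mem_coe.2 (Finset.mem_image.2 ⟨v, Finset.mem_univ _, rfl⟩)
    exact h4
  · intro k g hg
    obtain ⟨v, -, rfl⟩ := Finset.mem_image.1 hg
    have hc' : MonoidAlgebra.of ℤ (G1 π) (ofB π (FreeGroup.of v, π (FreeGroup.of v))) *
        MonoidAlgebra.of ℤ (G1 π) (tt π) =
        MonoidAlgebra.of ℤ (G1 π) (tt π) *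
        MonoidAlgebra.of ℤ (G1 π) (ofB π (FreeGroup.of v, π (FreeGroup.of v))) := by
      rw [← map_mul, ← map_mul, tt_comm]
    rw [comm_sub_one hc']
    refine Submodule.smul_mem _ _ (of_sub_mem_IL ?_)
    have h1 : ofB π (FreeGroup.of v, π (FreeGroup.of v)) =
        ofB π (FreeGroup.of v, 1) * ofB π (1, π (FreeGroup.of v)) := by
      rw [← map_mul]
      simp
    rw [h1]
    exact Subgroup.mul_mem _ (Subgroup.subset_closure ⟨Sum.inr v, rfl⟩)
      (Subgroup.subset_closure ⟨Sum.inl v, rfl⟩)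

omit [Fintype V] in
theorem base_mem (hπ : Function.Surjective π) (S : Subgroup (G1 π))
    (h1 : ∀ v, ofB π (1, π (FreeGroup.of v)) ∈ S) (h2 : ∀ v, ofB π (FreeGroup.of v, 1) ∈ S)
    (b : FreeGroup V × Q) : ofB π b ∈ S := by
  have e : ofB π b = ofB π (b.1, 1) * ofB π (1, b.2) := by
    rw [← map_mul]
    simp
  rw [e]
  exact S.mul_mem (inl_mem (S.comap (ofB π)) h2 b.1) (inr_mem π hπ (S.comap (ofB π)) h1 b.2)

omit [Fintype V] in
theorem clG (hπ : Function.Surjective π) : Subgroup.closure (Set.range (yG π)) = ⊤ := by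
  rw [eq_top_iff]
  rintro g -
  refine HNNExtension.induction_on (motive := fun g => g ∈ Subgroup.closure (Set.range (yG π)))
      g ?_ ?_ ?_ ?_
  · intro b
    apply base_mem π hπ
    · intro v
      exact Subgroup.subset_closure ⟨Sum.inl (Sum.inl v), rfl⟩
    · intro v
      exact Subgroup.subset_closure ⟨Sum.inl (Sum.inr v), rfl⟩
  · exact Subgroup.subset_closure ⟨Sum.inr (), rfl⟩
  · intro x y hx hy
    exact mul_mem hx hy
  · intro x hx
    exact inv_mem hx

theorem fpcG (hπ : Function.Surjective π) (h : FPc 2 Q) : FPc 2 (G1 π) :=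
  m2 (yG π) (clG π hπ) (fgG π hπ (m1 (yQ π) (clQ π hπ) h))

/-! ### The kernel -/

omit [Fintype V] in
theorem ker_eq (hπ : Function.Surjective π) :
    Subgroup.closure (Set.range (fun v => ofB π (FreeGroup.of v, 1)) ∪ {tt π}) = (p1 π).ker := by
  set K := Subgroup.closure (Set.range (fun v => ofB π (FreeGroup.of v, 1)) ∪ {tt π}) with hK
  have m1 : ∀ v, ofB π (FreeGroup.of v, 1) ∈ K := fun v =>
    Subgroup.subset_closure (Or.inl ⟨v, rfl⟩)
  have m2 : tt π ∈ K := Subgroup.subset_closure (Or.inr rfl)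
  have m3 : ∀ f, ofB π (f, 1) ∈ K := fun f => inl_mem (K.comap (ofB π)) m1 f
  have hnorm : ∀ (q : Q), ∀ k ∈ K, ofB π (1, q) * k * (ofB π (1, q))⁻¹ ∈ K := by
    intro q k hk
    have : k ∈ K.comap (MulAut.conj (ofB π (1, q))).toMonoidHom := by
      refine (Subgroup.closure_le _).2 ?_ hk
      intro s hs
      rcases hs with ⟨v, rfl⟩ | rfl
      · change ofB π (1, q) * ofB π (FreeGroup.of v, 1) * (ofB π (1, q))⁻¹ ∈ K
        have : ofB π (1, q) * ofB π (FreeGroup.of v, 1) * (ofB π (1, q))⁻¹ =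
            ofB π (FreeGroup.of v, 1) := by
          rw [← map_mul, ← map_inv, ← map_mul]
          simp
        rw [this]
        exact m1 v
      · change ofB π (1, q) * tt π * (ofB π (1, q))⁻¹ ∈ K
        obtain ⟨f, rfl⟩ := hπ q
        have e1 : ofB π (1, π f) = ofB π (f⁻¹, 1) * ofB π (f, π f) := by
          rw [← map_mul]
          simp
        have e2 : ofB π (1, π f) * tt π * (ofB π (1, π f))⁻¹ =
            ofB π (f⁻¹, 1) * tt π * (ofB π (f⁻¹, 1))⁻¹ := by
          rw [e1, mul_inv_rev]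
          have := tt_comm π f
          calc ofB π (f⁻¹, 1) * ofB π (f, π f) * tt π *
                ((ofB π (f, π f))⁻¹ * (ofB π (f⁻¹, 1))⁻¹)
              = ofB π (f⁻¹, 1) * (ofB π (f, π f) * tt π) *
                ((ofB π (f, π f))⁻¹ * (ofB π (f⁻¹, 1))⁻¹) := by simp only [mul_assoc]
            _ = ofB π (f⁻¹, 1) * (tt π * ofB π (f, π f)) *
                ((ofB π (f, π f))⁻¹ * (ofB π (f⁻¹, 1))⁻¹) := by rw [this]
            _ = _ := by group
        rw [e2]
        exact K.mul_mem (K.mul_mem (m3 _) m2) (K.inv_mem (m3 _))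
    exact this
  apply le_antisymm
  · refine (Subgroup.closure_le _).2 ?_
    intro s hs
    rcases hs with ⟨v, rfl⟩ | rfl
    · exact p1_of π _
    · exact p1_t π
  · intro g hg
    have key : ∀ g : G1 π, ∃ k ∈ K, ∃ q : Q, g = k * ofB π (1, q) := by
      intro g
      have hg : g ∈ Subgroup.closure (Set.range (yG π)) := by rw [clG π hπ]; trivial
      have step : ∀ x : G1 π, (x ∈ K ∨ ∃ q : Q, x = ofB π (1, q)) → ∀ y : G1 π,
          (∃ k ∈ K, ∃ q : Q, y = k * ofB π (1, q)) →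
          ∃ k ∈ K, ∃ q : Q, x * y = k * ofB π (1, q) := by
        rintro x hx _ ⟨k, hk, q, rfl⟩
        rcases hx with hx | ⟨q', rfl⟩
        · exact ⟨x * k, K.mul_mem hx hk, q, by rw [mul_assoc]⟩
        · refine ⟨_, hnorm q' k hk, q' * q, ?_⟩
          have : ofB π (1, q' * q) = ofB π (1, q') * ofB π (1, q) := by
            rw [← map_mul]
            simp
          rw [this]
          group
      have hgen : ∀ x ∈ Set.range (yG π), (x ∈ K ∨ ∃ q : Q, x = ofB π (1, q)) := by
        rintro _ ⟨(v | v) | u, rfl⟩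
        · exact Or.inr ⟨_, rfl⟩
        · exact Or.inl (m1 v)
        · exact Or.inl m2
      induction hg using Subgroup.closure_induction_left with
      | one => exact ⟨1, K.one_mem, 1, by
          have : ofB π (1, 1) = 1 := map_one _
          rw [this, one_mul]⟩
      | mul_left x hx y _ ih => exact step x (hgen x hx) y ih
      | inv_mul_cancel x hx y _ ih =>
        refine step x⁻¹ ?_ y ih
        rcases hgen x hx with h | ⟨q, rfl⟩
        · exact Or.inl (K.inv_mem h)
        · refine Or.inr ⟨q⁻¹, ?_⟩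
          rw [← map_inv]
          simp
    obtain ⟨k, hk, q, rfl⟩ := key g
    have h1 : p1 π k = 1 := by
      have : k ∈ (p1 π).ker := by
        refine (Subgroup.closure_le _).2 ?_ hk
        intro s hs
        rcases hs with ⟨v, rfl⟩ | rfl
        · exact p1_of π _
        · exact p1_t π
      exact this
    have h2 : p1 π (k * ofB π (1, q)) = 1 := hg
    rw [map_mul, h1, one_mul, p1_of] at h2
    have h3 : q = 1 := h2
    rw [h3]
    have : ofB π (1, 1) = 1 := map_one _
    rw [this, mul_one]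
    exact hk

theorem ker_fg (hπ : Function.Surjective π) : Group.FG (p1 π).ker := by
  classical
  rw [Group.fg_iff_subgroup_fg, ← ker_eq π hπ, Subgroup.fg_iff]
  exact ⟨_, rfl, (Set.finite_range _).union (Set.finite_singleton _)⟩

/-! ### The fibre product -/

/-- the fibre product -/
noncomputable abbrev FP : Subgroup (G1 π × FreeGroup V) :=
  ((p1 π).comp (MonoidHom.fst (G1 π) (FreeGroup V))).eqLocus
    (π.comp (MonoidHom.snd (G1 π) (FreeGroup V)))

/-- the first projection -/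
noncomputable abbrev pr1 : FP π →* G1 π := (MonoidHom.fst (G1 π) (FreeGroup V)).comp (FP π).subtype

omit [Fintype V] in
theorem mem_FP (x : G1 π × FreeGroup V) : x ∈ FP π ↔ p1 π x.1 = π x.2 := Iff.rfl

/-- the generators of the base -/
noncomputable def yP0 : V ⊕ V → FP π :=
  Sum.elim (fun v => ⟨(ofB π (FreeGroup.of v, 1), 1), by
    rw [mem_FP, p1_of]
    exact (map_one π).symm⟩)
    (fun v => ⟨(ofB π (1, π (FreeGroup.of v)), FreeGroup.of v), by
    rw [mem_FP, p1_of]⟩)

/-- the stable letter -/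
noncomputable def tP : FP π := ⟨(tt π, 1), by
  rw [mem_FP, p1_t]
  exact (map_one π).symm⟩

/-- the generators of the fibre product -/
noncomputable abbrev yP : (V ⊕ V) ⊕ Unit → FP π := Sum.elim (yP0 π) (fun _ => tP π)

/-- the part `(f, 1, 1)` -/
noncomputable def uP : FreeGroup V →* FP π where
  toFun f := ⟨(ofB π (f, 1), 1), by
    rw [mem_FP, p1_of]
    exact (map_one π).symm⟩
  map_one' := by
    apply Subtype.ext
    refine Prod.ext ?_ rfl
    exact map_one (ofB π)
  map_mul' a b := by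
    apply Subtype.ext
    refine Prod.ext ?_ (one_mul 1).symm
    change ofB π (a * b, 1) = ofB π (a, 1) * ofB π (b, 1)
    rw [← map_mul]
    simp

/-- the part `(1, π f, f)` -/
noncomputable def wP : FreeGroup V →* FP π where
  toFun f := ⟨(ofB π (1, π f), f), by
    rw [mem_FP, p1_of]⟩
  map_one' := by
    apply Subtype.ext
    refine Prod.ext ?_ rfl
    change ofB π (1, π 1) = 1
    rw [map_one π]
    exact map_one (ofB π)
  map_mul' a b := by
    apply Subtype.ext
    refine Prod.ext ?_ rfl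
    change ofB π (1, π (a * b)) = ofB π (1, π a) * ofB π (1, π b)
    rw [← map_mul, map_mul π]
    simp

omit [Fintype V] in
theorem uP_mem (f : FreeGroup V) : uP π f ∈ Subgroup.closure (Set.range (yP0 π)) := by
  have h1 : f ∈ Subgroup.closure (Set.range (FreeGroup.of : V → FreeGroup V)) := by
    rw [FreeGroup.closure_range_of]; trivial
  have h2 : f ∈ (Subgroup.closure (Set.range (yP0 π))).comap (uP π) := by
    refine (Subgroup.closure_le _).2 ?_ h1
    rintro _ ⟨v, rfl⟩
    exact Subgroup.subset_closure ⟨Sum.inl v, rfl⟩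
  exact h2

omit [Fintype V] in
theorem wP_mem (f : FreeGroup V) : wP π f ∈ Subgroup.closure (Set.range (yP0 π)) := by
  have h1 : f ∈ Subgroup.closure (Set.range (FreeGroup.of : V → FreeGroup V)) := by
    rw [FreeGroup.closure_range_of]; trivial
  have h2 : f ∈ (Subgroup.closure (Set.range (yP0 π))).comap (wP π) := by
    refine (Subgroup.closure_le _).2 ?_ h1
    rintro _ ⟨v, rfl⟩
    exact Subgroup.subset_closure ⟨Sum.inr v, rfl⟩
  exact h2

omit [Fintype V] in
theorem clP (hπ : Function.Surjective π) : Subgroup.closure (Set.range (yP π)) = ⊤ := by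
  rw [eq_top_iff]
  rintro ⟨⟨g, f⟩, hgf⟩ -
  have hle : Subgroup.closure (Set.range (yP0 π)) ≤ Subgroup.closure (Set.range (yP π)) := by
    apply Subgroup.closure_mono
    rintro _ ⟨j, rfl⟩
    exact ⟨Sum.inl j, rfl⟩
  -- elements with trivial second coordinate
  have hker : ∀ g : G1 π, ∀ h : p1 π g = 1, (⟨(g, 1), by
      rw [mem_FP, h]; exact (map_one π).symm⟩ : FP π) ∈ Subgroup.closure (Set.range (yP π)) := by
    intro g h
    have h1 : g ∈ Subgroup.closure (Set.range (fun v => ofB π (FreeGroup.of v, 1)) ∪ {tt π}) := by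
      rw [ker_eq π hπ]
      exact h
    have h2 : g ∈ ((Subgroup.closure (Set.range (yP π))).map (FP π).subtype).comap
        (MonoidHom.inl (G1 π) (FreeGroup V)) := by
      refine (Subgroup.closure_le _).2 ?_ h1
      rintro _ (⟨v, rfl⟩ | rfl)
      · exact ⟨yP π (Sum.inl (Sum.inl v)), Subgroup.subset_closure ⟨_, rfl⟩, rfl⟩
      · exact ⟨yP π (Sum.inr ()), Subgroup.subset_closure ⟨_, rfl⟩, rfl⟩
    obtain ⟨x, hx, hxg⟩ := h2
    have h3 : x = (⟨(g, 1), by rw [mem_FP, h]; exact (map_one π).symm⟩ : FP π) :=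
      Subtype.ext hxg
    rw [← h3]
    exact hx
  have h0 : p1 π g = π f := hgf
  have h1 : p1 π (g * (ofB π (1, π f))⁻¹) = 1 := by
    rw [map_mul, map_inv, p1_of, h0, mul_inv_cancel]
  have h2 := Subgroup.mul_mem _ (hker _ h1) (hle (wP_mem π f))
  have h3 : (⟨(g, f), hgf⟩ : FP π) = (⟨(g * (ofB π (1, π f))⁻¹, 1), by
      rw [mem_FP, h1]; exact (map_one π).symm⟩ : FP π) * wP π f := by
    apply Subtype.ext
    refine Prod.ext ?_ (one_mul f).symm
    change g = g * (ofB π (1, π f))⁻¹ * ofB π (1, π f)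
    rw [inv_mul_cancel_right]
  rw [h3]
  exact h2

/-! ### The fibre product is not of type `FP_2` -/

/-- the subgroup of the fibre product centralised by the stable letter -/
noncomputable abbrev EP : Subgroup (FP π) := ((Cg π).map (ofB π)).comap (pr1 π)

omit [Fintype V] in
theorem EP_mem (f f' : FreeGroup V) (h : π f = π f') : uP π f * wP π f' ∈ EP π := by
  refine ⟨(f, π f), ⟨f, rfl⟩, ?_⟩
  change ofB π (f, π f) = ofB π (f, 1) * ofB π (1, π f')
  rw [← map_mul, h]
  simp

omit [Fintype V] in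
theorem EP_spec (e : FP π) (he : e ∈ EP π) : ∃ f f', π f = π f' ∧ e = uP π f * wP π f' := by
  obtain ⟨_, ⟨f, rfl⟩, hf⟩ := he
  have h1 : ofB π (f, π f) = e.1.1 := hf
  have h2 : p1 π e.1.1 = π e.1.2 := e.2
  rw [← h1, p1_of] at h2
  have h3 : π f = π e.1.2 := h2
  refine ⟨f, e.1.2, h3, ?_⟩
  apply Subtype.ext
  refine Prod.ext ?_ (one_mul _).symm
  change e.1.1 = ofB π (f, 1) * ofB π (1, π e.1.2)
  rw [← h1, ← h3, ← map_mul]
  simp

omit [Fintype V] in
theorem EP_comm (e : FP π) (he : e ∈ EP π) : e * tP π = tP π * e := by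
  obtain ⟨_, ⟨f, rfl⟩, hf⟩ := he
  have h1 : ofB π (f, π f) = e.1.1 := hf
  apply Subtype.ext
  refine Prod.ext ?_ ?_
  · change e.1.1 * tt π = tt π * e.1.1
    rw [← h1, tt_comm]
  · change e.1.2 * 1 = 1 * e.1.2
    rw [mul_one, one_mul]

/-- the ideal of the coefficients of the stable letter in the relations -/
noncomputable def JP : Submodule (ZG (FP π)) (ZG (FP π)) :=
  (RM (yP π)).map (LinearMap.proj (Sum.inr ()))

theorem fox_yP (c : (V ⊕ V) ⊕ Unit → ZG (FP π)) : fox (yP π) c =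
    fox (yP0 π) (fun j => c (Sum.inl j)) +
      c (Sum.inr ()) * (MonoidAlgebra.of ℤ _ (tP π) - 1) := by
  change ∑ i, c i * (MonoidAlgebra.of ℤ _ (yP π i) - 1) = _
  rw [Fintype.sum_sum_type]
  have h : ∑ a : Unit, c (Sum.inr a) * (MonoidAlgebra.of ℤ _ (yP π (Sum.inr a)) - 1) =
      c (Sum.inr ()) * (MonoidAlgebra.of ℤ _ (tP π) - 1) := Fintype.sum_unique _
  rw [h]
  rfl

theorem JP_le : JP π ≤ IL ℤ ((EP π : Subgroup (FP π)) : Set (FP π)) := by
  rintro _ ⟨c, hc, rfl⟩
  have hc0 : fox (yP π) c = 0 := hc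
  rw [fox_yP] at hc0
  have h1 : c (Sum.inr ()) * (MonoidAlgebra.of ℤ _ (tP π) - 1) ∈ IL ℤ (Set.range (yP0 π)) := by
    rw [← range_fox]
    refine ⟨-(fun j => c (Sum.inl j)), ?_⟩
    rw [map_neg]
    exact (eq_neg_of_add_eq_zero_right hc0).symm
  have h2 := mapDomain_mem (pr1 π) _ _ h1
  rw [map_mul, map_sub, map_one, mapDomain_of] at h2
  have h3 : MonoidAlgebra.mapDomainRingHom ℤ (pr1 π) (c (Sum.inr ())) *
      (MonoidAlgebra.of ℤ _ (tt π) - 1) ∈
        IL ℤ (Set.range (HNNExtension.of : FreeGroup V × Q → G1 π)) := by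
    refine IL_mono ?_ h2
    rintro _ ⟨_, ⟨v | v, rfl⟩, rfl⟩
    · exact ⟨_, rfl⟩
    · exact ⟨_, rfl⟩
  have h4 := Pool.Agent.W335.DU.HN.th ℤ (FreeGroup V × Q) (Cg π) (Cg π) (MulEquiv.refl _) _ h3
  exact comap_mem (pr1 π) ((Cg π).map (ofB π)) _ h4

theorem sub_one_mem_JP (e : FP π) (he : e ∈ EP π) : MonoidAlgebra.of ℤ _ e - 1 ∈ JP π := by
  have h1 : e ∈ Subgroup.closure (Set.range (yP0 π)) := by
    obtain ⟨f, f', -, rfl⟩ := EP_spec π e he
    exact Subgroup.mul_mem _ (uP_mem π f) (wP_mem π f')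
  have h2 : MonoidAlgebra.of ℤ _ e * MonoidAlgebra.of ℤ _ (tP π) =
      MonoidAlgebra.of ℤ _ (tP π) * MonoidAlgebra.of ℤ _ e := by
    rw [← map_mul, ← map_mul, EP_comm π e he]
  have h3 : (MonoidAlgebra.of ℤ _ e - 1) * (MonoidAlgebra.of ℤ _ (tP π) - 1) ∈
      IL ℤ (Set.range (yP0 π)) := by
    rw [comm_sub_one h2]
    exact Submodule.smul_mem _ _ (of_sub_mem_IL h1)
  rw [← range_fox] at h3
  obtain ⟨a, ha⟩ := h3
  refine ⟨Sum.elim (fun j => - a j) (fun _ => MonoidAlgebra.of ℤ _ e - 1), ?_, rfl⟩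
  change fox (yP π) _ = 0
  rw [fox_yP]
  have e1 : fox (yP0 π) (fun j => - a j) = - fox (yP0 π) a := map_neg (fox (yP0 π)) a
  change fox (yP0 π) (fun j => - a j) + (MonoidAlgebra.of ℤ _ e - 1) *
    (MonoidAlgebra.of ℤ _ (tP π) - 1) = 0
  rw [e1, ha, neg_add_cancel]

/-- What is needed of a group which is not finitely presented. -/
theorem not_fpc (hπ : Function.Surjective π) {Y : Type} (lv : Y → ℤ)
    (Ψ : FreeGroup V →* Equiv.Perm Y) (hlv : ∀ f y, lv (Ψ f y) = lv y)
    (ha : ∀ f f', π f = π f' → ∃ N : ℕ, ∀ y, (N : ℤ) ≤ |lv y| → Ψ f y = Ψ f' y)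
    (hb : ∀ N : ℕ, ∃ f, π f = 1 ∧ ∃ y, (N : ℤ) ≤ |lv y| ∧ Ψ f y ≠ y) : ¬ FPc 2 (FP π) := by
  intro hP
  have hJ : (JP π).FG := (m1 (yP π) (clP π hπ) hP).map _
  let D : ℕ → Subgroup (FP π) := fun N =>
    { carrier := {g | ∃ f, g.1.1 = ofB π (f, π f) ∧ ∀ y, (N : ℤ) ≤ |lv y| → Ψ f y = Ψ g.1.2 y}
      one_mem' := ⟨1, by
        rw [map_one π]
        exact (map_one (ofB π)).symm, fun y _ => rfl⟩
      mul_mem' := by
        rintro a b ⟨f, hf, hf2⟩ ⟨f', hf', hf2'⟩
        refine ⟨f * f', ?_, fun y hy => ?_⟩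
        · change a.1.1 * b.1.1 = _
          rw [hf, hf', ← map_mul, map_mul π]
          rfl
        · change Ψ (f * f') y = Ψ (a.1.2 * b.1.2) y
          rw [map_mul, map_mul, Equiv.Perm.mul_apply, Equiv.Perm.mul_apply, hf2' y hy,
            hf2 _ (by rw [hlv]; exact hy)]
      inv_mem' := by
        rintro a ⟨f, hf, hf2⟩
        refine ⟨f⁻¹, ?_, fun y hy => ?_⟩
        · change (a.1.1)⁻¹ = _
          rw [hf, ← map_inv, map_inv π]
          rfl
        · change Ψ f⁻¹ y = Ψ (a.1.2)⁻¹ y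
          have h1 : lv (Ψ f⁻¹ y) = lv y := hlv _ _
          have h2 := hf2 (Ψ f⁻¹ y) (by rw [h1]; exact hy)
          rw [← Equiv.Perm.mul_apply, ← map_mul, mul_inv_cancel, map_one,
            Equiv.Perm.one_apply] at h2
          have h3 := congrArg (Ψ (a.1.2)⁻¹) h2
          rw [← Equiv.Perm.mul_apply, ← map_mul, inv_mul_cancel, map_one,
            Equiv.Perm.one_apply] at h3
          exact h3.symm }
  have hDmono : ∀ N K, N ≤ K → D N ≤ D K := by
    rintro N K hNK g ⟨f, hf, hf2⟩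
    exact ⟨f, hf, fun y hy => hf2 y (le_trans (by exact_mod_cast hNK) hy)⟩
  have hED : ∀ e ∈ EP π, ∃ N, e ∈ D N := by
    rintro e ⟨_, ⟨f, rfl⟩, hf⟩
    have h1 : ofB π (f, π f) = e.1.1 := hf
    have h2 : p1 π e.1.1 = π e.1.2 := e.2
    rw [← h1, p1_of] at h2
    obtain ⟨N, hN⟩ := ha f e.1.2 h2
    exact ⟨N, f, h1.symm, hN⟩
  have hIL : ∀ x ∈ IL ℤ ((EP π : Subgroup (FP π)) : Set (FP π)),
      ∃ N, x ∈ IL ℤ ((D N : Subgroup (FP π)) : Set (FP π)) := by
    intro x hx
    unfold IL at hx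
    induction hx using Submodule.span_induction with
    | mem x hx =>
      obtain ⟨e, he, rfl⟩ := hx
      obtain ⟨N, hN⟩ := hED e he
      exact ⟨N, Submodule.subset_span ⟨e, hN, rfl⟩⟩
    | zero => exact ⟨0, Submodule.zero_mem _⟩
    | add x y _ _ hx hy =>
      obtain ⟨N, hN⟩ := hx
      obtain ⟨K, hK⟩ := hy
      exact ⟨max N K, Submodule.add_mem _ (IL_mono (hDmono _ _ (le_max_left N K)) hN)
        (IL_mono (hDmono _ _ (le_max_right N K)) hK)⟩
    | smul a x _ hx =>
      obtain ⟨N, hN⟩ := hx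
      exact ⟨N, Submodule.smul_mem _ _ hN⟩
  obtain ⟨s, hs⟩ := hJ
  have hs' : ∀ x ∈ s, ∃ N, x ∈ IL ℤ ((D N : Subgroup (FP π)) : Set (FP π)) := by
    intro x hx
    apply hIL
    apply JP_le π
    rw [← hs]
    exact Submodule.subset_span hx
  choose! N hN using hs'
  have hJD : JP π ≤ IL ℤ ((D (s.sup N) : Subgroup (FP π)) : Set (FP π)) := by
    rw [← hs]
    refine Submodule.span_le.2 fun x hx => ?_
    exact IL_mono (hDmono _ _ (Finset.le_sup (f := N) hx)) (hN x hx)
  obtain ⟨f, hf, y, hy, hne⟩ := hb (s.sup N)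
  have he : uP π f * wP π 1 ∈ EP π := EP_mem π f 1 (by rw [hf, map_one])
  have h1 := of_sub_one_mem _ _ (hJD (sub_one_mem_JP π _ he))
  obtain ⟨f1, h2, h3⟩ := h1
  have h4 : ofB π (f, 1) * ofB π (1, π 1) = ofB π (f1, π f1) := h2
  rw [← map_mul] at h4
  have h5 : ((f, 1) * (1, π 1) : FreeGroup V × Q) = (f1, π f1) := HNNExtension.of_injective _ h4
  have h6 : f * 1 = f1 := congrArg Prod.fst h5
  rw [mul_one] at h6
  have h7 := h3 y hy
  apply hne
  have h8 : (uP π f * wP π 1 : FP π).1.2 = 1 := by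
    change (1 : FreeGroup V) * 1 = 1
    rw [mul_one]
  rw [h8, map_one, Equiv.Perm.one_apply, ← h6] at h7
  exact h7

end

end Pool.Agent.Q121.HC
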