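import Pool.Agent.Q121.HC.Slab

/-!
# The Bestvina-Brady group of an acyclic graph is of type `FP`
-/

set_option autoImplicit false

namespace Pool.Agent.Q121.HC

open Pool.Agent.W326.DU Pool.Agent.Y66.HC Pool.Agent.Helper158

section
variable {V : Type} (ad : V → V → Prop)

/-- the height homomorphism -/
noncomputable def ht : RAAG ad →* Multiplicative ℤ :=
  PresentedGroup.toGroup (f := fun _ : V => Multiplicative.ofAdd (1 : ℤ)) (by
    rintro r ⟨a, b, -, rfl⟩
    simp)

theorem ht_gen (v : V) : ht ad (gen ad v) = Multiplicative.ofAdd 1 :=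
  PresentedGroup.toGroup.of _

/-- the height -/
noncomputable def hgt (g : RAAG ad) : ℤ := (ht ad g).toAdd

theorem hgt_mul (g h : RAAG ad) : hgt ad (g * h) = hgt ad g + hgt ad h := by
  simp [hgt]

theorem hgt_inv (g : RAAG ad) : hgt ad g⁻¹ = - hgt ad g := by
  simp [hgt]

theorem hgt_one : hgt ad 1 = 0 := by
  simp [hgt]

theorem hgt_gen (v : V) : hgt ad (gen ad v) = 1 := by
  simp [hgt, ht_gen]

theorem hgt_pow (g : RAAG ad) (n : ℕ) : hgt ad (g ^ n) = n * hgt ad g := by
  simp [hgt]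

/-- the Bestvina-Brady group -/
noncomputable abbrev BB : Subgroup (RAAG ad) := (ht ad).ker

theorem mem_BB (g : RAAG ad) : g ∈ BB ad ↔ hgt ad g = 0 := by
  rw [MonoidHom.mem_ker]
  constructor
  · intro h
    simp [hgt, h]
  · intro h
    exact Multiplicative.toAdd.injective h

/-- the homogeneous components -/
noncomputable def prA (n : ℤ) : ZG (RAAG ad) →+ ZG (RAAG ad) where
  toFun x := MonoidAlgebra.ofCoeff (by
    classical exact x.coeff.filter (fun g => hgt ad g = n))
  map_zero' := by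
    apply MonoidAlgebra.ext
    rw [MonoidAlgebra.coeff_ofCoeff, MonoidAlgebra.coeff_zero, Finsupp.filter_zero]
  map_add' x y := by
    apply MonoidAlgebra.ext
    rw [MonoidAlgebra.coeff_add, MonoidAlgebra.coeff_ofCoeff, MonoidAlgebra.coeff_ofCoeff,
      MonoidAlgebra.coeff_ofCoeff, MonoidAlgebra.coeff_add, Finsupp.filter_add]

open Classical in
theorem prA_coeff (n : ℤ) (x : ZG (RAAG ad)) (g : RAAG ad) :
    (prA ad n x).coeff g = if hgt ad g = n then x.coeff g else 0 := by
  change (Finsupp.filter _ x.coeff) g = _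
  rw [Finsupp.filter_apply]

/-- right multiplication by a group element -/
noncomputable def tauG {G : Type} [Group G] (s : G) : ZG G ≃+ ZG G where
  toFun x := x * MonoidAlgebra.of ℤ G s
  invFun x := x * MonoidAlgebra.of ℤ G s⁻¹
  left_inv x := by
    change x * MonoidAlgebra.of ℤ G s * MonoidAlgebra.of ℤ G s⁻¹ = x
    rw [mul_assoc, ← map_mul, mul_inv_cancel, map_one, mul_one]
  right_inv x := by
    change x * MonoidAlgebra.of ℤ G s⁻¹ * MonoidAlgebra.of ℤ G s = x
    rw [mul_assoc, ← map_mul, inv_mul_cancel, map_one, mul_one]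
  map_add' x y := add_mul _ _ _

theorem tauG_apply {G : Type} [Group G] (s : G) (x : ZG G) :
    tauG s x = x * MonoidAlgebra.of ℤ G s := rfl

theorem tauG_coeff {G : Type} [Group G] (s : G) (x : ZG G) (g : G) :
    (tauG s x).coeff g = x.coeff (g * s⁻¹) := by
  rw [tauG_apply, MonoidAlgebra.of_apply, MonoidAlgebra.coeff_mul_single_apply, mul_one]

/-- the shifts -/
noncomputable def tau (v : V) : ZG (RAAG ad) ≃+ ZG (RAAG ad) := tauG (gen ad v)

theorem tau_gr : Gr ad (tau ad) (prA ad) where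
  comm a b hab x := by
    change x * MonoidAlgebra.of ℤ _ (gen ad b) * MonoidAlgebra.of ℤ _ (gen ad a) =
      x * MonoidAlgebra.of ℤ _ (gen ad a) * MonoidAlgebra.of ℤ _ (gen ad b)
    rw [mul_assoc, mul_assoc, ← map_mul, ← map_mul, gen_comm ad hab]
  pr_τ n v x := by
    classical
    apply MonoidAlgebra.ext
    ext g
    have e1 : (tau ad v ((prA ad n) x)).coeff g = ((prA ad n) x).coeff (g * (gen ad v)⁻¹) :=
      tauG_coeff _ _ _
    have e2 : (tau ad v x).coeff g = x.coeff (g * (gen ad v)⁻¹) := tauG_coeff _ _ _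
    rw [prA_coeff, e1, e2, prA_coeff, hgt_mul, hgt_inv, hgt_gen]
    by_cases h : hgt ad g = n + 1
    · rw [if_pos h, if_pos (by omega)]
    · rw [if_neg h, if_neg (by omega)]
  pr_same n x := by
    classical
    apply MonoidAlgebra.ext
    ext g
    rw [prA_coeff, prA_coeff]
    split_ifs <;> rfl
  pr_ne n m x h := by
    classical
    apply MonoidAlgebra.ext
    ext g
    rw [prA_coeff, prA_coeff]
    by_cases h1 : hgt ad g = n
    · rw [if_pos h1, if_neg (by omega)]
      rfl
    · rw [if_neg h1]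
      rfl
  fin x := by
    classical
    refine ⟨∑ g ∈ x.coeff.support, (hgt ad g).natAbs, fun n hn => ?_⟩
    apply MonoidAlgebra.ext
    ext g
    rw [prA_coeff]
    split_ifs with h
    · by_contra hne
      have hg : g ∈ x.coeff.support := Finsupp.mem_support_iff.2 hne
      have := Finset.single_le_sum (f := fun g => (hgt ad g).natAbs) (fun _ _ => Nat.zero_le _) hg
      rw [h] at this
      have h2 : ((n.natAbs : ℕ) : ℤ) = |n| := Int.natCast_natAbs n
      omega
    · rfl
  sep x h := by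
    classical
    apply MonoidAlgebra.ext
    ext g
    have := congrArg (fun y => y.coeff g) (h (hgt ad g))
    simp only [prA_coeff, if_true] at this
    exact this

theorem Rt_eq : Rt (tau ad) = RfV (gen ad) := by
  funext v
  refine AddMonoidHom.ext fun x => ?_
  change x * MonoidAlgebra.of ℤ _ (gen ad v) - x = x * (MonoidAlgebra.of ℤ _ (gen ad v) - 1)
  rw [mul_sub, mul_one]

/-! ### The embeddings of the group ring of the Bestvina-Brady group -/

variable (t : V)

/-- `a ↦ a t^n` -/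
noncomputable def En (n : ℕ) : ZG (BB ad) →+ ZG (RAAG ad) :=
  (tauG (gen ad t ^ n)).toAddMonoidHom.comp
    (MonoidAlgebra.mapDomainRingHom ℤ (BB ad).subtype).toAddMonoidHom

theorem En_apply (n : ℕ) (a : ZG (BB ad)) : En ad t n a =
    MonoidAlgebra.mapDomainRingHom ℤ (BB ad).subtype a * MonoidAlgebra.of ℤ _ (gen ad t ^ n) := rfl

theorem En_coeff (n : ℕ) (a : ZG (BB ad)) (q : BB ad) :
    (En ad t n a).coeff (q * gen ad t ^ n) = a.coeff q := by
  change (tauG (gen ad t ^ n) (MonoidAlgebra.mapDomainRingHom ℤ (BB ad).subtype a)).coeff _ = _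
  rw [tauG_coeff, mul_inv_cancel_right, MonoidAlgebra.mapDomainRingHom_apply,
    MonoidAlgebra.coeff_mapDomain]
  exact Finsupp.mapDomain_apply (Subgroup.subtype_injective _) _ _

theorem En_coeff_ne (n : ℕ) (a : ZG (BB ad)) (g : RAAG ad) (hg : hgt ad g ≠ n) :
    (En ad t n a).coeff g = 0 := by
  change (tauG (gen ad t ^ n) (MonoidAlgebra.mapDomainRingHom ℤ (BB ad).subtype a)).coeff _ = _
  rw [tauG_coeff, MonoidAlgebra.mapDomainRingHom_apply, MonoidAlgebra.coeff_mapDomain]
  apply Finsupp.mapDomain_of_notMem_range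
  rintro ⟨q, hq⟩
  apply hg
  have h1 : hgt ad (q : RAAG ad) = 0 := (mem_BB ad _).1 q.2
  have h2 : (q : RAAG ad) = g * (gen ad t ^ n)⁻¹ := hq
  rw [h2, hgt_mul, hgt_inv, hgt_pow, hgt_gen] at h1
  omega

theorem En_inj (n : ℕ) {a b : ZG (BB ad)} (h : En ad t n a = En ad t n b) : a = b := by
  apply MonoidAlgebra.ext
  ext q
  rw [← En_coeff ad t n a q, h, En_coeff]

theorem pr_En (n : ℕ) (a : ZG (BB ad)) : prA ad n (En ad t n a) = En ad t n a := by
  classical
  apply MonoidAlgebra.ext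
  ext g
  rw [prA_coeff]
  split_ifs with h
  · rfl
  · rw [En_coeff_ne ad t n a g h]

theorem bd_En (n : ℕ) (a : ZG (BB ad)) : Bd (prA ad) n n (En ad t n a) := by
  intro k hk
  rw [← pr_En]
  exact (tau_gr ad).pr_ne k n _ (by omega)

/-- the coordinates -/
noncomputable def Cn (n : ℕ) (x : ZG (RAAG ad)) : ZG (BB ad) :=
  MonoidAlgebra.ofCoeff (Finsupp.comapDomain (fun q : BB ad => (q : RAAG ad) * gen ad t ^ n)
    x.coeff (fun a _ b _ h => Subtype.ext (mul_right_cancel h)))

theorem Cn_coeff (n : ℕ) (x : ZG (RAAG ad)) (q : BB ad) :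
    (Cn ad t n x).coeff q = x.coeff (q * gen ad t ^ n) := rfl

theorem En_Cn (n : ℕ) (x : ZG (RAAG ad)) (hx : prA ad n x = x) : En ad t n (Cn ad t n x) = x := by
  classical
  apply MonoidAlgebra.ext
  ext g
  by_cases hg : hgt ad g = n
  · have hq : g * (gen ad t ^ n)⁻¹ ∈ BB ad := by
      rw [mem_BB, hgt_mul, hgt_inv, hgt_pow, hgt_gen]
      omega
    have e : g = ((⟨g * (gen ad t ^ n)⁻¹, hq⟩ : BB ad) : RAAG ad) * gen ad t ^ n := by
      simp
    rw [e, En_coeff, Cn_coeff]
  · rw [En_coeff_ne ad t n _ g hg]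
    have := congrArg (fun y => y.coeff g) hx
    simp only [prA_coeff, if_neg hg] at this
    exact this

theorem aug_En (n : ℕ) (a : ZG (BB ad)) : augm (RAAG ad) (En ad t n a) = augm (BB ad) a := by
  have key : (augm (RAAG ad)).comp (En ad t n) = augm (BB ad) := by
    refine MonoidAlgebra.addMonoidHom_ext fun g r => ?_
    change augm (RAAG ad) (MonoidAlgebra.mapDomainRingHom ℤ (BB ad).subtype
      (MonoidAlgebra.single g r) * MonoidAlgebra.of ℤ _ (gen ad t ^ n)) = _
    rw [Pool.Agent.Y448.HC.augm_mul, Pool.Agent.Y448.HC.augm_of, mul_one]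
    simp [augm]
  exact DFunLike.congr_fun key a

/-- the elements `t^n s_v t^{-n-1}` -/
noncomputable def av (v : V) (n : ℕ) : BB ad :=
  ⟨gen ad t ^ n * gen ad v * (gen ad t ^ (n + 1))⁻¹, by
    rw [mem_BB, hgt_mul, hgt_mul, hgt_inv, hgt_pow, hgt_pow, hgt_gen, hgt_gen]
    push_cast
    ring⟩

theorem En_av (v : V) (n : ℕ) (a : ZG (BB ad)) :
    En ad t (n + 1) (a * MonoidAlgebra.of ℤ _ (av ad t v n)) = tau ad v (En ad t n a) := by
  change _ = En ad t n a * MonoidAlgebra.of ℤ _ (gen ad v)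
  rw [En_apply, En_apply, map_mul, mapDomain_of, mul_assoc, mul_assoc, ← map_mul, ← map_mul]
  congr 2
  change gen ad t ^ n * gen ad v * (gen ad t ^ (n + 1))⁻¹ * gen ad t ^ (n + 1) = _
  rw [inv_mul_cancel_right]

theorem Rt_En (v : V) (n : ℕ) (a : ZG (BB ad)) :
    Rt (tau ad) v (En ad t n a) =
      En ad t (n + 1) (a * MonoidAlgebra.of ℤ _ (av ad t v n)) - En ad t n a := by
  rw [En_av, Rt_apply]

end

/-! ### The resolution -/

section
variable {V : Type} [Fintype V] [LinearOrder V] (ad : V → V → Prop) (t : V)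

/-- the edges -/
abbrev Edge : Type := {p : V × V // p.1 < p.2 ∧ ad p.1 p.2}

open Classical in
/-- the alternating function attached to a function on the edges -/
noncomputable def altE {N : Type} [AddCommGroup N] (w : Edge ad → N) (a b : V) : N :=
  if h : a < b ∧ ad a b then w ⟨(a, b), h⟩
  else if h : b < a ∧ ad b a then - w ⟨(b, a), h⟩ else 0

omit [Fintype V] in
theorem altE_add {N : Type} [AddCommGroup N] (w w' : Edge ad → N) (a b : V) :
    altE ad (w + w') a b = altE ad w a b + altE ad w' a b := by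
  unfold altE
  split_ifs
  · rfl
  · rw [Pi.add_apply, neg_add]
  · rw [add_zero]

omit [Fintype V] in
theorem altE_smul {S N : Type} [Ring S] [AddCommGroup N] [Module S N] (r : S) (w : Edge ad → N)
    (a b : V) : altE ad (r • w) a b = r • altE ad w a b := by
  unfold altE
  split_ifs
  · rfl
  · rw [Pi.smul_apply, smul_neg]
  · rw [smul_zero]

omit [Fintype V] in
theorem altE_map {N N' : Type} [AddCommGroup N] [AddCommGroup N'] (f : N →+ N') (w : Edge ad → N)
    (a b : V) : altE ad (fun e => f (w e)) a b = f (altE ad w a b) := by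
  unfold altE
  split_ifs
  · rfl
  · rw [map_neg]
  · rw [map_zero]

omit [Fintype V] in
theorem altE_alt (symm : ∀ a b, ad a b → ad b a) {N : Type} [AddCommGroup N] (w : Edge ad → N) :
    IsAlt2 ad Set.univ (altE ad w) := by
  constructor
  · intro a b
    unfold altE
    by_cases h1 : a < b ∧ ad a b
    · have h2 : ¬ (b < a ∧ ad b a) := fun h => lt_asymm h1.1 h.1
      rw [dif_pos h1, dif_neg h2, dif_pos h1, neg_neg]
    · by_cases h2 : b < a ∧ ad b a
      · rw [dif_neg h1, dif_pos h2, dif_pos h2]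
      · rw [dif_neg h1, dif_neg h2, dif_neg h2, dif_neg h1, neg_zero]
  · intro a b h
    unfold altE
    have h1 : ¬ (a < b ∧ ad a b) := fun h' => h ⟨trivial, trivial, h'.2⟩
    have h2 : ¬ (b < a ∧ ad b a) := fun h' => h ⟨trivial, trivial, symm _ _ h'.2⟩
    rw [dif_neg h1, dif_neg h2]

omit [Fintype V] in
theorem altE_self (irr : ∀ a, ¬ ad a a) {N : Type} [AddCommGroup N]
    (y : V → V → N) (hy : IsAlt2 ad Set.univ y) (a b : V) :
    altE ad (fun e : Edge ad => y e.1.1 e.1.2) a b = y a b := by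
  unfold altE
  by_cases h1 : a < b ∧ ad a b
  · rw [dif_pos h1]
  · by_cases h2 : b < a ∧ ad b a
    · rw [dif_neg h1, dif_pos h2, hy.1 a b]
    · rw [dif_neg h1, dif_neg h2]
      symm
      by_cases h : ad a b
      · rcases lt_trichotomy a b with h3 | h3 | h3
        · exact absurd ⟨h3, h⟩ h1
        · exact absurd (h3 ▸ h) (irr _)
        · by_cases h4 : ad b a
          · exact absurd ⟨h3, h4⟩ h2
          · rw [hy.1 a b, hy.2 b a (fun h => h4 h.2.2), neg_zero]
      · exact hy.2 a b (fun h' => h h'.2.2)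

/-- the first differential -/
noncomputable def q0 : (V → Fin 2 → ZG (BB ad)) →ₗ[ZG (BB ad)] (Fin 3 → ZG (BB ad)) where
  toFun x := ![- ∑ v, x v 0, ∑ v, (x v 0 * MonoidAlgebra.of ℤ _ (av ad t v 0) - x v 1),
    ∑ v, x v 1 * MonoidAlgebra.of ℤ _ (av ad t v 1)]
  map_add' x y := by
    ext1 i
    fin_cases i
    · simp only [Pi.add_apply, Finset.sum_add_distrib]
      change -(_ + _) = -_ + -_
      abel
    · change ∑ v, ((x v 0 + y v 0) * _ - (x v 1 + y v 1)) = ∑ v, _ + ∑ v, _
      rw [← Finset.sum_add_distrib]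
      refine Finset.sum_congr rfl fun v _ => ?_
      rw [add_mul]
      abel
    · change ∑ v, (x v 1 + y v 1) * _ = ∑ v, _ + ∑ v, _
      rw [← Finset.sum_add_distrib]
      refine Finset.sum_congr rfl fun v _ => ?_
      rw [add_mul]
  map_smul' r x := by
    ext1 i
    fin_cases i
    · change - ∑ v, r * x v 0 = r * - ∑ v, x v 0
      rw [← Finset.mul_sum, mul_neg]
    · change ∑ v, (r * x v 0 * _ - r * x v 1) = r * ∑ v, _
      rw [Finset.mul_sum]
      refine Finset.sum_congr rfl fun v _ => ?_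
      rw [mul_sub, mul_assoc]
    · change ∑ v, r * x v 1 * _ = r * ∑ v, _
      rw [Finset.mul_sum]
      refine Finset.sum_congr rfl fun v _ => ?_
      rw [mul_assoc]

/-- the second differential -/
noncomputable def q1 : (Edge ad → ZG (BB ad)) →ₗ[ZG (BB ad)] (V → Fin 2 → ZG (BB ad)) where
  toFun w := fun b => ![- ∑ a, altE ad w a b, ∑ a, altE ad w a b * MonoidAlgebra.of ℤ _ (av ad t a 0)]
  map_add' x y := by
    ext1 b
    ext1 i
    fin_cases i
    · change - ∑ a, altE ad (x + y) a b = - ∑ a, altE ad x a b + - ∑ a, altE ad y a b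
      simp only [altE_add, Finset.sum_add_distrib]
      abel
    · change ∑ a, altE ad (x + y) a b * _ = ∑ a, altE ad x a b * _ + ∑ a, altE ad y a b * _
      simp only [altE_add, add_mul, Finset.sum_add_distrib]
  map_smul' r x := by
    ext1 b
    ext1 i
    fin_cases i
    · change - ∑ a, altE ad (r • x) a b = r * - ∑ a, altE ad x a b
      simp only [altE_smul, smul_eq_mul, ← Finset.mul_sum, mul_neg]
    · change ∑ a, altE ad (r • x) a b * _ = r * ∑ a, altE ad x a b * _
      simp only [altE_smul, smul_eq_mul, Finset.mul_sum, mul_assoc]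

/-- the embedding in degree 0 -/
noncomputable def emb0 (p : Fin 3 → ZG (BB ad)) : ZG (RAAG ad) :=
  En ad t 0 (p 0) + En ad t 1 (p 1) + En ad t 2 (p 2)

/-- the embedding in degree 1 -/
noncomputable def emb1 (x : Fin 2 → ZG (BB ad)) : ZG (RAAG ad) :=
  En ad t 0 (x 0) + En ad t 1 (x 1)

omit [Fintype V] [LinearOrder V] in
theorem pr_En_ne (n m : ℕ) (h : n ≠ m) (a : ZG (BB ad)) : prA ad n (En ad t m a) = 0 :=
  bd_En ad t m a n (by omega)

omit [Fintype V] [LinearOrder V] in
theorem emb0_inj {p p' : Fin 3 → ZG (BB ad)} (h : emb0 ad t p = emb0 ad t p') : p = p' := by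
  have h0 := congrArg (prA ad ((0 : ℕ) : ℤ)) h
  have h1 := congrArg (prA ad ((1 : ℕ) : ℤ)) h
  have h2 := congrArg (prA ad ((2 : ℕ) : ℤ)) h
  simp only [emb0, map_add] at h0 h1 h2
  rw [pr_En, pr_En_ne ad t 0 1 (by omega), pr_En_ne ad t 0 2 (by omega), pr_En,
    pr_En_ne ad t 0 1 (by omega), pr_En_ne ad t 0 2 (by omega)] at h0
  rw [pr_En, pr_En_ne ad t 1 0 (by omega), pr_En_ne ad t 1 2 (by omega), pr_En,
    pr_En_ne ad t 1 0 (by omega), pr_En_ne ad t 1 2 (by omega)] at h1
  rw [pr_En, pr_En_ne ad t 2 0 (by omega), pr_En_ne ad t 2 1 (by omega), pr_En,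
    pr_En_ne ad t 2 0 (by omega), pr_En_ne ad t 2 1 (by omega)] at h2
  simp only [add_zero, zero_add] at h0 h1 h2
  ext1 i
  fin_cases i
  · exact En_inj ad t 0 h0
  · exact En_inj ad t 1 h1
  · exact En_inj ad t 2 h2

omit [Fintype V] [LinearOrder V] in
theorem emb1_inj {p p' : Fin 2 → ZG (BB ad)} (h : emb1 ad t p = emb1 ad t p') : p = p' := by
  have h0 := congrArg (prA ad ((0 : ℕ) : ℤ)) h
  have h1 := congrArg (prA ad ((1 : ℕ) : ℤ)) h
  simp only [emb1, map_add] at h0 h1
  rw [pr_En, pr_En_ne ad t 0 1 (by omega), pr_En, pr_En_ne ad t 0 1 (by omega)] at h0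
  rw [pr_En, pr_En_ne ad t 1 0 (by omega), pr_En, pr_En_ne ad t 1 0 (by omega)] at h1
  simp only [add_zero, zero_add] at h0 h1
  ext1 i
  fin_cases i
  · exact En_inj ad t 0 h0
  · exact En_inj ad t 1 h1

omit [Fintype V] [LinearOrder V] in
theorem bd_emb0 (p : Fin 3 → ZG (BB ad)) : Bd (prA ad) 0 2 (emb0 ad t p) :=
  (((bd_En ad t 0 _).mono (by simp) (by simp)).add
    ((bd_En ad t 1 _).mono (by simp) (by simp))).add ((bd_En ad t 2 _).mono (by simp) (by simp))

omit [Fintype V] [LinearOrder V] in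
theorem bd_emb1 (p : Fin 2 → ZG (BB ad)) : Bd (prA ad) 0 1 (emb1 ad t p) :=
  ((bd_En ad t 0 _).mono (by simp) (by simp)).add ((bd_En ad t 1 _).mono (by simp) (by simp))

omit [Fintype V] [LinearOrder V] in
theorem emb1_surj (x : ZG (RAAG ad)) (hx : Bd (prA ad) 0 1 x) : ∃ p, emb1 ad t p = x := by
  refine ⟨![Cn ad t 0 (prA ad (0 : ℕ) x), Cn ad t 1 (prA ad (1 : ℕ) x)], ?_⟩
  change En ad t 0 (Cn ad t 0 (prA ad (0 : ℕ) x)) + En ad t 1 (Cn ad t 1 (prA ad (1 : ℕ) x)) = x
  rw [En_Cn ad t 0 _ ((tau_gr ad).pr_same _ _), En_Cn ad t 1 _ ((tau_gr ad).pr_same _ _)]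
  apply (tau_gr ad).ext'
  intro n
  rw [map_add]
  by_cases h0 : n = (0 : ℕ)
  · rw [h0, (tau_gr ad).pr_same, (tau_gr ad).pr_ne _ _ _ (by simp), add_zero]
  · by_cases h1 : n = (1 : ℕ)
    · rw [h1, (tau_gr ad).pr_same, (tau_gr ad).pr_ne _ _ _ (by simp), zero_add]
    · rw [(tau_gr ad).pr_ne _ _ _ h0, (tau_gr ad).pr_ne _ _ _ h1, add_zero]
      exact (hx n (by simp at h0 h1; omega)).symm

omit [LinearOrder V] in
theorem emb0_q0 (x : V → Fin 2 → ZG (BB ad)) :
    emb0 ad t (q0 ad t x) = ∑ v, Rt (tau ad) v (emb1 ad t (x v)) := by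
  have e0 : q0 ad t x 0 = - ∑ v, x v 0 := rfl
  have e1 : q0 ad t x 1 = ∑ v, (x v 0 * MonoidAlgebra.of ℤ _ (av ad t v 0) - x v 1) := rfl
  have e2 : q0 ad t x 2 = ∑ v, x v 1 * MonoidAlgebra.of ℤ _ (av ad t v 1) := rfl
  unfold emb0 emb1
  rw [e0, e1, e2]
  simp only [map_add, map_neg, map_sum, map_sub, Rt_En, Finset.sum_add_distrib,
    Finset.sum_sub_distrib]
  abel

theorem emb1_q1 (w : Edge ad → ZG (BB ad)) (b : V) :
    emb1 ad t (q1 ad t w b) = ∑ a, Rt (tau ad) a (En ad t 0 (altE ad w a b)) := by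
  have e0 : q1 ad t w b 0 = - ∑ a, altE ad w a b := rfl
  have e1 : q1 ad t w b 1 = ∑ a, altE ad w a b * MonoidAlgebra.of ℤ _ (av ad t a 0) := rfl
  unfold emb1
  rw [e0, e1]
  simp only [map_neg, map_sum, Rt_En, Finset.sum_sub_distrib]
  abel

/-- the augmentation -/
noncomputable def eQ : (Fin 3 → ZG (BB ad)) →+ ℤ where
  toFun p := augm _ (p 0) + augm _ (p 1) + augm _ (p 2)
  map_zero' := by simp
  map_add' p q := by
    simp only [Pi.add_apply, map_add]
    ring

omit [Fintype V] [LinearOrder V] in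
theorem aug_emb0 (p : Fin 3 → ZG (BB ad)) : augm _ (emb0 ad t p) = eQ ad p := by
  unfold emb0
  rw [map_add, map_add, aug_En, aug_En, aug_En]
  rfl

omit [LinearOrder V] in
theorem aug_Rt (x : V → ZG (RAAG ad)) : augm _ (∑ v, Rt (tau ad) v (x v)) = 0 := by
  rw [map_sum]
  refine Finset.sum_eq_zero fun v _ => ?_
  rw [Rt_apply, map_sub]
  change augm _ (x v * MonoidAlgebra.of ℤ _ (gen ad v)) - _ = 0
  rw [Pool.Agent.Y448.HC.augm_mul, Pool.Agent.Y448.HC.augm_of, mul_one, sub_self]

variable (symm : ∀ a b, ad a b → ad b a) (irr : ∀ a, ¬ ad a a)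
  (k4 : ∀ a b c d, ad a b → ad a c → ad a d → ad b c → ad b d → ¬ ad c d) (hac : Acyc ad)

include symm irr in
theorem regA : Reg ad (Rt (tau ad)) := by
  rw [Rt_eq]
  exact raag_reg ad symm irr

include symm irr hac in
theorem ex0Q (p : Fin 3 → ZG (BB ad)) : eQ ad p = 0 ↔ p ∈ LinearMap.range (q0 ad t) := by
  constructor
  · intro hp
    rw [← aug_emb0 ad t] at hp
    have h1 : emb0 ad t p ∈ IL ℤ (Set.range (gen ad)) :=
      aug_th _ _ (closure_gen ad) _ hp
    rw [← Set.image_univ, ← mem_Im_iff] at h1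
    obtain ⟨x, -, hx⟩ := Pool.Agent.W304.DU.mem_Im _ _ _ h1
    rw [← Rt_eq] at hx
    obtain ⟨x', hx', hs⟩ := slab1 (tau_gr ad) (regA ad symm irr) irr symm hac _
      (bd_emb0 ad t p) x hx.symm
    choose u hu using fun v => emb1_surj ad t (x' v) (hx' v)
    refine ⟨u, emb0_inj ad t ?_⟩
    rw [emb0_q0]
    simp only [hu]
    exact hs
  · rintro ⟨x, rfl⟩
    rw [← aug_emb0 ad t, emb0_q0, aug_Rt]

include symm irr k4 hac in
theorem ex1Q (x : V → Fin 2 → ZG (BB ad)) :
    q0 ad t x = 0 ↔ x ∈ LinearMap.range (q1 ad t) := by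
  have hdd : ∀ w : Edge ad → ZG (BB ad), q0 ad t (q1 ad t w) = 0 := by
    intro w
    apply emb0_inj ad t
    rw [emb0_q0]
    simp only [emb1_q1]
    have h1 : emb0 ad t 0 = 0 := by simp [emb0]
    rw [h1]
    have halt := altE_alt ad symm w
    refine Pool.Agent.W304.DU.dd (Rt (tau ad)) (regA ad symm irr) irr
      (fun a b => En ad t 0 (altE ad w a b)) ?_ ?_
    · intro a b
      rw [halt.1 a b, map_neg]
    · intro a b hab
      rw [halt.2 a b (fun h => hab h.2.2), map_zero]
  constructor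
  · intro hx
    have h1 : ∑ v, Rt (tau ad) v (emb1 ad t (x v)) = 0 := by
      rw [← emb0_q0, hx]
      simp [emb0]
    obtain ⟨y, hy, hyx⟩ := (Pool.Agent.W304.DU.th V (ZG (RAAG ad)) ad (Rt (tau ad)) symm irr k4
      (regA ad symm irr) Finset.univ).1 (fun v => emb1 ad t (x v))
      (fun v hv => absurd (Finset.mem_univ v) hv) h1
    rw [Finset.coe_univ] at hy
    obtain ⟨y', hy', hyb, hyx'⟩ := slab2 (tau_gr ad) (regA ad symm irr) irr symm hac
      (fun v => emb1 ad t (x v)) (fun v => bd_emb1 ad t _) y hy hyx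
    refine ⟨fun e => Cn ad t 0 (y' e.1.1 e.1.2), ?_⟩
    ext1 b
    apply emb1_inj ad t
    rw [emb1_q1, hyx']
    refine Finset.sum_congr rfl fun a _ => ?_
    congr 1
    have hpr : ∀ a b, prA ad ((0 : ℕ) : ℤ) (y' a b) = y' a b := by
      intro a b
      apply (tau_gr ad).ext'
      intro n
      by_cases hn : n = (0 : ℕ)
      · rw [hn, (tau_gr ad).pr_same]
      · rw [(tau_gr ad).pr_ne _ _ _ hn]
        exact (hyb a b n (by simp at hn; omega)).symm
    have e1 : ∀ a b, En ad t 0 (altE ad (fun e : Edge ad => Cn ad t 0 (y' e.1.1 e.1.2)) a b) =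
        altE ad (fun e : Edge ad => y' e.1.1 e.1.2) a b := by
      intro a b
      rw [← altE_map ad (En ad t 0)]
      congr 1
      funext e
      exact En_Cn ad t 0 _ (hpr _ _)
    rw [e1, altE_self ad irr y' hy']
  · rintro ⟨w, rfl⟩
    exact hdd w

include symm irr k4 hac in
theorem ex2Q (w : Edge ad → ZG (BB ad)) (hw : q1 ad t w = 0) : w = 0 := by
  have halt := altE_alt ad symm w
  let y : V → V → ZG (RAAG ad) := fun a b => En ad t 0 (altE ad w a b)
  have hy : IsAlt2 ad Set.univ y := by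
    constructor
    · intro a b
      simp only [y]
      rw [halt.1 a b, map_neg]
    · intro a b hab
      simp only [y]
      rw [halt.2 a b hab, map_zero]
  have h1 : ∀ b, ∑ a, Rt (tau ad) a (y a b) = 0 := by
    intro b
    have := emb1_q1 ad t w b
    rw [hw] at this
    rw [← this]
    simp [emb1]
  obtain ⟨z, hz, hzy⟩ := (Pool.Agent.W304.DU.th V (ZG (RAAG ad)) ad (Rt (tau ad)) symm irr k4
      (regA ad symm irr) Finset.univ).2.1 y (by rw [Finset.coe_univ]; exact hy) h1
  rw [Finset.coe_univ] at hz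
  have hz0 := slab3 (tau_gr ad) (regA ad symm irr) irr symm hac z hz (by
    intro b c
    rw [← hzy]
    exact (bd_En ad t 0 _).mono (by simp) (by simp))
  ext1 e
  apply En_inj ad t 0
  have e1 : altE ad w e.1.1 e.1.2 = w e := by
    unfold altE
    rw [dif_pos e.2]
  have e2 : y e.1.1 e.1.2 = 0 := by
    rw [hzy]
    simp only [hz0, map_zero, Finset.sum_const_zero]
  rw [← e1]
  change y e.1.1 e.1.2 = _
  rw [e2]
  exact (map_zero (En ad t 0)).symm

/-- the modules of the resolution -/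
noncomputable def PQc : ℕ → ModuleCat.{0} (MonoidAlgebra ℤ (BB ad))
  | 0 => ModuleCat.of _ (Fin 3 → ZG (BB ad))
  | 1 => ModuleCat.of _ (V → Fin 2 → ZG (BB ad))
  | 2 => ModuleCat.of _ (Edge ad → ZG (BB ad))
  | _ + 3 => ModuleCat.of _ PUnit

/-- the modules of the resolution -/
def PQ (n : ℕ) : Type := PQc ad n

noncomputable instance (n : ℕ) : AddCommGroup (PQ ad n) :=
  inferInstanceAs (AddCommGroup (PQc ad n))

noncomputable instance (n : ℕ) : Module (MonoidAlgebra ℤ (BB ad)) (PQ ad n) :=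
  inferInstanceAs (Module (MonoidAlgebra ℤ (BB ad)) (PQc ad n))

theorem PQ_fin : ∀ n : ℕ, Module.Finite (MonoidAlgebra ℤ (BB ad)) (PQ ad n)
  | 0 => inferInstanceAs (Module.Finite (ZG (BB ad)) (Fin 3 → ZG (BB ad)))
  | 1 => inferInstanceAs (Module.Finite (ZG (BB ad)) (V → Fin 2 → ZG (BB ad)))
  | 2 => by
    classical
    exact inferInstanceAs (Module.Finite (ZG (BB ad)) (Edge ad → ZG (BB ad)))
  | _ + 3 => inferInstanceAs (Module.Finite (ZG (BB ad)) PUnit)

instance PQ_proj : ∀ n : ℕ, Module.Projective (MonoidAlgebra ℤ (BB ad)) (PQ ad n)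
  | 0 => inferInstanceAs (Module.Projective (ZG (BB ad)) (Fin 3 → ZG (BB ad)))
  | 1 => inferInstanceAs (Module.Projective (ZG (BB ad)) (V → Fin 2 → ZG (BB ad)))
  | 2 => by
    classical
    exact inferInstanceAs (Module.Projective (ZG (BB ad)) (Edge ad → ZG (BB ad)))
  | _ + 3 => inferInstanceAs (Module.Projective (ZG (BB ad)) PUnit)

/-- the differentials of the resolution -/
noncomputable def dQ : ∀ n : ℕ, PQ ad (n + 1) →ₗ[MonoidAlgebra ℤ (BB ad)] PQ ad n
  | 0 => q0 ad t
  | 1 => q1 ad t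
  | _ + 2 => 0

include symm irr k4 hac in
theorem resoQ : Reso (PQ ad) (dQ ad t) (eQ ad) where
  surj n := by
    obtain ⟨a, ha⟩ := Pool.Agent.Y448.HC.augm_surj (G := BB ad) n
    refine ⟨![a, 0, 0], ?_⟩
    change augm _ a + augm _ 0 + augm _ 0 = n
    rw [ha, map_zero, add_zero, add_zero]
  equi g p := by
    have h : ∀ z : ZG (BB ad), augm _ (MonoidAlgebra.of ℤ _ g * z) = augm _ z := by
      intro z
      rw [Pool.Agent.Y448.HC.augm_mul, Pool.Agent.Y448.HC.augm_of, one_mul]
    have h2 : ∀ p : Fin 3 → ZG (BB ad), eQ ad (MonoidAlgebra.of ℤ _ g • p) = eQ ad p := by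
      intro p
      change augm _ (MonoidAlgebra.of ℤ _ g * p 0) + augm _ (MonoidAlgebra.of ℤ _ g * p 1) +
        augm _ (MonoidAlgebra.of ℤ _ g * p 2) = _
      rw [h, h, h]
      rfl
    exact h2 p
  ex0 p := ex0Q ad t symm irr hac p
  ex i x := by
    match i, x with
    | 0, x => exact ex1Q ad t symm irr k4 hac x
    | 1, x =>
      constructor
      · intro hx
        rw [ex2Q ad t symm irr k4 hac x hx]
        exact Submodule.zero_mem _
      · rintro ⟨y, rfl⟩
        exact map_zero (q1 ad t)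
    | n + 2, x =>
      constructor
      · intro _
        exact ⟨0, Subsingleton.elim (α := PUnit) _ _⟩
      · intro _
        rfl

include t symm irr k4 hac in
theorem BB_fpc (m : ℕ) : FPc m (BB ad) :=
  fpc_of_reso (resoQ ad t symm irr k4 hac) m (fun i _ => PQ_fin ad i)

end

end Pool.Agent.Q121.HC
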