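import Pool.Agent.Q121.HC.Coset
import Pool.Agent.W304.DU.RG
import Pool.Agent.W304.DU.EX
import Pool.Agent.W326.DU.Sub

/-!
# The regularity property for the group ring of a right-angled Artin group
-/

set_option autoImplicit false

namespace Pool.Agent.Q121.HC

open Pool.Agent.W326.DU Pool.Agent.Y66.HC

section il
variable {G V : Type} [Group G]

/-- right multiplications by `s v - 1` -/
noncomputable def RfV (s : V → G) (v : V) : ZG G →+ ZG G :=
  rm ℤ (MonoidAlgebra.of ℤ G (s v) - 1)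

theorem RfV_apply (s : V → G) (v : V) (x : ZG G) :
    RfV s v x = x * (MonoidAlgebra.of ℤ G (s v) - 1) := rfl

theorem mem_Im_iff (s : V → G) (S : Set V) (x : ZG G) :
    x ∈ Im (RfV s) S ↔ x ∈ IL ℤ (s '' S) := by
  constructor
  · intro h
    have hle : Im (RfV s) S ≤ (IL ℤ (s '' S)).toAddSubgroup := by
      refine iSup_le fun v => iSup_le fun hv => ?_
      rintro _ ⟨z, rfl⟩
      change z * (MonoidAlgebra.of ℤ G (s v) - 1) ∈ IL ℤ (s '' S)
      exact Submodule.smul_mem _ z (Submodule.subset_span ⟨s v, ⟨v, hv, rfl⟩, rfl⟩)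
    exact hle h
  · intro h
    refine Submodule.span_induction (p := fun x _ => x ∈ Im (RfV s) S) ?_ ?_ ?_ ?_ h
    · rintro _ ⟨_, ⟨v, hv, rfl⟩, rfl⟩
      refine (le_iSup_of_le v (le_iSup_of_le hv le_rfl) :
        (RfV s v).range ≤ Im (RfV s) S) ⟨1, ?_⟩
      change 1 * (MonoidAlgebra.of ℤ G (s v) - 1) = _
      rw [one_mul]
    · exact zero_mem _
    · intro x y _ _ hx hy
      exact add_mem hx hy
    · intro a x _ hx
      have hle : (Im (RfV s) S).map (AddMonoidHom.mulLeft a) ≤ Im (RfV s) S := by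
        unfold Im
        rw [AddSubgroup.map_iSup]
        refine iSup_le fun v => ?_
        rw [AddSubgroup.map_iSup]
        refine iSup_le fun hv => ?_
        refine le_trans ?_ (le_iSup_of_le v (le_iSup_of_le hv le_rfl))
        rintro _ ⟨_, ⟨z, rfl⟩, rfl⟩
        refine ⟨a * z, ?_⟩
        change (a * z) * (MonoidAlgebra.of ℤ G (s v) - 1)
          = a * (z * (MonoidAlgebra.of ℤ G (s v) - 1))
        rw [mul_assoc]
      exact hle ⟨x, hx, rfl⟩

end il

theorem comm_sub_one {A : Type} [Ring A] {p q : A} (h : p * q = q * p) :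
    (p - 1) * (q - 1) = (q - 1) * (p - 1) := by
  have h1 : Commute p q := h
  exact (h1.sub_left (Commute.one_left _)).sub_right (Commute.one_right _)

theorem gen_comm {W : Type} (ad : W → W → Prop) {a b : W} (h : ad a b) :
    gen ad a * gen ad b = gen ad b * gen ad a :=
  Pool.Agent.W304.DU.RG.gen_comm ad a b h

theorem closure_gen {W : Type} (ad : W → W → Prop) :
    Subgroup.closure (Set.range (gen ad)) = ⊤ :=
  PresentedGroup.closure_range_of (rels ad)

section
variable {V : Type} (ad : V → V → Prop) (symm : ∀ a b, ad a b → ad b a)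
  (irr : ∀ a, ¬ ad a a)

include symm irr in
theorem raag_reg : Reg ad (RfV (gen ad)) := by
  constructor
  · intro a b hab x
    change x * (MonoidAlgebra.of ℤ _ (gen ad b) - 1) * (MonoidAlgebra.of ℤ _ (gen ad a) - 1)
      = x * (MonoidAlgebra.of ℤ _ (gen ad a) - 1) * (MonoidAlgebra.of ℤ _ (gen ad b) - 1)
    have hc : MonoidAlgebra.of ℤ _ (gen ad b) * MonoidAlgebra.of ℤ _ (gen ad a)
        = MonoidAlgebra.of ℤ _ (gen ad a) * MonoidAlgebra.of ℤ _ (gen ad b) := by
      rw [← map_mul, ← map_mul, gen_comm ad hab]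
    rw [mul_assoc, mul_assoc, comm_sub_one hc]
  · intro S v hv x hx
    rw [mem_Im_iff] at hx ⊢
    let W' : Type := {w : V // w ∈ S ∨ w = v}
    let ad' : W' → W' → Prop := fun a b => ad a.1 b.1
    obtain ⟨F, hF, hFi⟩ := sub_th V W' ad ad' (fun w => w.1) Subtype.val_injective
      (fun a b => Iff.rfl)
    let v' : W' := ⟨v, Or.inr rfl⟩
    have hst := Pool.Agent.W571.DU.BC.th ℤ (RAAG ad') (RAAG ad) F hFi _ _ _
      (Pool.Agent.W304.DU.RG.th ℤ W' ad' (fun a b h => symm _ _ h) (fun a h => irr _ h) v')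
    have e1 : F '' (gen ad' '' {w | w ≠ v'}) = gen ad '' S := by
      ext g
      constructor
      · rintro ⟨_, ⟨w, hw, rfl⟩, rfl⟩
        refine ⟨w.1, ?_, (hF w).symm⟩
        rcases w.2 with h | h
        · exact h
        · exact absurd (Subtype.ext h) hw
      · rintro ⟨w, hw, rfl⟩
        refine ⟨_, ⟨⟨w, Or.inl hw⟩, ?_, rfl⟩, hF _⟩
        intro h
        have : w = v := congrArg Subtype.val h
        exact hv (this ▸ hw)
    have e2 : F '' (gen ad' '' {w | ad' w v'}) = gen ad '' {w | w ∈ S ∧ ad w v} := by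
      ext g
      constructor
      · rintro ⟨_, ⟨w, hw, rfl⟩, rfl⟩
        have hw' : ad w.1 v := hw
        refine ⟨w.1, ⟨?_, hw'⟩, (hF w).symm⟩
        rcases w.2 with h | h
        · exact h
        · rw [h] at hw'
          exact absurd hw' (irr v)
      · rintro ⟨w, ⟨hw, hwv⟩, rfl⟩
        exact ⟨_, ⟨⟨w, Or.inl hw⟩, hwv, rfl⟩, hF _⟩
    rw [e1, e2, hF] at hst
    exact hst x hx

end

end Pool.Agent.Q121.HC
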