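import Pool.Agent.Q121.HC.Raag

/-!
# Truncation of the Salvetti complex
-/

set_option autoImplicit false

namespace Pool.Agent.Q121.HC

open Pool.Agent.W326.DU Pool.Agent.Y66.HC

/-- a graded group with commuting shifts -/
structure Gr {V M : Type} [AddCommGroup M] (ad : V → V → Prop) (τ : V → M ≃+ M)
    (pr : ℤ → M →+ M) : Prop where
  comm : ∀ a b, ad a b → ∀ x, τ a (τ b x) = τ b (τ a x)
  pr_τ : ∀ n v x, pr (n + 1) (τ v x) = τ v (pr n x)
  pr_same : ∀ n x, pr n (pr n x) = pr n x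
  pr_ne : ∀ n m x, n ≠ m → pr n (pr m x) = 0
  fin : ∀ x, ∃ N : ℕ, ∀ n : ℤ, (N : ℤ) < |n| → pr n x = 0
  sep : ∀ x, (∀ n, pr n x = 0) → x = 0

/-- the components are in the interval `[lo, hi]` -/
def Bd {M : Type} [AddCommGroup M] (pr : ℤ → M →+ M) (lo hi : ℤ) (x : M) : Prop :=
  ∀ n, (n < lo ∨ hi < n) → pr n x = 0

section
variable {V M : Type} [Fintype V] [AddCommGroup M] {ad : V → V → Prop} {τ : V → M ≃+ M}
  {pr : ℤ → M →+ M}

/-- `x ↦ τ x - x` -/
def Rt (τ : V → M ≃+ M) (v : V) : M →+ M := (τ v).toAddMonoidHom - AddMonoidHom.id M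

omit [Fintype V] in
theorem Rt_apply (v : V) (x : M) : Rt τ v x = τ v x - x := rfl

theorem Bd.add {lo hi : ℤ} {x y : M} (hx : Bd pr lo hi x) (hy : Bd pr lo hi y) :
    Bd pr lo hi (x + y) := by
  intro n hn
  rw [map_add, hx n hn, hy n hn, add_zero]

theorem Bd.neg {lo hi : ℤ} {x : M} (hx : Bd pr lo hi x) : Bd pr lo hi (-x) := by
  intro n hn
  rw [map_neg, hx n hn, neg_zero]

theorem Bd.zero {lo hi : ℤ} : Bd pr lo hi 0 := by
  intro n _
  rw [map_zero]

theorem Bd.sum {κ : Type} {s : Finset κ} {lo hi : ℤ} {f : κ → M} (h : ∀ k, Bd pr lo hi (f k)) :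
    Bd pr lo hi (∑ k ∈ s, f k) := by
  intro n hn
  rw [map_sum]
  exact Finset.sum_eq_zero fun k _ => h k n hn

theorem Bd.mono {lo hi lo' hi' : ℤ} {x : M} (hx : Bd pr lo hi x) (h1 : lo' ≤ lo) (h2 : hi ≤ hi') :
    Bd pr lo' hi' x := by
  intro n hn
  apply hx
  omega

section gr
variable (hg : Gr ad τ pr)
include hg

omit [Fintype V] in
theorem Gr.homog (n : ℤ) (x : M) : Bd pr n n (pr n x) := by
  intro m hm
  exact hg.pr_ne m n x (by omega)

omit [Fintype V] in
theorem Gr.ext' {x y : M} (h : ∀ n, pr n x = pr n y) : x = y := by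
  rw [← sub_eq_zero]
  apply hg.sep
  intro n
  rw [map_sub, h n, sub_self]

omit [Fintype V] in
theorem Gr.pr_symm (n : ℤ) (v : V) (x : M) : pr n ((τ v).symm x) = (τ v).symm (pr (n + 1) x) := by
  rw [AddEquiv.eq_symm_apply, ← hg.pr_τ, AddEquiv.apply_symm_apply]

omit [Fintype V] in
theorem Gr.comm' {a b : V} (h : ad a b) (x : M) :
    (τ a).symm ((τ b).symm x) = (τ b).symm ((τ a).symm x) := by
  rw [AddEquiv.symm_apply_eq, AddEquiv.symm_apply_eq, ← hg.comm a b h, AddEquiv.apply_symm_apply,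
    AddEquiv.apply_symm_apply]

omit [Fintype V] in
theorem Gr.pr_R (n : ℤ) (v : V) (x : M) :
    pr (n + 1) (Rt τ v x) = τ v (pr n x) - pr (n + 1) x := by
  rw [Rt_apply, map_sub, hg.pr_τ]

omit [Fintype V] in
theorem Gr.bd_τ {lo hi : ℤ} {x : M} (v : V) (hx : Bd pr lo hi x) :
    Bd pr (lo + 1) (hi + 1) (τ v x) := by
  intro n hn
  have : n = (n - 1) + 1 := by ring
  rw [this, hg.pr_τ, hx (n - 1) (by omega), map_zero]

omit [Fintype V] in
theorem Gr.bd_symm {lo hi : ℤ} {x : M} (v : V) (hx : Bd pr lo hi x) :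
    Bd pr (lo - 1) (hi - 1) ((τ v).symm x) := by
  intro n hn
  rw [hg.pr_symm, hx (n + 1) (by omega), map_zero]

omit [Fintype V] in
/-- removing the top component -/
theorem Gr.bd_top {lo hi : ℤ} {x : M} (hx : Bd pr lo hi x) (hlo : lo ≤ hi) :
    Bd pr lo (hi - 1) (x - pr hi x) := by
  intro n hn
  rw [map_sub]
  by_cases h : n = hi
  · rw [h, hg.pr_same, sub_self]
  · rw [hg.pr_ne n hi x h, hx n (by omega), sub_zero]

omit [Fintype V] in
/-- removing the bottom component -/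
theorem Gr.bd_bot {lo hi : ℤ} {x : M} (hx : Bd pr lo hi x) (hlo : lo ≤ hi) :
    Bd pr (lo + 1) hi (x - pr lo x) := by
  intro n hn
  rw [map_sub]
  by_cases h : n = lo
  · rw [h, hg.pr_same, sub_self]
  · rw [hg.pr_ne n lo x h, hx n (by omega), sub_zero]

end gr

variable (hg : Gr ad τ pr) (hR : Reg ad (Rt τ)) (irr : ∀ a, ¬ ad a a)
  (symm : ∀ a b, ad a b → ad b a) (hac : Acyc ad)

include hg hR irr symm hac

/-! ### Degree 1 -/

theorem top1_step (lo N : ℤ) (hlo : lo ≤ N - 1) (x : V → M) (hx : ∀ v, Bd pr lo N (x v))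
    (h : pr (N + 1) (∑ v, Rt τ v (x v)) = 0) :
    ∃ x' : V → M, (∀ v, Bd pr lo (N - 1) (x' v)) ∧
      ∑ v, Rt τ v (x' v) = ∑ v, Rt τ v (x v) := by
  have h1 : ∑ v, τ v (pr N (x v)) = 0 := by
    rw [map_sum] at h
    rw [← h]
    refine Finset.sum_congr rfl fun v _ => ?_
    rw [hg.pr_R, hx v (N + 1) (by omega), sub_zero]
  obtain ⟨yh, hyh, hyx⟩ := hac.ac1 M (fun v => τ v (pr N (x v))) h1
  let y : V → V → M := fun a b => (τ a).symm ((τ b).symm (pr (N + 1) (yh a b)))
  have hy1 : ∀ a b, y a b = - y b a := by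
    intro a b
    by_cases hab : ad a b
    · change (τ a).symm ((τ b).symm (pr (N + 1) (yh a b))) =
        -((τ b).symm ((τ a).symm (pr (N + 1) (yh b a))))
      rw [hg.comm' hab, hyh.1 a b, map_neg, map_neg, map_neg]
    · have e1 : yh a b = 0 := hyh.2 a b (fun h => hab h.2.2)
      have e2 : yh b a = 0 := hyh.2 b a (fun h => hab (symm _ _ h.2.2))
      simp only [y, e1, e2, map_zero, neg_zero]
  have hy2 : ∀ a b, ¬ ad a b → y a b = 0 := by
    intro a b hab
    have e1 : yh a b = 0 := hyh.2 a b (fun h => hab h.2.2)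
    simp only [y, e1, map_zero]
  have hybd : ∀ a b, Bd pr (N - 1) (N - 1) (y a b) := by
    intro a b
    have := hg.bd_symm a (hg.bd_symm b (hg.homog (N + 1) (yh a b)))
    exact this.mono (by omega) (by omega)
  have hdd : ∑ b, Rt τ b (∑ a, Rt τ a (y a b)) = 0 :=
    Pool.Agent.W304.DU.dd (Rt τ) hR irr y hy1 hy2
  have hτy : ∀ b, ∑ a, τ a (y a b) = pr N (x b) := by
    intro b
    have e1 : ∀ a, τ a (y a b) = (τ b).symm (pr (N + 1) (yh a b)) := fun a =>
      AddEquiv.apply_symm_apply _ _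
    simp only [e1]
    rw [← map_sum, ← map_sum, ← hyx b, ← hg.pr_symm, AddEquiv.symm_apply_apply, hg.pr_same]
  refine ⟨fun b => x b - ∑ a, Rt τ a (y a b), ?_, ?_⟩
  · intro b
    have e1 : x b - ∑ a, Rt τ a (y a b) = (x b - pr N (x b)) + ∑ a, y a b := by
      simp only [Rt_apply, Finset.sum_sub_distrib, hτy]
      abel
    simp only [e1]
    exact (hg.bd_top (hx b) (by omega)).add (Bd.sum fun a => (hybd a b).mono (by omega) le_rfl)
  · simp only [map_sub, Finset.sum_sub_distrib, hdd, sub_zero]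

theorem bot1_step (lo hi : ℤ) (hlo : lo + 1 ≤ hi) (x : V → M) (hx : ∀ v, Bd pr lo hi (x v))
    (h : pr lo (∑ v, Rt τ v (x v)) = 0) :
    ∃ x' : V → M, (∀ v, Bd pr (lo + 1) hi (x' v)) ∧
      ∑ v, Rt τ v (x' v) = ∑ v, Rt τ v (x v) := by
  have h1 : ∑ v, pr lo (x v) = 0 := by
    rw [map_sum] at h
    rw [← neg_eq_zero, ← h, ← Finset.sum_neg_distrib]
    refine Finset.sum_congr rfl fun v _ => ?_
    have e : lo = (lo - 1) + 1 := by ring
    have e2 := hg.pr_R (lo - 1) v (x v)
    rw [← e, hx v (lo - 1) (by omega), map_zero, zero_sub] at e2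
    exact e2.symm
  obtain ⟨yh, hyh, hyx⟩ := hac.ac1 M (fun v => pr lo (x v)) h1
  let y : V → V → M := fun a b => pr lo (yh a b)
  have hy1 : ∀ a b, y a b = - y b a := by
    intro a b
    change pr lo (yh a b) = - pr lo (yh b a)
    rw [hyh.1 a b, map_neg]
  have hy2 : ∀ a b, ¬ ad a b → y a b = 0 := by
    intro a b hab
    have e1 : yh a b = 0 := hyh.2 a b (fun h => hab h.2.2)
    simp only [y, e1, map_zero]
  have hdd : ∑ b, Rt τ b (∑ a, Rt τ a (y a b)) = 0 :=
    Pool.Agent.W304.DU.dd (Rt τ) hR irr y hy1 hy2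
  have hys : ∀ b, ∑ a, y a b = pr lo (x b) := by
    intro b
    change ∑ a, pr lo (yh a b) = _
    rw [← map_sum, ← hyx b, hg.pr_same]
  refine ⟨fun b => x b + ∑ a, Rt τ a (y a b), ?_, ?_⟩
  · intro b
    have e1 : x b + ∑ a, Rt τ a (y a b) = (x b - pr lo (x b)) + ∑ a, τ a (y a b) := by
      simp only [Rt_apply, Finset.sum_sub_distrib, hys]
      abel
    simp only [e1]
    exact (hg.bd_bot (hx b) (by omega)).add
      (Bd.sum fun a => (hg.bd_τ a (hg.homog lo (yh a b))).mono le_rfl hlo)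
  · simp only [map_add, Finset.sum_add_distrib, hdd, add_zero]

theorem top1 (lo : ℤ) (hlo : lo ≤ 0) (n : ℕ) : ∀ x : V → M, (∀ v, Bd pr lo (1 + n) (x v)) →
    (∀ k, 2 < k → pr k (∑ v, Rt τ v (x v)) = 0) →
    ∃ x' : V → M, (∀ v, Bd pr lo 1 (x' v)) ∧ ∑ v, Rt τ v (x' v) = ∑ v, Rt τ v (x v) := by
  induction n with
  | zero =>
    intro x hx _
    exact ⟨x, fun v => (hx v).mono le_rfl (by simp), rfl⟩
  | succ n ih =>
    intro x hx h
    obtain ⟨x', hx', hs⟩ := top1_step hg hR irr symm hac lo (1 + (n + 1 : ℕ)) (by push_cast; omega)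
      x hx (h _ (by push_cast; omega))
    obtain ⟨x'', hx'', hs'⟩ := ih x' (fun v => (hx' v).mono le_rfl (by push_cast; omega))
      (fun k hk => by rw [hs]; exact h k hk)
    exact ⟨x'', hx'', hs'.trans hs⟩

theorem bot1 (m : ℕ) : ∀ x : V → M, (∀ v, Bd pr (-m) 1 (x v)) →
    (∀ k, k < 0 → pr k (∑ v, Rt τ v (x v)) = 0) →
    ∃ x' : V → M, (∀ v, Bd pr 0 1 (x' v)) ∧ ∑ v, Rt τ v (x' v) = ∑ v, Rt τ v (x v) := by
  induction m with
  | zero =>
    intro x hx _
    exact ⟨x, fun v => (hx v).mono (by simp) le_rfl, rfl⟩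
  | succ n ih =>
    intro x hx h
    obtain ⟨x', hx', hs⟩ := bot1_step hg hR irr symm hac (-(n + 1 : ℕ)) 1 (by push_cast; omega)
      x hx (h _ (by push_cast; omega))
    obtain ⟨x'', hx'', hs'⟩ := ih x' (fun v => (hx' v).mono (by push_cast; omega) le_rfl)
      (fun k hk => by rw [hs]; exact h k hk)
    exact ⟨x'', hx'', hs'.trans hs⟩

theorem slab1 (g : M) (hgd : Bd pr 0 2 g) (x : V → M) (hx : ∑ v, Rt τ v (x v) = g) :
    ∃ x' : V → M, (∀ v, Bd pr 0 1 (x' v)) ∧ ∑ v, Rt τ v (x' v) = g := by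
  classical
  choose N hN using fun v => hg.fin (x v)
  let K : ℕ := ∑ v, N v
  have hK : ∀ v, N v ≤ K := fun v => Finset.single_le_sum (fun _ _ => Nat.zero_le _)
    (Finset.mem_univ v)
  have hb : ∀ v, Bd pr (-K) (1 + K) (x v) := by
    intro v n hn
    apply hN v
    have := hK v
    rcases hn with hn | hn
    · rw [abs_of_neg (by omega)]; omega
    · rw [abs_of_pos (by omega)]; omega
  obtain ⟨x1, hx1, hs1⟩ := top1 hg hR irr symm hac (-K) (by omega) K x hb (by
    intro k hk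
    rw [hx]
    exact hgd k (Or.inr hk))
  obtain ⟨x2, hx2, hs2⟩ := bot1 hg hR irr symm hac K x1 hx1 (by
    intro k hk
    rw [hs1, hx]
    exact hgd k (Or.inl hk))
  exact ⟨x2, hx2, hs2.trans (hs1.trans hx)⟩

/-! ### Degree 2 -/

theorem top2_step (lo N : ℤ) (hlo : lo ≤ N - 1) (y : V → V → M) (hy : IsAlt2 ad Set.univ y)
    (hyb : ∀ a b, Bd pr lo N (y a b))
    (h : ∀ b, pr (N + 1) (∑ a, Rt τ a (y a b)) = 0) :
    ∃ y' : V → V → M, IsAlt2 ad Set.univ y' ∧ (∀ a b, Bd pr lo (N - 1) (y' a b)) ∧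
      ∀ b, ∑ a, Rt τ a (y' a b) = ∑ a, Rt τ a (y a b) := by
  have h1 : ∀ b, ∑ a, τ a (pr N (y a b)) = 0 := by
    intro b
    have := h b
    rw [map_sum] at this
    rw [← this]
    refine Finset.sum_congr rfl fun v _ => ?_
    rw [hg.pr_R, hyb v b (N + 1) (by omega), sub_zero]
  let yh : V → V → M := fun a b => τ a (τ b (pr N (y a b)))
  have hnon : ∀ a b, ¬ ad a b → y a b = 0 := fun a b hab => hy.2 a b (fun h => hab h.2.2)
  have hyh : IsAlt2 ad Set.univ yh := by
    constructor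
    · intro a b
      by_cases hab : ad a b
      · change τ a (τ b (pr N (y a b))) = -(τ b (τ a (pr N (y b a))))
        rw [hg.comm a b hab, hy.1 a b, map_neg, map_neg, map_neg]
      · have e1 := hnon a b hab
        have e2 := hnon b a (fun h => hab (symm _ _ h))
        simp only [yh, e1, e2, map_zero, neg_zero]
    · intro a b hab
      have e1 : y a b = 0 := hy.2 a b hab
      simp only [yh, e1, map_zero]
  have hyh0 : ∀ b, ∑ a, yh a b = 0 := by
    intro b
    have e1 : ∀ a, yh a b = τ b (τ a (pr N (y a b))) := by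
      intro a
      by_cases hab : ad a b
      · exact hg.comm a b hab _
      · simp only [yh, hnon a b hab, map_zero]
    simp only [e1]
    rw [← map_sum, h1 b, map_zero]
  obtain ⟨zh, hzh, hzy⟩ := hac.ac2 M yh hyh hyh0
  have hzn : ∀ a b c, ¬ (ad a b ∧ ad b c ∧ ad a c) → zh a b c = 0 := by
    intro a b c hn
    exact hzh.2.2 a b c (fun h => hn h.2.2.2)
  let z : V → V → V → M := fun a b c =>
    (τ a).symm ((τ b).symm ((τ c).symm (pr (N + 2) (zh a b c))))
  have hz0 : ∀ a b c, ¬ (ad a b ∧ ad b c ∧ ad a c) → z a b c = 0 := by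
    intro a b c hn
    simp only [z, hzn a b c hn, map_zero]
  have hz1 : ∀ a b c, z a b c = - z b a c := by
    intro a b c
    by_cases hc : ad a b ∧ ad b c ∧ ad a c
    · change (τ a).symm ((τ b).symm ((τ c).symm (pr (N + 2) (zh a b c)))) =
        -((τ b).symm ((τ a).symm ((τ c).symm (pr (N + 2) (zh b a c)))))
      rw [hg.comm' hc.1, hzh.1 a b c]
      simp only [map_neg]
    · rw [hz0 a b c hc, hz0 b a c (fun h => hc ⟨symm _ _ h.1, h.2.2, h.2.1⟩), neg_zero]
  have hz2 : ∀ a b c, z a b c = - z a c b := by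
    intro a b c
    by_cases hc : ad a b ∧ ad b c ∧ ad a c
    · change (τ a).symm ((τ b).symm ((τ c).symm (pr (N + 2) (zh a b c)))) =
        -((τ a).symm ((τ c).symm ((τ b).symm (pr (N + 2) (zh a c b)))))
      rw [hg.comm' hc.2.1, hzh.2.1 a b c]
      simp only [map_neg]
    · rw [hz0 a b c hc, hz0 a c b (fun h => hc ⟨h.2.2, symm _ _ h.2.1, h.1⟩), neg_zero]
  have hzbd : ∀ a b c, Bd pr (N - 1) (N - 1) (z a b c) := by
    intro a b c
    have := hg.bd_symm a (hg.bd_symm b (hg.bd_symm c (hg.homog (N + 2) (zh a b c))))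
    exact this.mono (by omega) (by omega)
  have hτz : ∀ b c, ∑ a, τ a (z a b c) = pr N (y b c) := by
    intro b c
    have e1 : ∀ a, τ a (z a b c) = (τ b).symm ((τ c).symm (pr (N + 2) (zh a b c))) := fun a =>
      AddEquiv.apply_symm_apply _ _
    simp only [e1]
    rw [← map_sum, ← map_sum, ← map_sum, ← hzy b c]
    have e2 : N + 2 = N + 1 + 1 := by ring
    by_cases hbc : ad b c
    · change (τ b).symm ((τ c).symm (pr (N + 2) (τ b (τ c (pr N (y b c)))))) = _
      rw [hg.comm b c hbc, e2, hg.pr_τ, hg.pr_τ, hg.pr_same, AddEquiv.symm_apply_apply,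
        AddEquiv.symm_apply_apply]
    · change (τ b).symm ((τ c).symm (pr (N + 2) (τ b (τ c (pr N (y b c)))))) = _
      rw [hnon b c hbc]
      simp only [map_zero]
  have hdd : ∀ c, ∑ b, Rt τ b (∑ a, Rt τ a (z a b c)) = 0 := fun c =>
    Pool.Agent.W304.DU.dd (Rt τ) hR irr (fun a b => z a b c) (fun a b => hz1 a b c)
      (fun a b hab => hz0 a b c (fun h => hab h.1))
  refine ⟨fun b c => y b c - ∑ a, Rt τ a (z a b c), ⟨?_, ?_⟩, ?_, ?_⟩
  · intro b c
    have e1 : ∑ a, Rt τ a (z a b c) = - ∑ a, Rt τ a (z a c b) := by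
      rw [← Finset.sum_neg_distrib]
      refine Finset.sum_congr rfl fun a _ => ?_
      rw [hz2 a b c, map_neg]
    simp only [e1, hy.1 b c]
    abel
  · intro b c hbc
    have hbc' : ¬ ad b c := fun h => hbc ⟨trivial, trivial, h⟩
    have e1 : ∑ a, Rt τ a (z a b c) = 0 := by
      refine Finset.sum_eq_zero fun a _ => ?_
      rw [hz0 a b c (fun h => hbc' h.2.1), map_zero]
    simp only [e1, hy.2 b c hbc, sub_zero]
  · intro b c
    have e1 : y b c - ∑ a, Rt τ a (z a b c) = (y b c - pr N (y b c)) + ∑ a, z a b c := by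
      simp only [Rt_apply, Finset.sum_sub_distrib, hτz]
      abel
    simp only [e1]
    exact (hg.bd_top (hyb b c) (by omega)).add
      (Bd.sum fun a => (hzbd a b c).mono (by omega) le_rfl)
  · intro c
    simp only [map_sub, Finset.sum_sub_distrib, hdd, sub_zero]

theorem bot2_step (lo hi : ℤ) (hlo : lo + 1 ≤ hi) (y : V → V → M) (hy : IsAlt2 ad Set.univ y)
    (hyb : ∀ a b, Bd pr lo hi (y a b))
    (h : ∀ b, pr lo (∑ a, Rt τ a (y a b)) = 0) :
    ∃ y' : V → V → M, IsAlt2 ad Set.univ y' ∧ (∀ a b, Bd pr (lo + 1) hi (y' a b)) ∧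
      ∀ b, ∑ a, Rt τ a (y' a b) = ∑ a, Rt τ a (y a b) := by
  have h1 : ∀ b, ∑ a, pr lo (y a b) = 0 := by
    intro b
    have := h b
    rw [map_sum] at this
    rw [← neg_eq_zero, ← this, ← Finset.sum_neg_distrib]
    refine Finset.sum_congr rfl fun v _ => ?_
    have e : lo = (lo - 1) + 1 := by ring
    have e2 := hg.pr_R (lo - 1) v (y v b)
    rw [← e, hyb v b (lo - 1) (by omega), map_zero, zero_sub] at e2
    exact e2.symm
  have hyh : IsAlt2 ad Set.univ (fun a b => pr lo (y a b)) := by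
    constructor
    · intro a b
      simp only
      rw [hy.1 a b, map_neg]
    · intro a b hab
      simp only
      rw [hy.2 a b hab, map_zero]
  obtain ⟨zh, hzh, hzy⟩ := hac.ac2 M (fun a b => pr lo (y a b)) hyh h1
  let z : V → V → V → M := fun a b c => pr lo (zh a b c)
  have hz0 : ∀ a b c, ¬ (ad a b ∧ ad b c ∧ ad a c) → z a b c = 0 := by
    intro a b c hn
    have : zh a b c = 0 := hzh.2.2 a b c (fun h => hn h.2.2.2)
    simp only [z, this, map_zero]
  have hz1 : ∀ a b c, z a b c = - z b a c := by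
    intro a b c
    simp only [z]
    rw [hzh.1 a b c, map_neg]
  have hz2 : ∀ a b c, z a b c = - z a c b := by
    intro a b c
    simp only [z]
    rw [hzh.2.1 a b c, map_neg]
  have hzs : ∀ b c, ∑ a, z a b c = pr lo (y b c) := by
    intro b c
    change ∑ a, pr lo (zh a b c) = _
    rw [← map_sum, ← hzy b c, hg.pr_same]
  have hdd : ∀ c, ∑ b, Rt τ b (∑ a, Rt τ a (z a b c)) = 0 := fun c =>
    Pool.Agent.W304.DU.dd (Rt τ) hR irr (fun a b => z a b c) (fun a b => hz1 a b c)
      (fun a b hab => hz0 a b c (fun h => hab h.1))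
  refine ⟨fun b c => y b c + ∑ a, Rt τ a (z a b c), ⟨?_, ?_⟩, ?_, ?_⟩
  · intro b c
    have e1 : ∑ a, Rt τ a (z a b c) = - ∑ a, Rt τ a (z a c b) := by
      rw [← Finset.sum_neg_distrib]
      refine Finset.sum_congr rfl fun a _ => ?_
      rw [hz2 a b c, map_neg]
    simp only [e1, hy.1 b c]
    abel
  · intro b c hbc
    have hbc' : ¬ ad b c := fun h => hbc ⟨trivial, trivial, h⟩
    have e1 : ∑ a, Rt τ a (z a b c) = 0 := by
      refine Finset.sum_eq_zero fun a _ => ?_
      rw [hz0 a b c (fun h => hbc' h.2.1), map_zero]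
    simp only [e1, hy.2 b c hbc, add_zero]
  · intro b c
    have e1 : y b c + ∑ a, Rt τ a (z a b c) = (y b c - pr lo (y b c)) + ∑ a, τ a (z a b c) := by
      simp only [Rt_apply, Finset.sum_sub_distrib, hzs]
      abel
    simp only [e1]
    exact (hg.bd_bot (hyb b c) (by omega)).add
      (Bd.sum fun a => (hg.bd_τ a (hg.homog lo (zh a b c))).mono le_rfl hlo)
  · intro c
    simp only [map_add, Finset.sum_add_distrib, hdd, add_zero]

theorem top2 (lo : ℤ) (hlo : lo ≤ 0) (n : ℕ) : ∀ y : V → V → M, IsAlt2 ad Set.univ y →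
    (∀ a b, Bd pr lo n (y a b)) →
    (∀ k, 1 < k → ∀ b, pr k (∑ a, Rt τ a (y a b)) = 0) →
    ∃ y' : V → V → M, IsAlt2 ad Set.univ y' ∧ (∀ a b, Bd pr lo 0 (y' a b)) ∧
      ∀ b, ∑ a, Rt τ a (y' a b) = ∑ a, Rt τ a (y a b) := by
  induction n with
  | zero =>
    intro y hy hyb _
    exact ⟨y, hy, fun a b => (hyb a b).mono le_rfl (by simp), fun _ => rfl⟩
  | succ n ih =>
    intro y hy hyb h
    obtain ⟨y', hy', hyb', hs⟩ := top2_step hg hR irr symm hac lo (n + 1 : ℕ)
      (by push_cast; omega) y hy hyb (h _ (by push_cast; omega))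
    obtain ⟨y'', hy'', hyb'', hs'⟩ := ih y' hy'
      (fun a b => (hyb' a b).mono le_rfl (by push_cast; omega))
      (fun k hk b => by rw [hs]; exact h k hk b)
    exact ⟨y'', hy'', hyb'', fun b => (hs' b).trans (hs b)⟩

theorem bot2 (m : ℕ) : ∀ y : V → V → M, IsAlt2 ad Set.univ y →
    (∀ a b, Bd pr (-m) 0 (y a b)) →
    (∀ k, k < 0 → ∀ b, pr k (∑ a, Rt τ a (y a b)) = 0) →
    ∃ y' : V → V → M, IsAlt2 ad Set.univ y' ∧ (∀ a b, Bd pr 0 0 (y' a b)) ∧
      ∀ b, ∑ a, Rt τ a (y' a b) = ∑ a, Rt τ a (y a b) := by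
  induction m with
  | zero =>
    intro y hy hyb _
    exact ⟨y, hy, fun a b => (hyb a b).mono (by simp) le_rfl, fun _ => rfl⟩
  | succ n ih =>
    intro y hy hyb h
    obtain ⟨y', hy', hyb', hs⟩ := bot2_step hg hR irr symm hac (-(n + 1 : ℕ)) 0
      (by push_cast; omega) y hy hyb (h _ (by push_cast; omega))
    obtain ⟨y'', hy'', hyb'', hs'⟩ := ih y' hy'
      (fun a b => (hyb' a b).mono (by push_cast; omega) le_rfl)
      (fun k hk b => by rw [hs]; exact h k hk b)
    exact ⟨y'', hy'', hyb'', fun b => (hs' b).trans (hs b)⟩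

theorem slab2 (x : V → M) (hxd : ∀ v, Bd pr 0 1 (x v)) (y : V → V → M)
    (hy : IsAlt2 ad Set.univ y) (hyx : ∀ b, x b = ∑ a, Rt τ a (y a b)) :
    ∃ y' : V → V → M, IsAlt2 ad Set.univ y' ∧ (∀ a b, Bd pr 0 0 (y' a b)) ∧
      ∀ b, x b = ∑ a, Rt τ a (y' a b) := by
  classical
  choose N hN using fun v w => hg.fin (y v w)
  let K : ℕ := ∑ v, ∑ w, N v w
  have hK : ∀ v w, N v w ≤ K := fun v w =>
    (Finset.single_le_sum (f := fun w => N v w) (fun _ _ => Nat.zero_le _)
      (Finset.mem_univ w)).trans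
      (Finset.single_le_sum (f := fun v => ∑ w, N v w) (fun _ _ => Nat.zero_le _)
        (Finset.mem_univ v))
  have hb : ∀ v w, Bd pr (-K) K (y v w) := by
    intro v w n hn
    apply hN v w
    have := hK v w
    rcases hn with hn | hn
    · rw [abs_of_neg (by omega)]; omega
    · rw [abs_of_pos (by omega)]; omega
  obtain ⟨y1, hy1, hb1, hs1⟩ := top2 hg hR irr symm hac (-K) (by omega) K y hy hb (by
    intro k hk b
    rw [← hyx]
    exact hxd b k (Or.inr hk))
  obtain ⟨y2, hy2, hb2, hs2⟩ := bot2 hg hR irr symm hac K y1 hy1 hb1 (by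
    intro k hk b
    rw [hs1, ← hyx]
    exact hxd b k (Or.inl hk))
  exact ⟨y2, hy2, hb2, fun b => ((hyx b).trans (hs1 b).symm).trans (hs2 b).symm⟩

/-! ### Degree 3 -/

theorem top3 (lo : ℤ) (hlo : lo ≤ 0) (n : ℕ) (z : V → V → V → M) (hz : IsAlt3 ad Set.univ z)
    (h : ∀ k, 0 < k → ∀ b c, pr k (∑ a, Rt τ a (z a b c)) = 0)
    (hb : ∀ a b c, Bd pr lo n (z a b c)) :
    ∀ a b c, Bd pr lo (-1) (z a b c) := by
  have hzn : ∀ a b c, ¬ (ad a b ∧ ad b c ∧ ad a c) → z a b c = 0 := by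
    intro a b c hn
    exact hz.2.2 a b c (fun h => hn h.2.2.2)
  have step : ∀ N : ℤ, 0 ≤ N → (∀ a b c, Bd pr lo N (z a b c)) →
      ∀ a b c, Bd pr lo (N - 1) (z a b c) := by
    intro N hN hb
    have h1 : ∀ b c, ∑ a, τ a (pr N (z a b c)) = 0 := by
      intro b c
      have := h (N + 1) (by omega) b c
      rw [map_sum] at this
      rw [← this]
      refine Finset.sum_congr rfl fun v _ => ?_
      rw [hg.pr_R, hb v b c (N + 1) (by omega), sub_zero]
    let zh : V → V → V → M := fun a b c => τ a (τ b (τ c (pr N (z a b c))))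
    have hzh0 : ∀ a b c, ¬ (ad a b ∧ ad b c ∧ ad a c) → zh a b c = 0 := by
      intro a b c hn
      simp only [zh, hzn a b c hn, map_zero]
    have hzh : IsAlt3 ad Set.univ zh := by
      refine ⟨?_, ?_, ?_⟩
      · intro a b c
        by_cases hc : ad a b ∧ ad b c ∧ ad a c
        · change τ a (τ b (τ c (pr N (z a b c)))) = -(τ b (τ a (τ c (pr N (z b a c)))))
          rw [hg.comm a b hc.1, hz.1 a b c]
          simp only [map_neg]
        · rw [hzh0 a b c hc, hzh0 b a c (fun h => hc ⟨symm _ _ h.1, h.2.2, h.2.1⟩), neg_zero]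
      · intro a b c
        by_cases hc : ad a b ∧ ad b c ∧ ad a c
        · change τ a (τ b (τ c (pr N (z a b c)))) = -(τ a (τ c (τ b (pr N (z a c b)))))
          rw [hg.comm b c hc.2.1, hz.2.1 a b c]
          simp only [map_neg]
        · rw [hzh0 a b c hc, hzh0 a c b (fun h => hc ⟨h.2.2, symm _ _ h.2.1, h.1⟩), neg_zero]
      · intro a b c hn
        apply hzh0
        intro h
        exact hn ⟨trivial, trivial, trivial, h⟩
    have hs : ∀ b c, ∑ a, zh a b c = 0 := by
      intro b c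
      have e1 : ∀ a, zh a b c = τ b (τ c (τ a (pr N (z a b c)))) := by
        intro a
        by_cases hc : ad a b ∧ ad b c ∧ ad a c
        · change τ a (τ b (τ c (pr N (z a b c)))) = _
          rw [hg.comm a b hc.1, hg.comm a c hc.2.2]
        · rw [hzh0 a b c hc, hzn a b c hc]
          simp only [map_zero]
      simp only [e1]
      rw [← map_sum, ← map_sum, h1 b c, map_zero, map_zero]
    have h3 := hac.ac3 M zh hzh hs
    intro a b c k hk
    by_cases hkN : k = N
    · rw [hkN]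
      have := h3 a b c
      change τ a (τ b (τ c (pr N (z a b c)))) = 0 at this
      rw [AddEquiv.map_eq_zero_iff, AddEquiv.map_eq_zero_iff, AddEquiv.map_eq_zero_iff] at this
      exact this
    · exact hb a b c k (by omega)
  induction n with
  | zero =>
    have := step 0 le_rfl (fun a b c => (hb a b c).mono le_rfl (by simp))
    simpa using this
  | succ n ih =>
    apply ih
    have := step (n + 1 : ℕ) (by positivity) hb
    intro a b c
    exact (this a b c).mono le_rfl (by push_cast; omega)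

theorem bot3 (m : ℕ) (z : V → V → V → M) (hz : IsAlt3 ad Set.univ z)
    (h : ∀ k, k < 0 → ∀ b c, pr k (∑ a, Rt τ a (z a b c)) = 0)
    (hb : ∀ a b c, Bd pr (-m) (-1) (z a b c)) : ∀ a b c, z a b c = 0 := by
  induction m with
  | zero =>
    intro a b c
    apply hg.sep
    intro n
    apply hb a b c
    simp only [Nat.cast_zero, neg_zero]
    omega
  | succ n ih =>
    apply ih
    have h1 : ∀ b c, ∑ a, pr (-(n + 1 : ℕ)) (z a b c) = 0 := by
      intro b c
      have := h (-(n + 1 : ℕ)) (by push_cast; omega) b c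
      rw [map_sum] at this
      rw [← neg_eq_zero, ← this, ← Finset.sum_neg_distrib]
      refine Finset.sum_congr rfl fun v _ => ?_
      have e : (-(n + 1 : ℕ) : ℤ) = (-(n + 1 : ℕ) - 1) + 1 := by ring
      have e2 := hg.pr_R (-(n + 1 : ℕ) - 1) v (z v b c)
      rw [← e, hb v b c (-(n + 1 : ℕ) - 1) (by omega), map_zero, zero_sub] at e2
      exact e2.symm
    have h2 := hac.ac3 M (fun a b c => pr (-(n + 1 : ℕ)) (z a b c)) (by
      refine ⟨?_, ?_, ?_⟩
      · intro a b c
        simp only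
        rw [hz.1 a b c, map_neg]
      · intro a b c
        simp only
        rw [hz.2.1 a b c, map_neg]
      · intro a b c hn
        simp only
        rw [hz.2.2 a b c hn, map_zero]) h1
    intro a b c k hk
    by_cases hkn : k = -(n + 1 : ℕ)
    · rw [hkn]
      exact h2 a b c
    · exact hb a b c k (by push_cast at hkn ⊢; omega)

theorem slab3 (z : V → V → V → M) (hz : IsAlt3 ad Set.univ z)
    (h : ∀ b c, Bd pr 0 0 (∑ a, Rt τ a (z a b c))) : ∀ a b c, z a b c = 0 := by
  classical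
  choose N hN using fun u v w => hg.fin (z u v w)
  let K : ℕ := ∑ u, ∑ v, ∑ w, N u v w
  have hK : ∀ u v w, N u v w ≤ K := fun u v w =>
    ((Finset.single_le_sum (f := fun w => N u v w) (fun _ _ => Nat.zero_le _)
      (Finset.mem_univ w)).trans
      (Finset.single_le_sum (f := fun v => ∑ w, N u v w) (fun _ _ => Nat.zero_le _)
        (Finset.mem_univ v))).trans
      (Finset.single_le_sum (f := fun u => ∑ v, ∑ w, N u v w) (fun _ _ => Nat.zero_le _)
        (Finset.mem_univ u))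
  have hb : ∀ u v w, Bd pr (-K) K (z u v w) := by
    intro u v w n hn
    apply hN u v w
    have := hK u v w
    rcases hn with hn | hn
    · rw [abs_of_neg (by omega)]; omega
    · rw [abs_of_pos (by omega)]; omega
  have h1 := top3 hg hR irr symm hac (-K) (by omega) K z hz
    (fun k hk b c => h b c k (Or.inr hk)) hb
  exact bot3 hg hR irr symm hac K z hz (fun k hk b c => h b c k (Or.inl hk)) h1

end

end Pool.Agent.Q121.HC
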